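import Pool.Agent.Lib.PCP.Tester

/-!
# The PCP theorem: alphabet reduction
-/

set_option autoImplicit false

namespace Pool.Agent.Lib.PCP

open Pool.Agent.Lib.helper60
open Pool.Agent.H66 (Cl Sat3)
open Finset (range)

theorem comp_tests_length (A : Type) [Finite A] :
    (tests A).length = Nat.card (Rnd A) * 6 := by
  classical
  let _ := Fintype.ofFinite (Rnd A × Fin 6)
  have h : (tests A).length = Fintype.card (Rnd A × Fin 6) := by
    unfold tests
    rw [Finset.length_toList]
    rfl
  rw [h, ← Nat.card_eq_fintype_card, Nat.card_prod]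
  simp

theorem comp_card_Rnd_pos (A : Type) [Finite A] : 0 < Nat.card (Rnd A) := by
  have : Nonempty (Rnd A) := ⟨(fun _ => true, fun _ => true, fun _ => true, fun _ => true)⟩
  exact Nat.card_pos

theorem tests_length_pos (A : Type) [Finite A] : 0 < (tests A).length := by
  rw [comp_tests_length]
  exact Nat.mul_pos (comp_card_Rnd_pos A) (by norm_num)

theorem comp_cidx_lt {α : Type} [Finite α] (a : α) : cidx a < Nat.card α :=
  (Finite.equivFin α a).isLt

theorem comp_cidx_symm {α : Type} [Finite α] (a : α) (h : cidx a < Nat.card α) :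
    (Finite.equivFin α).symm ⟨cidx a, h⟩ = a := by
  have : (⟨cidx a, h⟩ : Fin (Nat.card α)) = Finite.equivFin α a := rfl
  rw [this, Equiv.symm_apply_apply]

/-- the element of number `w`, or a default value -/
noncomputable def comp_dec {α : Type} [Finite α] [Inhabited α] (w : ℕ) : α :=
  if h : w < Nat.card α then (Finite.equivFin α).symm ⟨w, h⟩ else default

theorem comp_dec_cidx {α : Type} [Finite α] [Inhabited α] (a : α) :
    comp_dec (cidx a) = a := by
  unfold comp_dec
  rw [dif_pos (comp_cidx_lt a)]
  exact comp_cidx_symm a _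

theorem comp_list_eq {A : Type} (I : Inst A) :
    I.2 = (List.range I.2.length).map (fun j => cst I j) := by
  apply List.ext_getElem
  · simp
  · intro i h1 h2
    have h3 : I.2[i]? = some I.2[i] := List.getElem?_eq_getElem h1
    simp [cst, h3]

/-- the list of the constraints of `compInst` for the constraint `j` -/
noncomputable def comp_blk {A : Type} [Finite A] (I : Inst A) (j : ℕ) :
    List (ℕ × ℕ × Con A0) :=
  (tests A).zipIdx.flatMap (fun q =>
      (List.finRange 4).map (fun i =>
        (I.1 * Nat.card (A → Bool) + (I.2.length * Nat.card (A × A → Bool) +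
            (j * (tests A).length + q.2)),
          vid I.1 (cst I j).1 (cst I j).2.1 j (qry (cst I j).2.2 q.1.1 q.1.2 i),
          qcon q.1.2 i)))

theorem comp_snd {A : Type} [Finite A] (I : Inst A) :
    (compInst I).2 = (List.range I.2.length).flatMap (fun j => comp_blk I j) := rfl

theorem comp_blk_length {A : Type} [Finite A] (I : Inst A) (j : ℕ) :
    (comp_blk I j).length = (tests A).length * 4 := by
  unfold comp_blk
  rw [List.length_flatMap]
  simp

theorem comp_vid_lt {A : Type} [Finite A] (n u v j len X : ℕ) (hu : u < n) (hv : v < n)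
    (hj : j < len) (q : Loc A) :
    vid n u v j q < n * Nat.card (A → Bool) + (len * Nat.card (A × A → Bool) + X) := by
  rcases q with t | t | g
  · have h1 := comp_cidx_lt t
    have h2 : (u + 1) * Nat.card (A → Bool) ≤ n * Nat.card (A → Bool) :=
      Nat.mul_le_mul_right _ hu
    simp only [vid]
    nlinarith
  · have h1 := comp_cidx_lt t
    have h2 : (v + 1) * Nat.card (A → Bool) ≤ n * Nat.card (A → Bool) :=
      Nat.mul_le_mul_right _ hv
    simp only [vid]
    nlinarith
  · have h1 := comp_cidx_lt g
    have h2 : (j + 1) * Nat.card (A × A → Bool) ≤ len * Nat.card (A × A → Bool) :=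
      Nat.mul_le_mul_right _ hj
    simp only [vid]
    nlinarith

theorem comp_bdd {A : Type} [Finite A] (I : Inst A) (hb : Bdd I) : Bdd (compInst I) := by
  intro c hc
  rw [comp_snd, List.mem_flatMap] at hc
  obtain ⟨j, hj, hc⟩ := hc
  rw [List.mem_range] at hj
  unfold comp_blk at hc
  rw [List.mem_flatMap] at hc
  obtain ⟨q, hq, hc⟩ := hc
  rw [List.mem_map] at hc
  obtain ⟨i, -, rfl⟩ := hc
  have hq2 : q.2 < (tests A).length := by
    obtain ⟨q1, q2⟩ := q
    have := List.snd_lt_of_mem_zipIdx hq
    simpa using this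
  have hmem : cst I j ∈ I.2 := by
    unfold cst
    rw [List.getD_eq_getElem _ _ hj]
    exact List.getElem_mem hj
  obtain ⟨hu, hv⟩ := hb _ hmem
  constructor
  · have h2 : (j + 1) * (tests A).length ≤ I.2.length * (tests A).length :=
      Nat.mul_le_mul_right _ hj
    simp only [compInst]
    nlinarith
  · exact comp_vid_lt _ _ _ _ _ _ hu hv hj _

/-! ### completeness -/

/-- the satisfying assignment -/
noncomputable def comp_asg {A : Type} [Finite A] [Inhabited A] (I : Inst A) (s : ℕ → A) (w : ℕ) :
    A0 :=
  let K := Nat.card (A → Bool)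
  let K' := Nat.card (A × A → Bool)
  let T := (tests A).length
  if w < I.1 * K then
    fun _ => (comp_dec (w % K) : A → Bool) (s (w / K))
  else if w - I.1 * K < I.2.length * K' then
    fun _ => (comp_dec ((w - I.1 * K) % K') : A × A → Bool)
      (s (cst I ((w - I.1 * K) / K')).1, s (cst I ((w - I.1 * K) / K')).2.1)
  else
    let w' := w - I.1 * K - I.2.length * K'
    let c := cst I (w' / T)
    let q := (tests A).getD (w' % T) ((fun _ => true, fun _ => true, fun _ => true,
      fun _ => true), 0)
    fun i => tval (fun t => t (s c.1)) (fun t => t (s c.2.1)) (fun g => g (s c.1, s c.2.1))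
      (qry c.2.2 q.1 q.2 i)

theorem comp_asg_vid {A : Type} [Finite A] [Inhabited A] (I : Inst A) (s : ℕ → A)
    (j : ℕ) (hj : j < I.2.length) (hu : (cst I j).1 < I.1) (hv : (cst I j).2.1 < I.1)
    (q : Loc A) :
    comp_asg I s (vid I.1 (cst I j).1 (cst I j).2.1 j q) 0 =
      tval (fun t => t (s (cst I j).1)) (fun t => t (s (cst I j).2.1))
        (fun g => g (s (cst I j).1, s (cst I j).2.1)) q := by
  have key : ∀ (u : ℕ) (_ : u < I.1) (t : A → Bool),
      comp_asg I s (u * Nat.card (A → Bool) + cidx t) 0 = t (s u) := by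
    intro u hu t
    have h1 := comp_cidx_lt t
    have h2 : (u + 1) * Nat.card (A → Bool) ≤ I.1 * Nat.card (A → Bool) :=
      Nat.mul_le_mul_right _ hu
    unfold comp_asg
    have h3 : u * Nat.card (A → Bool) + cidx t < I.1 * Nat.card (A → Bool) := by nlinarith
    simp only [h3, if_true]
    have h4 : (u * Nat.card (A → Bool) + cidx t) % Nat.card (A → Bool) = cidx t := by
      rw [Nat.add_comm, Nat.add_mul_mod_self_right, Nat.mod_eq_of_lt h1]
    have h5 : (u * Nat.card (A → Bool) + cidx t) / Nat.card (A → Bool) = u := by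
      rw [Nat.add_comm, Nat.add_mul_div_right _ _ (by omega), Nat.div_eq_of_lt h1, Nat.zero_add]
    rw [h4, h5, comp_dec_cidx]
  rcases q with t | t | g
  · exact key _ hu t
  · exact key _ hv t
  · have h1 := comp_cidx_lt g
    have h2 : (j + 1) * Nat.card (A × A → Bool) ≤ I.2.length * Nat.card (A × A → Bool) :=
      Nat.mul_le_mul_right _ hj
    show comp_asg I s (I.1 * Nat.card (A → Bool) + (j * Nat.card (A × A → Bool) + cidx g)) 0 =
      g (s (cst I j).1, s (cst I j).2.1)
    unfold comp_asg
    have h3 : ¬ (I.1 * Nat.card (A → Bool) + (j * Nat.card (A × A → Bool) + cidx g) <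
      I.1 * Nat.card (A → Bool)) := by omega
    have h4 : I.1 * Nat.card (A → Bool) + (j * Nat.card (A × A → Bool) + cidx g) -
      I.1 * Nat.card (A → Bool) = j * Nat.card (A × A → Bool) + cidx g := by omega
    have h5 : j * Nat.card (A × A → Bool) + cidx g < I.2.length * Nat.card (A × A → Bool) := by
      nlinarith
    simp only [h3, if_false, h4, h5, if_true]
    have h6 : (j * Nat.card (A × A → Bool) + cidx g) % Nat.card (A × A → Bool) = cidx g := by
      rw [Nat.add_comm, Nat.add_mul_mod_self_right, Nat.mod_eq_of_lt h1]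
    have h7 : (j * Nat.card (A × A → Bool) + cidx g) / Nat.card (A × A → Bool) = j := by
      rw [Nat.add_comm, Nat.add_mul_div_right _ _ (by omega), Nat.div_eq_of_lt h1, Nat.zero_add]
    rw [h6, h7, comp_dec_cidx]

theorem comp_asg_test {A : Type} [Finite A] [Inhabited A] (I : Inst A) (s : ℕ → A)
    (j : ℕ) (p : ℕ) (hp : p < (tests A).length) :
    comp_asg I s (I.1 * Nat.card (A → Bool) + (I.2.length * Nat.card (A × A → Bool) +
            (j * (tests A).length + p))) =
      fun i => tval (fun t => t (s (cst I j).1)) (fun t => t (s (cst I j).2.1))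
        (fun g => g (s (cst I j).1, s (cst I j).2.1))
        (qry (cst I j).2.2 ((tests A)[p]).1 ((tests A)[p]).2 i) := by
  unfold comp_asg
  have h3 : ¬ (I.1 * Nat.card (A → Bool) + (I.2.length * Nat.card (A × A → Bool) +
            (j * (tests A).length + p)) < I.1 * Nat.card (A → Bool)) := by omega
  have h4 : ¬ (I.1 * Nat.card (A → Bool) + (I.2.length * Nat.card (A × A → Bool) +
            (j * (tests A).length + p)) - I.1 * Nat.card (A → Bool) <
      I.2.length * Nat.card (A × A → Bool)) := by omega
  have h5 : I.1 * Nat.card (A → Bool) + (I.2.length * Nat.card (A × A → Bool) +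
            (j * (tests A).length + p)) - I.1 * Nat.card (A → Bool) -
      I.2.length * Nat.card (A × A → Bool) = j * (tests A).length + p := by omega
  have h6 : (j * (tests A).length + p) % (tests A).length = p := by
    rw [Nat.add_comm, Nat.add_mul_mod_self_right, Nat.mod_eq_of_lt hp]
  have h7 : (j * (tests A).length + p) / (tests A).length = j := by
    rw [Nat.add_comm, Nat.add_mul_div_right _ _ (by omega), Nat.div_eq_of_lt hp, Nat.zero_add]
  simp only [h3, if_false, h4, h5, h6, h7]
  rw [List.getD_eq_getElem _ _ hp]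

theorem comp_sat {A : Type} [Finite A] [Inhabited A] (I : Inst A) (hb : Bdd I) (h : Sat I) :
    Sat (compInst I) := by
  obtain ⟨s, hs⟩ := h
  refine ⟨comp_asg I s, ?_⟩
  intro c hc
  rw [comp_snd, List.mem_flatMap] at hc
  obtain ⟨j, hj, hc⟩ := hc
  rw [List.mem_range] at hj
  unfold comp_blk at hc
  rw [List.mem_flatMap] at hc
  obtain ⟨⟨⟨r, k⟩, p⟩, hq, hc⟩ := hc
  rw [List.mem_map] at hc
  obtain ⟨i, -, rfl⟩ := hc
  have hmem : cst I j ∈ I.2 := by
    unfold cst
    rw [List.getD_eq_getElem _ _ hj]
    exact List.getElem_mem hj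
  obtain ⟨hu, hv⟩ := hb _ hmem
  have hsat := hs _ hmem
  have hp := List.mem_zipIdx' hq
  obtain ⟨hp1, hp2⟩ := hp
  simp only
  rw [comp_asg_test I s j p hp1, ← hp2]
  simp only [qcon, Bool.and_eq_true, beq_iff_eq]
  refine ⟨tester_complete _ _ _ hsat r k, ?_⟩
  rw [comp_asg_vid I s j hj hu hv]

/-! ### soundness -/

theorem comp_countP_flatMap {α β : Type} (p : β → Bool) (f : α → List β) (l : List α) :
    (l.flatMap f).countP p = (l.map (fun a => (f a).countP p)).sum := by
  induction l with
  | nil => simp
  | cons a l ih => simp [List.flatMap_cons, List.countP_append, ih]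

theorem comp_countP_le_sum {α : Type} (p : α → Bool) (f : α → ℕ) (l : List α) (c : ℕ)
    (h : ∀ a ∈ l, p a = true → c ≤ f a) : c * l.countP p ≤ (l.map f).sum := by
  induction l with
  | nil => simp
  | cons a l ih =>
    have ih' := ih (fun b hb => h b (List.mem_cons_of_mem _ hb))
    rw [List.map_cons, List.sum_cons]
    by_cases hpa : p a = true
    · rw [List.countP_cons_of_pos hpa]
      have := h a List.mem_cons_self hpa
      rw [Nat.mul_add, Nat.mul_one]
      omega
    · rw [List.countP_cons_of_neg hpa]
      omega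

/-- a failing test gives a violated constraint -/
theorem comp_four {A : Type} [Finite A] (I : Inst A) (s' : ℕ → A0) (j : ℕ) (r : Rnd A)
    (k : Fin 6) (w : ℕ)
    (hf : prd k (fun i => tval (fun t => s' ((cst I j).1 * Nat.card (A → Bool) + cidx t) 0)
      (fun t => s' ((cst I j).2.1 * Nat.card (A → Bool) + cidx t) 0)
      (fun g => s' (I.1 * Nat.card (A → Bool) + (j * Nat.card (A × A → Bool) + cidx g)) 0)
      (qry (cst I j).2.2 r k i)) = false) :
    1 ≤ ((List.finRange 4).map (fun i =>
        ((w, vid I.1 (cst I j).1 (cst I j).2.1 j (qry (cst I j).2.2 r k i),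
          qcon k i) : ℕ × ℕ × Con A0))).countP (fun c => !(c.2.2 (s' c.1) (s' c.2.1))) := by
  by_contra hcon
  have h0 : ((List.finRange 4).map (fun i =>
        ((w, vid I.1 (cst I j).1 (cst I j).2.1 j (qry (cst I j).2.2 r k i),
          qcon k i) : ℕ × ℕ × Con A0))).countP (fun c => !(c.2.2 (s' c.1) (s' c.2.1))) = 0 := by
    omega
  rw [List.countP_eq_zero] at h0
  have h1 : ∀ i : Fin 4, prd k (s' w) = true ∧ (s' w) i =
      s' (vid I.1 (cst I j).1 (cst I j).2.1 j (qry (cst I j).2.2 r k i)) 0 := by
    intro i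
    have := h0 (w, vid I.1 (cst I j).1 (cst I j).2.1 j (qry (cst I j).2.2 r k i), qcon k i)
      (List.mem_map_of_mem (List.mem_finRange i))
    simpa [qcon] using this
  have h2 : (s' w) = (fun i => tval (fun t => s' ((cst I j).1 * Nat.card (A → Bool) + cidx t) 0)
      (fun t => s' ((cst I j).2.1 * Nat.card (A → Bool) + cidx t) 0)
      (fun g => s' (I.1 * Nat.card (A → Bool) + (j * Nat.card (A × A → Bool) + cidx g)) 0)
      (qry (cst I j).2.2 r k i)) := by
    funext i
    rw [(h1 i).2]
    rcases qry (cst I j).2.2 r k i with t | t | g <;> rfl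
  rw [← h2, (h1 0).1] at hf
  exact absurd hf (by simp)

theorem comp_blk_count {A : Type} [Finite A] (I : Inst A) (s' : ℕ → A0) (j : ℕ) (k : Fin 6) :
    Nat.card {r : Rnd A // prd k (fun i =>
      tval (fun t => s' ((cst I j).1 * Nat.card (A → Bool) + cidx t) 0)
      (fun t => s' ((cst I j).2.1 * Nat.card (A → Bool) + cidx t) 0)
      (fun g => s' (I.1 * Nat.card (A → Bool) + (j * Nat.card (A × A → Bool) + cidx g)) 0)
      (qry (cst I j).2.2 r k i)) = false} ≤
    (comp_blk I j).countP (fun c => !(c.2.2 (s' c.1) (s' c.2.1))) := by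
  classical
  unfold comp_blk
  rw [comp_countP_flatMap]
  set F : Rnd A → Fin 6 → Bool := fun r k' => !(prd k' (fun i =>
      tval (fun t => s' ((cst I j).1 * Nat.card (A → Bool) + cidx t) 0)
      (fun t => s' ((cst I j).2.1 * Nat.card (A → Bool) + cidx t) 0)
      (fun g => s' (I.1 * Nat.card (A → Bool) + (j * Nat.card (A × A → Bool) + cidx g)) 0)
      (qry (cst I j).2.2 r k' i))) with hF
  have h1 := comp_countP_le_sum (fun q : (Rnd A × Fin 6) × ℕ => F q.1.1 q.1.2)
    (fun q : (Rnd A × Fin 6) × ℕ => ((List.finRange 4).map (fun i =>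
        ((I.1 * Nat.card (A → Bool) + (I.2.length * Nat.card (A × A → Bool) +
            (j * (tests A).length + q.2)),
          vid I.1 (cst I j).1 (cst I j).2.1 j (qry (cst I j).2.2 q.1.1 q.1.2 i),
          qcon q.1.2 i) : ℕ × ℕ × Con A0))).countP (fun c => !(c.2.2 (s' c.1) (s' c.2.1))))
    (tests A).zipIdx 1 (by
      rintro ⟨⟨r, k'⟩, p⟩ _ hq
      apply comp_four
      simpa [hF] using hq)
  refine le_trans ?_ h1
  rw [Nat.one_mul]
  have h2 : (tests A).zipIdx.countP (fun q : (Rnd A × Fin 6) × ℕ => F q.1.1 q.1.2) =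
      (tests A).countP (fun q : Rnd A × Fin 6 => F q.1 q.2) := by
    have : (tests A).countP (fun q : Rnd A × Fin 6 => F q.1 q.2) =
        ((tests A).zipIdx.map Prod.fst).countP (fun q : Rnd A × Fin 6 => F q.1 q.2) := by
      rw [List.zipIdx_map_fst]
    rw [this, List.countP_map]
    rfl
  rw [h2]
  let instR := Fintype.ofFinite (Rnd A × Fin 6)
  have h3 : (tests A).countP (fun q : Rnd A × Fin 6 => F q.1 q.2) =
      (Finset.univ.filter (fun q : Rnd A × Fin 6 => F q.1 q.2 = true)).card := by
    unfold tests
    rw [Finset.card_def, Finset.filter_val, ← Multiset.countP_eq_card_filter,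
      ← Finset.coe_toList Finset.univ, Multiset.coe_countP]
    congr 1
    funext q
    simp
  rw [h3]
  let instR2 := Fintype.ofFinite (Rnd A)
  rw [Nat.card_eq_fintype_card, Fintype.card_subtype]
  apply Finset.card_le_card_of_injOn (fun r => (r, k))
  · intro r hr
    simp only [Finset.coe_filter, Finset.mem_univ, true_and, Set.mem_ofPred_eq] at hr ⊢
    simpa [hF] using hr
  · intro r1 _ r2 _ h
    exact (Prod.mk.inj h).1

theorem comp_gap {A : Type} [Finite A] [Inhabited A] (I : Inst A) (e : ℝ) (_ : 0 ≤ e)
    (hg : Gap e I) : Gap (e / 960) (compInst I) := by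
  intro s'
  obtain ⟨dec, hdec⟩ := tester_sound (A := A)
  set s : ℕ → A := fun v => dec (fun t => s' (v * Nat.card (A → Bool) + cidx t) 0) with hs
  have h1 := hg s
  have hlen : ((compInst I).2.length : ℝ) = I.2.length * (Nat.card (Rnd A) * 24) := by
    rw [comp_snd, List.length_flatMap]
    simp only [comp_blk_length, comp_tests_length, List.map_const', List.length_range,
      List.sum_replicate, smul_eq_mul]
    push_cast
    ring
  have h2 : Nat.card (Rnd A) * viol I s ≤ 40 * viol (compInst I) s' := by
    have e1 : viol I s = (List.range I.2.length).countP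
        (fun j => !((cst I j).2.2 (s (cst I j).1) (s (cst I j).2.1))) := by
      unfold viol
      conv_lhs => rw [comp_list_eq I]
      rw [List.countP_map]
      rfl
    have e2 : 40 * viol (compInst I) s' = ((List.range I.2.length).map (fun j =>
        40 * (comp_blk I j).countP (fun c => !(c.2.2 (s' c.1) (s' c.2.1))))).sum := by
      unfold viol
      rw [comp_snd, comp_countP_flatMap, List.sum_map_mul_left]
    rw [e1, e2]
    apply comp_countP_le_sum
    intro j hj hv
    by_contra hcon
    have hall : ∀ k : Fin 6, 40 * Nat.card {r : Rnd A // prd k (fun i =>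
      tval (fun t => s' ((cst I j).1 * Nat.card (A → Bool) + cidx t) 0)
      (fun t => s' ((cst I j).2.1 * Nat.card (A → Bool) + cidx t) 0)
      (fun g => s' (I.1 * Nat.card (A → Bool) + (j * Nat.card (A × A → Bool) + cidx g)) 0)
      (qry (cst I j).2.2 r k i)) = false} < Nat.card (Rnd A) := by
      intro k
      have := comp_blk_count I s' j k
      omega
    have := hdec _ _ _ _ hall
    simp only [hs] at hv
    rw [this] at hv
    simp at hv
  have h3 : (Nat.card (Rnd A) : ℝ) * viol I s ≤ 40 * viol (compInst I) s' := by exact_mod_cast h2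
  rw [hlen]
  have h4 : (Nat.card (Rnd A) : ℝ) * (e * I.2.length) ≤ (Nat.card (Rnd A) : ℝ) * viol I s :=
    mul_le_mul_of_nonneg_left h1 (Nat.cast_nonneg _)
  have h5 : e / 960 * (I.2.length * (Nat.card (Rnd A) * 24)) =
    ((Nat.card (Rnd A) : ℝ) * (e * I.2.length)) / 40 := by ring
  rw [h5]
  linarith

theorem compInst_spec {A : Type} [Finite A] [Inhabited A] (I : Inst A) (hb : Bdd I) :
    Bdd (compInst I) ∧ (compInst I).2.length = I.2.length * ((tests A).length * 4) ∧
      (Sat I → Sat (compInst I)) ∧ ∀ e : ℝ, 0 ≤ e → Gap e I → Gap (e / 960) (compInst I) := by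
  refine ⟨comp_bdd I hb, ?_, comp_sat I hb, comp_gap I⟩
  rw [comp_snd, List.length_flatMap]
  simp only [comp_blk_length, List.map_const', List.length_range, List.sum_replicate, smul_eq_mul]

end Pool.Agent.Lib.PCP
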