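import Pool.Agent.Lib.helper60.PTLib
import Pool.Agent.Lib.helper66.Tableau

/-!
# The PCP theorem: definitions

Binary constraint satisfaction problems over finite alphabets as data (`Inst`), regular constraint
graphs (`RG`), and the three steps of gap amplification: `prep` (degree reduction and
expanderisation), `powInst` (powering) and `compInst` (alphabet reduction), together with the
translations `startInst` from 3-CNF and `finalCl` to 3-CNF.
-/

set_option autoImplicit false

namespace Pool.Agent.Lib.PCP

open Pool.Agent.Lib.helper60

/-! ### finite types as data -/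

/-- function types between finite types are coded by natural numbers -/
noncomputable instance instDEncPi {α β : Type} [Finite α] [Finite β] : DEnc (α → β) :=
  ⟨fun f => toD ((Finite.equivFin (α → β) f : Fin _) : ℕ)⟩

instance instDEncFin {n : ℕ} : DEnc (Fin n) := ⟨fun i => toD (i : ℕ)⟩

/-- a type whose elements are coded by natural numbers below a bound -/
class FinCode (α : Type) [DEnc α] where
  idx : α → ℕ
  bound : ℕ
  idx_lt : ∀ a, idx a < bound
  idx_inj : Function.Injective idx
  code : ∀ a, toD a = toD (idx a)

/-- index of an element of a finite type -/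
noncomputable def cidx {α : Type} [Finite α] (a : α) : ℕ := (Finite.equivFin α a : Fin _)

/-! ### constraint satisfaction problems -/

/-- binary constraints over the alphabet `A` -/
abbrev Con (A : Type) := A → A → Bool

/-- an instance: a bound for the variables and the list of the constraints `(u, v, C)` -/
abbrev Inst (A : Type) := ℕ × List (ℕ × ℕ × Con A)

section inst

variable {A : Type}

/-- number of violated constraints -/
def viol (I : Inst A) (s : ℕ → A) : ℕ := I.2.countP (fun c => !(c.2.2 (s c.1) (s c.2.1)))

/-- some assignment satisfies all constraints -/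
def Sat (I : Inst A) : Prop := ∃ s : ℕ → A, ∀ c ∈ I.2, c.2.2 (s c.1) (s c.2.1) = true

/-- each assignment violates at least the proportion `e` of the constraints -/
def Gap (e : ℝ) (I : Inst A) : Prop := ∀ s : ℕ → A, e * I.2.length ≤ viol I s

/-- the variables are below the bound -/
def Bdd (I : Inst A) : Prop := ∀ c ∈ I.2, c.1 < I.1 ∧ c.2.1 < I.1

end inst

/-! ### regular constraint graphs -/

/-- A `d`-regular constraint graph: from the vertex `v` the port `i` leads to `nb i v`, and the
port `bk i` leads back. -/
structure RG (V : Type) (d : ℕ) (A : Type) where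
  nb : Fin d → V → V
  bk : Fin d → Fin d
  con : Fin d → V → A → A → Bool
  bk_bk : ∀ i, bk (bk i) = i
  nb_bk : ∀ i v, nb (bk i) (nb i v) = v
  con_bk : ∀ i v a b, con (bk i) (nb i v) b a = con i v a b

namespace RG

variable {V : Type} {d : ℕ} {A : Type} (G : RG V d A)

/-- number of pairs (vertex, port) whose constraint is violated -/
noncomputable def viol [Fintype V] (s : V → A) : ℕ :=
  (Finset.univ.filter
    (fun p : V × Fin d => G.con p.2 p.1 (s p.1) (s (G.nb p.2 p.1)) = false)).card

/-- satisfiability -/
def Sat : Prop := ∃ s : V → A, ∀ i v, G.con i v (s v) (s (G.nb i v)) = true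

/-- each assignment violates at least the proportion `e` of the constraints -/
def Gap [Fintype V] (e : ℝ) : Prop := ∀ s : V → A, e * (Fintype.card V * d) ≤ G.viol s

/-- spectral gap: the adjacency operator has norm at most `lam * d` on functions of sum zero -/
def Spec [Fintype V] (lam : ℝ) : Prop := ∀ f : V → ℝ, ∑ v, f v = 0 →
  ∑ v, (∑ i, f (G.nb i v)) ^ 2 ≤ (lam * d) ^ 2 * ∑ v, (f v) ^ 2

/-- end of the walk from `v` along the ports `l` -/
def wend (v : V) (l : List (Fin d)) : V := l.foldl (fun v i => G.nb i v) v

/-- the ports that lead back along a walk -/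
def rev (l : List (Fin d)) : List (Fin d) := (l.map G.bk).reverse

/-- The test of a walk: `a` and `b` are the opinions of its first and of its last vertex on the
vertices reached from them along lists of ports. -/
def Passes (a b : List (Fin d) → A) (v : V) (l : List (Fin d)) : Prop :=
  ∀ l1 i l2, l = l1 ++ i :: l2 → G.con i (G.wend v l1) (a l1) (b (G.rev l2)) = true

end RG

/-- all lists of `k` ports -/
def seqs (d : ℕ) : ℕ → List (List (Fin d))
  | 0 => [[]]
  | k + 1 => (List.finRange d).flatMap (fun i => (seqs d k).map (fun l => i :: l))

/-- the walks of the powering step: all initial parts (of positive length) of all walks of length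
`2 * h + 1`, each initial part as often as it can be extended -/
def walks (d h : ℕ) : List (List (Fin d)) :=
  (List.range (2 * h + 1)).flatMap (fun T => (seqs d (2 * h + 1)).map (fun s => s.take (T + 1)))

/-- the factor lost in the powering step -/
noncomputable def cpow (A : Type) (lam : ℝ) : ℝ :=
  1 / (8 * (Nat.card A : ℝ) ^ 4 * (3 + 2 / (1 - lam)))

/-! ### the expander of Margulis, Gabber and Galil, on `{0, …, m*m-1}` -/

/-- The eight neighbours of `p = a * m + b`, for `(a, b)` in `ZMod m × ZMod m`: the images of
`(a, b)` under `(a+2b, b)`, `(a-2b, b)`, `(a, b+2a)`, `(a, b-2a)`, `(a+2b+1, b)`, `(a-2b-1, b)`,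
`(a, b+2a+1)`, `(a, b-2a-1)`. -/
def mgg (m p : ℕ) (i : Fin 8) : ℕ :=
  let a := p / m
  let b := p % m
  match i with
  | 0 => ((a + 2 * b) % m) * m + b
  | 1 => ((a + 2 * (m - b)) % m) * m + b
  | 2 => a * m + (b + 2 * a) % m
  | 3 => a * m + (b + 2 * (m - a)) % m
  | 4 => ((a + 2 * b + 1) % m) * m + b
  | 5 => ((a + 2 * (m - b) + (m - 1)) % m) * m + b
  | 6 => a * m + (b + 2 * a + 1) % m
  | 7 => a * m + (b + 2 * (m - a) + (m - 1)) % m

/-- the port that leads back -/
def bk8 : Fin 8 → Fin 8 := ![1, 0, 3, 2, 5, 4, 7, 6]

/-! ### degree reduction and expanderisation -/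

/-- ports of the prepared graph: `0..7` the expander of the cloud, `8` the constraint, `9..16` the
global expander -/
def bk17 : Fin 17 → Fin 17 := ![1, 0, 3, 2, 5, 4, 7, 6, 8, 10, 9, 12, 11, 14, 13, 16, 15]

/-- least `s` with `k ≤ s * s` -/
def sqs (k : ℕ) : ℕ := ((List.range (k + 1)).filter (fun s => decide (k ≤ s * s))).headD 0

section prep

variable {A : Type}

/-- the constraint with number `j` -/
def cst (I : Inst A) (j : ℕ) : ℕ × ℕ × Con A := I.2.getD j (0, 0, fun _ _ => true)

/-- `e / 2` and `e % 2` by iteration -/
def half (e : ℕ) : ℕ × Bool := (fun s : ℕ × Bool => if s.2 then (s.1 + 1, false) else (s.1, true))^[e] (0, false)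

/-- the variable in the slot `e`: the slots `2j` and `2j+1` belong to the constraint `j` -/
def slotVar (I : Inst A) (e : ℕ) : ℕ :=
  bif (half e).2 then (cst I (half e).1).2.1 else (cst I (half e).1).1

/-- the constraint of the slot `e`, read from this slot -/
def slotCon (I : Inst A) (e : ℕ) : Con A :=
  bif (half e).2 then (fun a b => (cst I (half e).1).2.2 b a) else (cst I (half e).1).2.2

/-- the other slot of the same constraint -/
def mate (e : ℕ) : ℕ := bif (half e).2 then e - 1 else e + 1

/-- the slots of the variable `x` -/
def occ (I : Inst A) (x : ℕ) : List ℕ :=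
  (List.range (2 * I.2.length)).filter (fun e => decide (slotVar I e = x))

/-- number of earlier slots of the same variable -/
def rank (I : Inst A) (e : ℕ) : ℕ :=
  ((List.range e).filter (fun e' => decide (slotVar I e' = slotVar I e))).length

/-- side of the cloud of `x`; the cloud has `csz I x * csz I x` vertices -/
def csz (I : Inst A) (x : ℕ) : ℕ := sqs (occ I x).length

/-- number of the first vertex of the cloud of `x` -/
def base (I : Inst A) (x : ℕ) : ℕ := ((List.range x).map (fun y => csz I y * csz I y)).sum

/-- the vertices of the clouds: the vertex with number `base I x + p` is `(x, p)` -/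
def names (I : Inst A) : List (ℕ × ℕ) :=
  (List.range I.1).flatMap (fun x => (List.range (csz I x * csz I x)).map (fun p => (x, p)))

/-- side of the whole graph -/
def side (I : Inst A) : ℕ := sqs (base I I.1)

/-- The neighbour and the constraint at port `i` of vertex `v`. -/
noncomputable def pent [DecidableEq A] (I : Inst A) (i : Fin 17) (v : ℕ) : ℕ × Con A :=
  if h : 9 ≤ i.val then
    (mgg (side I) v ⟨i.val - 9, by omega⟩, fun _ _ => true)
  else if base I I.1 ≤ v then (v, fun _ _ => true)
  else
    let x := ((names I).getD v (0, 0)).1
    let p := ((names I).getD v (0, 0)).2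
    if h8 : i.val < 8 then
      (base I x + mgg (csz I x) p ⟨i.val, h8⟩, fun a b => decide (a = b))
    else if (occ I x).length ≤ p then (v, fun _ _ => true)
    else
      let e := (occ I x).getD p 0
      (base I (slotVar I (mate e)) + rank I (mate e), slotCon I e)

/-- data of a `d`-regular constraint graph on `{0, …, n-1}`: the number of vertices, and the list
whose entry at position `v * d + i` is the neighbour and the constraint at port `i` of `v` -/
abbrev GData (A : Type) := ℕ × List (ℕ × Con A)

/-- degree reduction and expanderisation -/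
noncomputable def prep [DecidableEq A] (I : Inst A) : GData A :=
  (side I * side I,
    (List.range (side I * side I)).flatMap (fun v => (List.finRange 17).map (fun i => pent I i v)))

/-- the data `x` describe the graph `G` -/
def Repr {n d : ℕ} (x : GData A) (G : RG (Fin n) d A) : Prop :=
  x.1 = n ∧ ∀ (v : Fin n) (i : Fin d), x.2[v.val * d + i.val]? = some ((G.nb i v).val, G.con i v)

end prep

/-! ### powering -/

/-- opinions on the vertices reached by at most `B` steps -/
abbrev Op (d B : ℕ) (A : Type) := {l : List (Fin d) // l.length ≤ B} → A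

instance instFinitePorts {d B : ℕ} : Finite {l : List (Fin d) // l.length ≤ B} :=
  (List.finite_length_le (Fin d) B).to_subtype

section pow

variable {A : Type} [Inhabited A] {d B : ℕ}

/-- value of an opinion -/
def opv (o : Op d B A) (l : List (Fin d)) : A := if h : l.length ≤ B then o ⟨l, h⟩ else default

/-- entry of the table of a graph -/
def ent (d : ℕ) (tab : List (ℕ × Con A)) (v : ℕ) (i : Fin d) : ℕ × Con A :=
  tab.getD (v * d + i.val) (0, fun _ _ => true)

/-- end of a walk -/
def wendL (tab : List (ℕ × Con A)) (v : ℕ) (l : List (Fin d)) : ℕ :=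
  l.foldl (fun v i => (ent d tab v i).1) v

/-- the constraint of a walk, `pre` being the part of the walk already done -/
def wcon (bk : Fin d → Fin d) (tab : List (ℕ × Con A)) :
    ℕ → List (Fin d) → List (Fin d) → Con (Op d B A)
  | _, _, [] => fun _ _ => true
  | v, pre, i :: l => fun o₁ o₂ =>
      (ent d tab v i).2 (opv o₁ pre) (opv o₂ ((l.map bk).reverse)) &&
        wcon bk tab (ent d tab v i).1 (pre ++ [i]) l o₁ o₂

/-- the powering step -/
def powInst (bk : Fin d → Fin d) (h : ℕ) (x : GData A) : Inst (Op d (2 * h + 1) A) :=
  (x.1, (List.range x.1).flatMap (fun v => (walks d h).map (fun l =>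
    (v, wendL x.2 v l, wcon bk x.2 v [] l))))

end pow

/-! ### alphabet reduction -/

/-- the alphabet of the reduced instances -/
abbrev A0 := Fin 4 → Bool

section comp

variable (A : Type)

/-- positions in the tables of one constraint: the tables of the two variables and the table of the
constraint -/
abbrev Loc := (A → Bool) ⊕ (A → Bool) ⊕ (A × A → Bool)

/-- random choices of a test -/
abbrev Rnd := (A × A → Bool) × (A × A → Bool) × (A × A → Bool) × (A → Bool)

variable {A}

/-- The positions queried by the test `k` for the constraint `C` with random choices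
`r = (f, g, h, t)`; tests with fewer than four queries repeat one. -/
def qry (C : Con A) (r : Rnd A) (k : Fin 6) : Fin 4 → Loc A :=
  let f := r.1
  let g := r.2.1
  let h := r.2.2.1
  let t := r.2.2.2
  match k with
  | 0 => ![.inr (.inr f), .inr (.inr g), .inr (.inr (fun x => xor (f x) (g x))), .inr (.inr f)]
  | 1 => ![.inr (.inr f), .inr (.inr g), .inr (.inr (fun x => xor (f x && g x) (h x))),
      .inr (.inr h)]
  | 2 => ![.inr (.inr f), .inr (.inr (fun x => !(f x))), .inr (.inr f), .inr (.inr f)]
  | 3 => ![.inr (.inr f), .inr (.inr (fun x => xor (f x) (!(C x.1 x.2)))), .inr (.inr f),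
      .inr (.inr f)]
  | 4 => ![.inr (.inr (fun x => xor (t x.1) (h x))), .inr (.inr h), .inl t, .inl t]
  | 5 => ![.inr (.inr (fun x => xor (t x.2) (h x))), .inr (.inr h), .inr (.inl t), .inr (.inl t)]

/-- the predicates of the six tests -/
def prd (k : Fin 6) (y : A0) : Bool :=
  match k with
  | 0 => !(xor (xor (y 0) (y 1)) (y 2))
  | 1 => (y 0 && y 1) == xor (y 2) (y 3)
  | 2 => xor (y 0) (y 1)
  | 3 => y 0 == y 1
  | 4 => xor (y 0) (y 1) == y 2
  | 5 => xor (y 0) (y 1) == y 2

/-- the binary constraint between a test and its query `i` -/
def qcon (k : Fin 6) (i : Fin 4) : Con A0 := fun a b => prd k a && (a i == b 0)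

/-- all pairs (random choices, test) -/
noncomputable def tests (A : Type) [Finite A] : List (Rnd A × Fin 6) :=
  letI := Fintype.ofFinite (Rnd A × Fin 6)
  Finset.univ.toList

/-- number of the variable for the position `q` of the tables of the constraint `j = (u, v, C)` -/
noncomputable def vid [Finite A] (n u v j : ℕ) (q : Loc A) : ℕ :=
  match q with
  | .inl t => u * Nat.card (A → Bool) + cidx t
  | .inr (.inl t) => v * Nat.card (A → Bool) + cidx t
  | .inr (.inr g) => n * Nat.card (A → Bool) + (j * Nat.card (A × A → Bool) + cidx g)

/-- the alphabet reduction -/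
noncomputable def compInst [Finite A] (I : Inst A) : Inst A0 :=
  (I.1 * Nat.card (A → Bool) + (I.2.length * Nat.card (A × A → Bool) +
      I.2.length * (tests A).length),
    (List.range I.2.length).flatMap (fun j => (tests A).zipIdx.flatMap (fun q =>
      (List.finRange 4).map (fun i =>
        (I.1 * Nat.card (A → Bool) + (I.2.length * Nat.card (A × A → Bool) +
            (j * (tests A).length + q.2)),
          vid I.1 (cst I j).1 (cst I j).2.1 j (qry (cst I j).2.2 q.1.1 q.1.2 i),
          qcon q.1.2 i)))))

end comp

/-! ### from and to 3-CNF -/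

open Pool.Agent.H66 (Cl)

/-- literals are evaluated -/
def litB (t : ℕ → Bool) (l : Bool × ℕ) : Bool := t l.2 == l.1

/-- clauses are evaluated -/
def clB (t : ℕ → Bool) (c : Cl) : Bool := litB t c.1 || litB t c.2.1 || litB t c.2.2

/-- the constraint between a clause variable (three truth values) and its variable at place `i` -/
def clCon (s : Bool × Bool × Bool) (i : Fin 3) : Con A0 := fun a b =>
  ((a 0 == s.1) || (a 1 == s.2.1) || (a 2 == s.2.2)) &&
    (a ⟨i.val, by omega⟩ == b 0)

/-- bound for the variables of a formula -/
def vbd (φ : List Cl) : ℕ := (φ.map (fun c => c.1.2 + c.2.1.2 + c.2.2.2 + 1)).sum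

/-- from formulas to constraint satisfaction problems: the variable `x` becomes `2 x`, and the
clause with number `j` becomes the variable `2 j + 1` -/
def startInst (φ : List Cl) : Inst A0 :=
  (2 * (vbd φ + φ.length) + 2,
    (List.range φ.length).flatMap (fun j =>
      let c := φ.getD j ((true, 0), (true, 0), (true, 0))
      let s := (c.1.1, c.2.1.1, c.2.2.1)
      [(2 * j + 1, 2 * c.1.2, clCon s 0), (2 * j + 1, 2 * c.2.1.2, clCon s 1),
        (2 * j + 1, 2 * c.2.2.2, clCon s 2)]))

/-- all pairs of letters -/
noncomputable def allPairs : List (A0 × A0) := Finset.univ.toList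

/-- Clauses for the constraint `j = (u, v, C)` that exclude the pair `p`: the letter of `u` has the
bits `4 u, …, 4 u + 3`; `z` is the first of five new variables. -/
noncomputable def exclude (C : Con A0) (p : A0 × A0) (u v z : ℕ) : List Cl :=
  bif C p.1 p.2 then
    List.replicate 6 ((true, 0), (false, 0), (true, 0))
  else
    [((!(p.1 0), 4 * u), (!(p.1 1), 4 * u + 1), (true, z)),
      ((false, z), (!(p.1 2), 4 * u + 2), (true, z + 1)),
      ((false, z + 1), (!(p.1 3), 4 * u + 3), (true, z + 2)),
      ((false, z + 2), (!(p.2 0), 4 * v), (true, z + 3)),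
      ((false, z + 3), (!(p.2 1), 4 * v + 1), (true, z + 4)),
      ((false, z + 4), (!(p.2 2), 4 * v + 2), (!(p.2 3), 4 * v + 3))]

/-- from constraint satisfaction problems over the alphabet `A0` to formulas -/
noncomputable def finalCl (I : Inst A0) : List Cl :=
  (List.range I.2.length).flatMap (fun j => allPairs.zipIdx.flatMap (fun p =>
    exclude (cst I j).2.2 p.1 (cst I j).1 (cst I j).2.1
      (4 * I.1 + 5 * (j * allPairs.length + p.2))))

/-! ### the whole reduction -/

/-- one round of gap amplification -/
noncomputable def round (h : ℕ) (I : Inst A0) : Inst A0 :=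
  compInst (powInst bk17 h (prep I))

/-- number of rounds: the least `k` with `m ≤ 2 ^ k`, by iteration -/
def rounds (m : ℕ) : ℕ :=
  ((fun s : ℕ × ℕ => if s.2 < m then (s.1 + 1, 2 * s.2) else s)^[m] (0, 1)).1

/-- the reduction of the PCP theorem -/
noncomputable def pcpMap (h : ℕ) (φ : List Cl) : List Cl :=
  finalCl ((round h)^[rounds (startInst (((true, 0), (false, 0), (true, 0)) :: φ)).2.length]
    (startInst (((true, 0), (false, 0), (true, 0)) :: φ)))

end Pool.Agent.Lib.PCP
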