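import Pool.Agent.Lib.PCP.Defs

/-!
# The PCP theorem: from and to 3-CNF
-/

set_option autoImplicit false

namespace Pool.Agent.Lib.PCP

open Pool.Agent.Lib.helper60
open Pool.Agent.H66 (Cl Sat3)
open Finset (range)

/-! ### auxiliary facts on lists and clauses -/

theorem endE_clB_iff (t : ℕ → Bool) (c : Cl) : clB t c = true ↔ Pool.Agent.H66.ClSat t c := by
  simp [clB, litB, Pool.Agent.H66.ClSat, Pool.Agent.H66.LitSat, or_assoc]

theorem endE_cst_lt {A : Type} (I : Inst A) (j : ℕ) (h : j < I.2.length) :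
    cst I j = I.2[j] := by
  simp [cst, h]

theorem endE_cst_mem {A : Type} (I : Inst A) (j : ℕ) (h : j < I.2.length) :
    cst I j ∈ I.2 := by
  rw [endE_cst_lt I j h]; exact List.getElem_mem h

theorem endE_map_cst {A : Type} (I : Inst A) :
    (List.range I.2.length).map (cst I) = I.2 := by
  apply List.ext_getElem
  · simp
  · intro i h1 h2
    simp [cst, h2]

theorem endE_viol_eq {A : Type} (I : Inst A) (s : ℕ → A) :
    viol I s = ((List.range I.2.length).map (fun j =>
      if (cst I j).2.2 (s (cst I j).1) (s (cst I j).2.1) = false then 1 else 0)).sum := by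
  unfold viol
  conv_lhs => rw [← endE_map_cst I]
  rw [List.countP_map]
  generalize List.range I.2.length = l
  induction l with
  | nil => simp
  | cons a l ih =>
    rw [List.countP_cons, List.map_cons, List.sum_cons, ih, add_comm]
    congr 1
    simp

/-! ### from 3-CNF -/

theorem endE_vbd_lt (φ : List Cl) (c : Cl) (h : c ∈ φ) :
    c.1.2 + c.2.1.2 + c.2.2.2 + 1 ≤ vbd φ := by
  unfold vbd
  apply List.le_sum_of_mem
  exact List.mem_map.2 ⟨c, h, rfl⟩

theorem endE_mem_start (φ : List Cl) (q : ℕ × ℕ × Con A0) :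
    q ∈ (startInst φ).2 ↔ ∃ j, ∃ h : j < φ.length,
      (q = (2 * j + 1, 2 * (φ[j]).1.2, clCon ((φ[j]).1.1, (φ[j]).2.1.1, (φ[j]).2.2.1) 0) ∨
       q = (2 * j + 1, 2 * (φ[j]).2.1.2, clCon ((φ[j]).1.1, (φ[j]).2.1.1, (φ[j]).2.2.1) 1) ∨
       q = (2 * j + 1, 2 * (φ[j]).2.2.2, clCon ((φ[j]).1.1, (φ[j]).2.1.1, (φ[j]).2.2.1) 2)) := by
  unfold startInst
  simp only [List.mem_flatMap, List.mem_range]
  constructor
  · rintro ⟨j, hj, hq⟩
    refine ⟨j, hj, ?_⟩
    simpa [hj] using hq
  · rintro ⟨j, hj, hq⟩
    refine ⟨j, hj, ?_⟩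
    simpa [hj] using hq

theorem startInst_spec (φ : List Cl) :
    Bdd (startInst φ) ∧ (startInst φ).2.length = 3 * φ.length ∧ (Sat3 φ → Sat (startInst φ)) ∧
      (¬ Sat3 φ → ∀ s, 1 ≤ viol (startInst φ) s) := by
  refine ⟨?_, ?_, ?_, ?_⟩
  · intro q hq
    obtain ⟨j, hj, h⟩ := (endE_mem_start φ q).1 hq
    have hb := endE_vbd_lt φ (φ[j]) (List.getElem_mem hj)
    have h1 : (startInst φ).1 = 2 * (vbd φ + φ.length) + 2 := rfl
    rcases h with h | h | h <;> subst h <;> rw [h1] <;> constructor <;> dsimp only <;> omega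
  · unfold startInst
    simp only [List.length_flatMap]
    simp [mul_comm]
  · rintro ⟨t, ht⟩
    let s : ℕ → A0 := fun n => if n % 2 = 0 then (fun _ => t (n / 2)) else
      (let c := φ.getD (n / 2) ((true, 0), (true, 0), (true, 0))
       ![t c.1.2, t c.2.1.2, t c.2.2.2, false])
    have hs0 : ∀ x, s (2 * x) = fun _ => t x := by
      intro x
      simp [s]
    have hs1 : ∀ j (hj : j < φ.length), s (2 * j + 1) =
        ![t (φ[j]).1.2, t (φ[j]).2.1.2, t (φ[j]).2.2.2, false] := by
      intro j hj
      have h1 : (2 * j + 1) % 2 = 1 := by omega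
      have h2 : (2 * j + 1) / 2 = j := by omega
      simp [s, h1, h2, hj]
    refine ⟨s, ?_⟩
    intro q hq
    obtain ⟨j, hj, h⟩ := (endE_mem_start φ q).1 hq
    have hc := (endE_clB_iff t _).2 (ht (φ[j]) (List.getElem_mem hj))
    have hc' : ((t (φ[j]).1.2 == (φ[j]).1.1) || (t (φ[j]).2.1.2 == (φ[j]).2.1.1) ||
        (t (φ[j]).2.2.2 == (φ[j]).2.2.1)) = true := hc
    rcases h with h | h | h <;> subst h <;> dsimp only <;> rw [hs1 j hj, hs0] <;>
      simp only [clCon] <;> rw [Bool.and_eq_true] <;> refine ⟨hc', ?_⟩ <;> simp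
  · intro hn s
    by_contra hlt
    apply hn
    have h0 : viol (startInst φ) s = 0 := by omega
    unfold viol at h0
    rw [List.countP_eq_zero] at h0
    refine ⟨fun x => s (2 * x) 0, ?_⟩
    intro c hc
    obtain ⟨j, hj, rfl⟩ := List.getElem_of_mem hc
    have e0 := h0 _ ((endE_mem_start φ _).2 ⟨j, hj, Or.inl rfl⟩)
    have e1 := h0 _ ((endE_mem_start φ _).2 ⟨j, hj, Or.inr (Or.inl rfl)⟩)
    have e2 := h0 _ ((endE_mem_start φ _).2 ⟨j, hj, Or.inr (Or.inr rfl)⟩)
    simp only [clCon, Bool.not_eq_true', Bool.not_eq_false] at e0 e1 e2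
    rw [Bool.and_eq_true] at e0 e1 e2
    rw [← endE_clB_iff]
    unfold clB litB
    have f0 : s (2 * j + 1) 0 = s (2 * (φ[j]).1.2) 0 := by
      have := e0.2; simpa using this
    have f1 : s (2 * j + 1) 1 = s (2 * (φ[j]).2.1.2) 0 := by
      have := e1.2; simpa using this
    have f2 : s (2 * j + 1) 2 = s (2 * (φ[j]).2.2.2) 0 := by
      have := e2.2; simpa using this
    dsimp only
    rw [← f0, ← f1, ← f2]
    exact e0.1

/-! ### to 3-CNF -/

theorem endE_exclude_length (C : Con A0) (p : A0 × A0) (u v z : ℕ) :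
    (exclude C p u v z).length = 6 := by
  unfold exclude
  cases C p.1 p.2 <;> simp

theorem endE_allPairs_length : allPairs.length = 256 := by
  unfold allPairs
  rw [Finset.length_toList, Finset.card_univ, Fintype.card_prod, Fintype.card_fun]
  simp

theorem endE_mem_allPairs (p : A0 × A0) : p ∈ allPairs := by
  unfold allPairs
  rw [Finset.mem_toList]
  exact Finset.mem_univ p

/-- the literals that exclude the pair `p`, evaluated at the pair of letters `a`, `b` -/
def endE_lit (p : A0 × A0) (a b : A0) : ℕ → Bool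
  | 0 => a 0 == !(p.1 0)
  | 1 => a 1 == !(p.1 1)
  | 2 => a 2 == !(p.1 2)
  | 3 => a 3 == !(p.1 3)
  | 4 => b 0 == !(p.2 0)
  | 5 => b 1 == !(p.2 1)
  | 6 => b 2 == !(p.2 2)
  | _ => b 3 == !(p.2 3)

/-- values of the five new variables -/
def endE_new (p : A0 × A0) (a b : A0) (r : ℕ) : Bool :=
  (List.range (r + 2)).all (fun i => !(endE_lit p a b i))

theorem endE_bool_aux (x y : Bool) : (x == !y) = false ↔ x = y := by
  cases x <;> cases y <;> simp

theorem endE_lit_all (p : A0 × A0) (a b : A0) (h : ∀ i < 8, endE_lit p a b i = false) :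
    a = p.1 ∧ b = p.2 := by
  have h0 := h 0 (by omega)
  have h1 := h 1 (by omega)
  have h2 := h 2 (by omega)
  have h3 := h 3 (by omega)
  have h4 := h 4 (by omega)
  have h5 := h 5 (by omega)
  have h6 := h 6 (by omega)
  have h7 := h 7 (by omega)
  simp only [endE_lit, endE_bool_aux] at h0 h1 h2 h3 h4 h5 h6 h7
  constructor
  · funext i
    fin_cases i
    · exact h0
    · exact h1
    · exact h2
    · exact h3
  · funext i
    fin_cases i
    · exact h4
    · exact h5
    · exact h6
    · exact h7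

/-- completeness of the clauses of one pair -/
theorem endE_exclude_sat (C : Con A0) (p : A0 × A0) (u v z : ℕ) (t : ℕ → Bool) (a b : A0)
    (hC : C a b = true)
    (ha : ∀ i : Fin 4, t (4 * u + i.val) = a i) (hb : ∀ i : Fin 4, t (4 * v + i.val) = b i)
    (hz : ∀ r < 5, t (z + r) = endE_new p a b r) :
    ∀ c ∈ exclude C p u v z, clB t c = true := by
  intro c hc
  unfold exclude at hc
  cases hp : C p.1 p.2 with
  | true =>
    rw [hp] at hc
    simp only [cond_true] at hc
    have := List.eq_of_mem_replicate hc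
    subst this
    simp [clB, litB]
  | false =>
    rw [hp] at hc
    simp only [cond_false] at hc
    have ha0 : t (4 * u) = a 0 := by simpa using ha 0
    have ha1 : t (4 * u + 1) = a 1 := by simpa using ha 1
    have ha2 : t (4 * u + 2) = a 2 := by simpa using ha 2
    have ha3 : t (4 * u + 3) = a 3 := by simpa using ha 3
    have hb0 : t (4 * v) = b 0 := by simpa using hb 0
    have hb1 : t (4 * v + 1) = b 1 := by simpa using hb 1
    have hb2 : t (4 * v + 2) = b 2 := by simpa using hb 2
    have hb3 : t (4 * v + 3) = b 3 := by simpa using hb 3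
    have z0 : t z = endE_new p a b 0 := by simpa using hz 0 (by omega)
    have z1 := hz 1 (by omega)
    have z2 := hz 2 (by omega)
    have z3 := hz 3 (by omega)
    have z4 := hz 4 (by omega)
    have hne : ¬ ∀ i < 8, endE_lit p a b i = false := by
      intro h
      obtain ⟨h1, h2⟩ := endE_lit_all p a b h
      rw [← h1, ← h2, hC] at hp
      exact Bool.noConfusion hp
    have hne' : (endE_lit p a b 0 || endE_lit p a b 1 || endE_lit p a b 2 || endE_lit p a b 3 ||
        endE_lit p a b 4 || endE_lit p a b 5 || endE_lit p a b 6 || endE_lit p a b 7) = true := by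
      by_contra hcon
      apply hne
      simp only [Bool.not_eq_true, Bool.or_eq_false_iff] at hcon
      obtain ⟨⟨⟨⟨⟨⟨⟨k0, k1⟩, k2⟩, k3⟩, k4⟩, k5⟩, k6⟩, k7⟩ := hcon
      intro i hi
      interval_cases i <;> assumption
    have e : ∀ r, endE_new p a b r = (List.range (r + 2)).all (fun i => !(endE_lit p a b i)) :=
      fun r => rfl
    have l0 : (a 0 == !(p.1 0)) = endE_lit p a b 0 := rfl
    have l1 : (a 1 == !(p.1 1)) = endE_lit p a b 1 := rfl
    have l2 : (a 2 == !(p.1 2)) = endE_lit p a b 2 := rfl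
    have l3 : (a 3 == !(p.1 3)) = endE_lit p a b 3 := rfl
    have l4 : (b 0 == !(p.2 0)) = endE_lit p a b 4 := rfl
    have l5 : (b 1 == !(p.2 1)) = endE_lit p a b 5 := rfl
    have l6 : (b 2 == !(p.2 2)) = endE_lit p a b 6 := rfl
    have l7 : (b 3 == !(p.2 3)) = endE_lit p a b 7 := rfl
    simp only [List.mem_cons, List.not_mem_nil, or_false] at hc
    rcases hc with rfl | rfl | rfl | rfl | rfl | rfl
    all_goals
      simp only [clB, litB, ha0, ha1, ha2, ha3, hb0, hb1, hb2, hb3, z0, z1, z2, z3, z4, l0, l1, l2,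
        l3, l4, l5, l6, l7, e, List.range_succ, List.range_zero, List.nil_append,
        List.all_append, List.all_cons, List.all_nil, Bool.and_true]
      revert hne'
      generalize endE_lit p a b 0 = x0
      generalize endE_lit p a b 1 = x1
      generalize endE_lit p a b 2 = x2
      generalize endE_lit p a b 3 = x3
      generalize endE_lit p a b 4 = x4
      generalize endE_lit p a b 5 = x5
      generalize endE_lit p a b 6 = x6
      generalize endE_lit p a b 7 = x7
      cases x0 <;> cases x1 <;> cases x2 <;> cases x3 <;> cases x4 <;> cases x5 <;> cases x6 <;>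
        cases x7 <;> simp

/-- soundness of the clauses of one pair -/
theorem endE_exclude_unsat (C : Con A0) (p : A0 × A0) (u v z : ℕ) (t : ℕ → Bool)
    (hC : C p.1 p.2 = false)
    (ha : ∀ i : Fin 4, t (4 * u + i.val) = p.1 i) (hb : ∀ i : Fin 4, t (4 * v + i.val) = p.2 i) :
    1 ≤ (exclude C p u v z).countP (fun c => !clB t c) := by
  by_contra hlt
  have h0 : (exclude C p u v z).countP (fun c => !clB t c) = 0 := by omega
  rw [List.countP_eq_zero] at h0
  unfold exclude at h0
  rw [hC] at h0
  simp only [cond_false] at h0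
  have ha0 : t (4 * u) = p.1 0 := by simpa using ha 0
  have ha1 : t (4 * u + 1) = p.1 1 := by simpa using ha 1
  have ha2 : t (4 * u + 2) = p.1 2 := by simpa using ha 2
  have ha3 : t (4 * u + 3) = p.1 3 := by simpa using ha 3
  have hb0 : t (4 * v) = p.2 0 := by simpa using hb 0
  have hb1 : t (4 * v + 1) = p.2 1 := by simpa using hb 1
  have hb2 : t (4 * v + 2) = p.2 2 := by simpa using hb 2
  have hb3 : t (4 * v + 3) = p.2 3 := by simpa using hb 3
  simp only [List.mem_cons, List.not_mem_nil, or_false, forall_eq_or_imp, forall_eq, clB, litB,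
    ha0, ha1, ha2, ha3, hb0, hb1, hb2, hb3, Bool.not_eq_true', Bool.not_eq_false] at h0
  have nb : ∀ x : Bool, (x == !x) = false := by intro x; cases x <;> rfl
  simp only [nb, Bool.false_or, Bool.or_false, beq_true, beq_iff_eq] at h0
  obtain ⟨c1, c2, c3, c4, c5, c6⟩ := h0
  simp_all

theorem endE_zipIdx_mem {α : Type} (l : List α) (q : α × ℕ) (h : q ∈ l.zipIdx) :
    ∃ hi : q.2 < l.length, l[q.2] = q.1 := by
  have := List.mem_zipIdx h
  refine ⟨by omega, ?_⟩
  obtain ⟨_, _, h3⟩ := this
  simpa using h3.symm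

theorem endE_finalCl_length (I : Inst A0) : (finalCl I).length = I.2.length * 1536 := by
  unfold finalCl
  simp only [List.length_flatMap, endE_exclude_length]
  rw [List.map_const', List.map_const', List.sum_replicate, List.sum_replicate,
    List.length_zipIdx, endE_allPairs_length, List.length_range]
  norm_num

theorem finalCl_spec (I : Inst A0) (hb : Bdd I) :
    (finalCl I).length = I.2.length * 1536 ∧ (Sat I → Sat3 (finalCl I)) ∧
      ∀ e : ℝ, 0 ≤ e → Gap e I → ∀ t : ℕ → Bool,
        e / 1536 * (finalCl I).length ≤ (((finalCl I).countP (fun c => !clB t c) : ℕ) : ℝ) := by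
  refine ⟨endE_finalCl_length I, ?_, ?_⟩
  · rintro ⟨s, hs⟩
    let t : ℕ → Bool := fun k =>
      if k < 4 * I.1 then s (k / 4) ⟨k % 4, Nat.mod_lt _ (by norm_num)⟩ else
        let m := (k - 4 * I.1) / 5
        let r := (k - 4 * I.1) % 5
        let c := cst I (m / 256)
        endE_new (allPairs.getD (m % 256) (fun _ => true, fun _ => true)) (s c.1) (s c.2.1) r
    have ht1 : ∀ u < I.1, ∀ i : Fin 4, t (4 * u + i.val) = s u i := by
      intro u hu i
      have h1 : 4 * u + i.val < 4 * I.1 := by have := i.isLt; omega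
      have h2 : (4 * u + i.val) / 4 = u := by have := i.isLt; omega
      have h3 : (4 * u + i.val) % 4 = i.val := by have := i.isLt; omega
      simp only [t, h1, if_true, h2, h3]
    have ht2 : ∀ j (q : (A0 × A0) × ℕ), q ∈ allPairs.zipIdx → ∀ r < 5,
        t (4 * I.1 + 5 * (j * allPairs.length + q.2) + r) =
          endE_new q.1 (s (cst I j).1) (s (cst I j).2.1) r := by
      intro j q hq r hr
      obtain ⟨hi, he⟩ := endE_zipIdx_mem _ _ hq
      rw [endE_allPairs_length] at hi ⊢
      have h1 : ¬ (4 * I.1 + 5 * (j * 256 + q.2) + r < 4 * I.1) := by omega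
      have h2 : (4 * I.1 + 5 * (j * 256 + q.2) + r - 4 * I.1) / 5 = j * 256 + q.2 := by omega
      have h3 : (4 * I.1 + 5 * (j * 256 + q.2) + r - 4 * I.1) % 5 = r := by omega
      have h4 : (j * 256 + q.2) / 256 = j := by omega
      have h5 : (j * 256 + q.2) % 256 = q.2 := by omega
      have h6 : allPairs.getD q.2 (fun _ => true, fun _ => true) = q.1 := by
        rw [List.getD_eq_getElem _ _ (by rw [endE_allPairs_length]; exact hi)]
        exact he
      simp only [t, h1, if_false, h2, h3, h4, h5, h6]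
    refine ⟨t, ?_⟩
    intro c hc
    rw [← endE_clB_iff]
    unfold finalCl at hc
    simp only [List.mem_flatMap, List.mem_range] at hc
    obtain ⟨j, hj, q, hq, hc⟩ := hc
    have hm := endE_cst_mem I j hj
    obtain ⟨b1, b2⟩ := hb _ hm
    exact endE_exclude_sat _ _ _ _ _ t (s (cst I j).1) (s (cst I j).2.1) (hs _ hm)
      (ht1 _ b1) (ht1 _ b2) (ht2 j q hq) c hc
  · intro e he hg t
    let s : ℕ → A0 := fun u i => t (4 * u + i.val)
    have h1 : viol I s ≤ (finalCl I).countP (fun c => !clB t c) := by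
      rw [endE_viol_eq]
      unfold finalCl
      rw [List.countP_flatMap]
      apply List.sum_le_sum
      intro j hj
      dsimp only [Function.comp]
      split_ifs with h
      · obtain ⟨k, hk, hke⟩ := List.getElem_of_mem
          (endE_mem_allPairs (s (cst I j).1, s (cst I j).2.1))
        rw [List.countP_flatMap]
        have hmem : ((s (cst I j).1, s (cst I j).2.1), k) ∈ allPairs.zipIdx := by
          rw [List.mem_iff_getElem]
          refine ⟨k, by simpa using hk, ?_⟩
          rw [List.getElem_zipIdx]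
          simp [hke]
        refine le_trans ?_ (List.le_sum_of_mem (List.mem_map.2 ⟨_, hmem, rfl⟩))
        dsimp only [Function.comp]
        exact endE_exclude_unsat _ _ _ _ _ t h (fun i => rfl) (fun i => rfl)
      · exact Nat.zero_le _
    have h2 := hg s
    rw [endE_finalCl_length]
    push_cast
    have h3 : e / 1536 * ((I.2.length : ℝ) * 1536) = e * I.2.length := by ring
    rw [h3]
    refine h2.trans ?_
    exact_mod_cast h1

theorem rounds_spec (m : ℕ) : m ≤ 2 ^ rounds m ∧ 2 ^ rounds m ≤ 2 * m + 1 := by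
  have key : ∀ n, ∀ f : ℕ × ℕ → ℕ × ℕ, f = (fun s : ℕ × ℕ => if s.2 < m then (s.1 + 1, 2 * s.2)
      else s) → (f^[n] (0, 1)).2 = 2 ^ (f^[n] (0, 1)).1 ∧ (f^[n] (0, 1)).2 ≤ 2 * m + 1 ∧
        ((f^[n] (0, 1)).1 = n ∨ m ≤ (f^[n] (0, 1)).2) := by
    intro n f hf
    induction n with
    | zero => simp
    | succ n ih =>
      obtain ⟨i1, i2, i3⟩ := ih
      rw [Function.iterate_succ', Function.comp]
      generalize f^[n] (0, 1) = s at i1 i2 i3 ⊢
      rw [hf]
      dsimp only
      split_ifs with h
      · refine ⟨?_, ?_, ?_⟩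
        · dsimp only; rw [i1, pow_succ]; ring
        · dsimp only; omega
        · left
          dsimp only
          rcases i3 with i3 | i3
          · omega
          · omega
      · exact ⟨i1, i2, Or.inr (by omega)⟩
  obtain ⟨k1, k2, k3⟩ := key m _ rfl
  unfold rounds
  rw [← k1]
  refine ⟨?_, k2⟩
  rcases k3 with k3 | k3
  · rw [k1, k3]
    exact Nat.lt_two_pow_self.le
  · exact k3

end Pool.Agent.Lib.PCP
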