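import Pool.Agent.Lib.PCP.Defs

/-!
# The PCP theorem: finite codes and basic polynomial-time lemmas
-/

set_option autoImplicit false

namespace Pool.Agent.Lib.PCP

open Pool.Agent.Lib.helper60
open Pool.Agent.H66 (Cl Sat3)
open Finset (range)

noncomputable instance {α β : Type} [Finite α] [Finite β] : FinCode (α → β) where
  idx := cidx
  bound := Nat.card (α → β)
  idx_lt := fun f => (Finite.equivFin (α → β) f).isLt
  idx_inj := fun _ _ h => (Finite.equivFin (α → β)).injective (Fin.ext h)
  code := fun _ => rfl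

instance {n : ℕ} : FinCode (Fin n) where
  idx := fun i => i.val
  bound := n
  idx_lt := fun i => i.isLt
  idx_inj := Fin.val_injective
  code := fun _ => rfl

instance : FinCode Bool where
  idx := fun b => bif b then 1 else 0
  bound := 2
  idx_lt := by intro b; cases b <;> simp
  idx_inj := by intro a b; cases a <;> cases b <;> simp
  code := by intro b; cases b <;> rfl

section

variable {α β γ δ ι : Type} [DEnc α] [DEnc β] [DEnc γ] [DEnc δ]

lemma finPT_ofIsEmpty [IsEmpty α] (f : α → β) : PT f :=
  PT.recode fun a => isEmptyElim a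

lemma finPT_idx [FinCode α] : PT (fun a : α => FinCode.idx a) :=
  PT.recode fun a => (FinCode.code a).symm

/-- every function on a finite type is polynomial-time -/
theorem PT.fin1 [FinCode α] (f : α → β) : PT f := by
  classical
  rcases isEmpty_or_nonempty α with hα | ⟨⟨a0⟩⟩
  · exact finPT_ofIsEmpty f
  · let g : ℕ → β := fun i => if h : ∃ a : α, FinCode.idx a = i then f h.choose else f a0
    have hg : ∀ a : α, g (FinCode.idx a) = f a := by
      intro a
      have h : ∃ a' : α, FinCode.idx a' = FinCode.idx a := ⟨a, rfl⟩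
      have h1 : g (FinCode.idx a) = f h.choose := dif_pos h
      rw [h1, FinCode.idx_inj h.choose_spec]
    have h1 := PT.getD (l := fun _ : α => (List.range (FinCode.bound α)).map g)
      (n := fun a : α => FinCode.idx a) (d := fun _ => f a0) (PT.const _) finPT_idx (PT.const _)
    refine h1.congr fun a => ?_
    have h2 := FinCode.idx_lt a
    rw [List.getD_eq_getElem?_getD, List.getElem?_map, List.getElem?_range h2]
    exact hg a

/-- functions of two arguments from finite types -/
theorem PT.fin2 [FinCode α] [FinCode β] (f : α → β → γ) {a : δ → α} {b : δ → β} (ha : PT a)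
    (hb : PT b) : PT (fun x => f (a x) (b x)) := by
  classical
  rcases isEmpty_or_nonempty δ with hδ | ⟨⟨x0⟩⟩
  · exact finPT_ofIsEmpty _
  · let c0 := f (a x0) (b x0)
    let g : α → ℕ → γ := fun a i => if h : ∃ b : β, FinCode.idx b = i then f a h.choose else c0
    have hg : ∀ (a : α) (b : β), g a (FinCode.idx b) = f a b := by
      intro a b
      have h : ∃ b' : β, FinCode.idx b' = FinCode.idx b := ⟨b, rfl⟩
      have h1 : g a (FinCode.idx b) = f a h.choose := dif_pos h
      rw [h1, FinCode.idx_inj h.choose_spec]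
    have h0 : PT (fun a : α => (List.range (FinCode.bound β)).map (g a)) := PT.fin1 _
    have h1 := PT.getD (l := fun x : δ => (List.range (FinCode.bound β)).map (g (a x)))
      (n := fun x : δ => FinCode.idx (b x)) (d := fun _ => c0) (h0.comp ha) (finPT_idx.comp hb)
      (PT.const _)
    refine h1.congr fun x => ?_
    have h2 := FinCode.idx_lt (b x)
    rw [List.getD_eq_getElem?_getD, List.getElem?_map, List.getElem?_range h2]
    exact hg (a x) (b x)

theorem PT.mapConst (L : List ι) {g : ι → α → β} (hg : ∀ l ∈ L, PT (g l)) :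
    PT (fun x => L.map (fun l => g l x)) := by
  induction L with
  | nil => exact PT.const []
  | cons l L ih =>
    simp only [List.map_cons]
    exact PT.cons (hg l List.mem_cons_self) (ih fun l' hl' => hg l' (List.mem_cons_of_mem _ hl'))

theorem PT.flatMapConst (L : List ι) {g : ι → α → List β} (hg : ∀ l ∈ L, PT (g l)) :
    PT (fun x => L.flatMap (fun l => g l x)) := by
  induction L with
  | nil => exact PT.const []
  | cons l L ih =>
    simp only [List.flatMap_cons]
    exact PT.append (hg l List.mem_cons_self)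
      (ih fun l' hl' => hg l' (List.mem_cons_of_mem _ hl'))

/-- one step of the division by iterated subtraction; the state is `(r, g, q)` -/
def finPTdiv (s : ℕ × ℕ × ℕ) : ℕ × ℕ × ℕ :=
  bif (decide (0 < s.2.1) && decide (s.2.1 ≤ s.1)) then (s.1 - s.2.1, s.2.1, s.2.2 + 1) else s

lemma finPT_div : PT finPTdiv :=
  PT.cond (PT.band (PT.nlt (PT.const 0) (PT.fst.comp PT.snd))
    (PT.nle (PT.fst.comp PT.snd) PT.fst))
    (PT.pair (PT.nsub PT.fst (PT.fst.comp PT.snd))
      (PT.pair (PT.fst.comp PT.snd) (PT.nsucc (PT.snd.comp PT.snd)))) PT.id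

lemma finPTdiv_pos {r g q : ℕ} (h : 0 < g) (h' : g ≤ r) :
    finPTdiv (r, g, q) = (r - g, g, q + 1) := by
  simp [finPTdiv, h, h']

lemma finPTdiv_neg {r g q : ℕ} (h : g = 0 ∨ r < g) : finPTdiv (r, g, q) = (r, g, q) := by
  rcases h with h | h
  · simp [finPTdiv, h]
  · have h' : ¬ g ≤ r := by omega
    simp [finPTdiv, h']

lemma finPTdiv_iter_neg {r g q : ℕ} (h : g = 0 ∨ r < g) (i : ℕ) :
    finPTdiv^[i] (r, g, q) = (r, g, q) := by
  induction i with
  | zero => rfl
  | succ i ih => rw [Function.iterate_succ_apply, finPTdiv_neg h, ih]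

lemma finPTdiv_iter (i r g q : ℕ) (h : r ≤ i) :
    finPTdiv^[i] (r, g, q) = (r % g, g, q + r / g) := by
  induction i generalizing r q with
  | zero =>
    have : r = 0 := by omega
    subst this
    simp
  | succ i ih =>
    rcases Nat.eq_zero_or_pos g with hg | hg
    · rw [finPTdiv_iter_neg (Or.inl hg)]
      subst hg
      simp
    · rcases lt_or_ge r g with h1 | h1
      · rw [finPTdiv_iter_neg (Or.inr h1), Nat.mod_eq_of_lt h1, Nat.div_eq_of_lt h1]
        rfl
      · rw [Function.iterate_succ_apply, finPTdiv_pos hg h1, ih _ _ (by omega)]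
        rw [← Nat.mod_eq_sub_mod h1, Nat.div_eq_sub_div hg h1]
        congr 2
        omega

lemma finPTdiv_size (i : ℕ) : ∀ r g q, ∃ r' q', finPTdiv^[i] (r, g, q) = (r', g, q') ∧ r' ≤ r ∧
    q' ≤ q + i := by
  induction i with
  | zero => intro r g q; exact ⟨r, q, rfl, le_rfl, le_rfl⟩
  | succ i ih =>
    intro r g q
    rw [Function.iterate_succ_apply]
    by_cases h : 0 < g ∧ g ≤ r
    · rw [finPTdiv_pos h.1 h.2]
      obtain ⟨r', q', h1, h2, h3⟩ := ih (r - g) g (q + 1)
      exact ⟨r', q', h1, by omega, by omega⟩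
    · rw [finPTdiv_neg (by omega)]
      obtain ⟨r', q', h1, h2, h3⟩ := ih r g q
      exact ⟨r', q', h1, by omega, by omega⟩

lemma finPT_divmod {f g : α → ℕ} (hf : PT f) (hg : PT g) :
    PT (fun x => (f x % g x, g x, f x / g x)) := by
  have h := PT.iterateNat (count := f) (init := fun x => (f x, g x, 0)) hf
    (PT.pair hf (PT.pair hg (PT.const 0))) finPT_div
    ⟨fun x => tsize (f x) + tsize (g x) + tsize (f x) + 2, ((hf.size.add hg.size).add
      hf.size).add (PB.const 2), by
      intro x i hi
      obtain ⟨r', q', h1, h2, h3⟩ := finPTdiv_size i (f x) (g x) 0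
      rw [h1]
      simp only [tsize_pair, tsize_nat]
      omega⟩
  refine h.congr fun x => ?_
  rw [finPTdiv_iter _ _ _ _ le_rfl, Nat.zero_add]

theorem PT.ndiv {f g : α → ℕ} (hf : PT f) (hg : PT g) : PT (fun x => f x / g x) :=
  (PT.snd.comp PT.snd).comp (finPT_divmod hf hg)

theorem PT.nmod {f g : α → ℕ} (hf : PT f) (hg : PT g) : PT (fun x => f x % g x) :=
  PT.fst.comp (finPT_divmod hf hg)

lemma finPT_sum_le (l : List ℕ) : 2 * l.sum + 1 ≤ tsize l := by
  induction l with
  | nil => simp
  | cons n l ih =>
    simp only [List.sum_cons, tsize_cons, tsize_nat]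
    omega

theorem PT.nsum {f : α → List ℕ} (hf : PT f) : PT (fun x => (f x).sum) := by
  have e : ∀ (u : List ℕ) (v : ℕ), u.foldl (fun s b => s + b) v = v + u.sum := by
    intro u
    induction u with
    | nil => intro v; simp
    | cons b u ih => intro v; simp [ih, Nat.add_assoc]
  have h := PT.foldl (init := fun _ => 0) (g := fun y : α × ℕ × ℕ => y.2.1 + y.2.2)
    hf (PT.const 0) (PT.nadd (PT.fst.comp PT.snd) (PT.snd.comp PT.snd))
    ⟨fun x => tsize (f x), hf.size, by
      intro x l₁ l₂ h
      rw [e, Nat.zero_add]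
      have h1 := finPT_sum_le (f x)
      have h2 : (f x).sum = l₁.sum + l₂.sum := by rw [← h, List.sum_append]
      rw [tsize_nat]
      beta_reduce
      omega⟩
  refine h.congr fun x => ?_
  rw [e, Nat.zero_add]

end

end Pool.Agent.Lib.PCP
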