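import Pool.Agent.Lib.PCP.FinPT

/-!
# The PCP theorem: the alphabet reduction is polynomial-time
-/

set_option autoImplicit false

namespace Pool.Agent.Lib.PCP

open Pool.Agent.Lib.helper60
open Pool.Agent.H66 (Cl Sat3)
open Finset (range)

section ptcomp

variable {A : Type} [Finite A]

/-- which table -/
def ptcompKind : Loc A → ℕ
  | .inl _ => 0
  | .inr (.inl _) => 1
  | .inr (.inr _) => 2

/-- position in the table -/
noncomputable def ptcompIdx : Loc A → ℕ
  | .inl t => cidx t
  | .inr (.inl t) => cidx t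
  | .inr (.inr g) => cidx g

lemma ptcomp_vid (n u v j : ℕ) (q : Loc A) : vid n u v j q =
    if ptcompKind q = 0 then u * Nat.card (A → Bool) + ptcompIdx q
    else if ptcompKind q = 1 then v * Nat.card (A → Bool) + ptcompIdx q
    else n * Nat.card (A → Bool) + (j * Nat.card (A × A → Bool) + ptcompIdx q) := by
  rcases q with t | t | g <;> simp [vid, ptcompKind, ptcompIdx]

lemma ptcomp_arith {ι : Type} [DEnc ι] {n u v j k i : ι → ℕ} (a b : ℕ)
    (hn : PT n) (hu : PT u) (hv : PT v) (hj : PT j) (hk : PT k) (hi : PT i) :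
    PT (fun x => if k x = 0 then u x * a + i x else if k x = 1 then v x * a + i x
      else n x * a + (j x * b + i x)) :=
  PT.ite (PT.neq hk (PT.const 0)) (PT.nadd (PT.nmul hu (PT.const a)) hi)
    (PT.ite (PT.neq hk (PT.const 1)) (PT.nadd (PT.nmul hv (PT.const a)) hi)
      (PT.nadd (PT.nmul hn (PT.const a)) (PT.nadd (PT.nmul hj (PT.const b)) hi)))

lemma ptcomp_pt_vid {ι : Type} [DEnc ι] {n u v j : ι → ℕ} {C : ι → Con A} (q : Con A → Loc A)
    (hn : PT n) (hu : PT u) (hv : PT v) (hj : PT j) (hC : PT C) :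
    PT (fun x => vid (n x) (u x) (v x) (j x) (q (C x))) := by
  have hk : PT (fun c : Con A => ptcompKind (q c)) := PT.fin1 _
  have hi : PT (fun c : Con A => ptcompIdx (q c)) := PT.fin1 _
  refine (ptcomp_arith (Nat.card (A → Bool)) (Nat.card (A × A → Bool)) hn hu hv hj
    (hk.comp hC) (hi.comp hC)).congr ?_
  intro x
  exact (ptcomp_vid _ _ _ _ _).symm

/-- the constraints of one test -/
noncomputable def ptcompRow (a b c : ℕ) (q : (Rnd A × Fin 6) × ℕ) (z : Inst A × ℕ) :
    List (ℕ × ℕ × Con A0) :=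
  (List.finRange 4).map (fun i =>
    ((z.1.1 * a + (z.1.2.length * b + (z.2 * c + q.2)),
      vid z.1.1 (cst z.1 z.2).1 (cst z.1 z.2).2.1 z.2 (qry (cst z.1 z.2).2.2 q.1.1 q.1.2 i),
      qcon q.1.2 i) : ℕ × ℕ × Con A0))

lemma ptcomp_row (a b c : ℕ) (q : (Rnd A × Fin 6) × ℕ) : PT (ptcompRow a b c q) := by
  refine PT.mapConst _ (fun i _ => ?_)
  have hI : PT (fun z : Inst A × ℕ => z.1) := PT.fst
  have hj : PT (fun z : Inst A × ℕ => z.2) := PT.snd
  have hlen : PT (fun z : Inst A × ℕ => z.1.2.length) := PT.length (PT.snd.comp hI)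
  have hc : PT (fun z : Inst A × ℕ => cst z.1 z.2) := PT.getD (PT.snd.comp hI) hj (PT.const _)
  have h1 : PT (fun z : Inst A × ℕ => z.1.1 * a + (z.1.2.length * b + (z.2 * c + q.2))) :=
    PT.nadd (PT.nmul (PT.fst.comp hI) (PT.const a)) (PT.nadd
      (PT.nmul hlen (PT.const b)) (PT.nadd (PT.nmul hj (PT.const c)) (PT.const q.2)))
  have h2 := ptcomp_pt_vid (fun C => qry C q.1.1 q.1.2 i) (PT.fst.comp hI) hc.p1 hc.p2.p1 hj hc.p2.p2
  exact PT.pair h1 (PT.pair h2 (PT.const _))

lemma ptcomp_list (a b c : ℕ) (L : List ((Rnd A × Fin 6) × ℕ)) :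
    PT (fun I : Inst A => (List.range I.2.length).flatMap (fun j => L.flatMap (fun q =>
      ptcompRow a b c q (I, j)))) :=
  PT.flatMap (g := fun z : Inst A × ℕ => L.flatMap (fun q => ptcompRow a b c q z))
    (PT.range (PT.length PT.snd)) (PT.flatMapConst L (fun q _ => ptcomp_row a b c q))

lemma ptcomp_bound (a b c : ℕ) :
    PT (fun I : Inst A => I.1 * a + (I.2.length * b + I.2.length * c)) :=
  PT.nadd (PT.nmul PT.fst (PT.const a)) (PT.nadd (PT.nmul (PT.length PT.snd) (PT.const b))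
      (PT.nmul (PT.length PT.snd) (PT.const c)))

end ptcomp

theorem PT_compInst {A : Type} [Finite A] : PT (compInst : Inst A → Inst A0) :=
  (PT.pair (ptcomp_bound (A := A) (Nat.card (A → Bool)) (Nat.card (A × A → Bool)) (tests A).length)
    (ptcomp_list (Nat.card (A → Bool)) (Nat.card (A × A → Bool)) (tests A).length
      (tests A).zipIdx)).congr fun _ => rfl

end Pool.Agent.Lib.PCP
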