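import Pool.Agent.Lib.PCP.FinPT

/-!
# The PCP theorem: the translations from and to 3-CNF are polynomial-time
-/

set_option autoImplicit false

namespace Pool.Agent.Lib.PCP

open Pool.Agent.Lib.helper60
open Pool.Agent.H66 (Cl Sat3)
open Finset (range)

lemma ptends_bool3 {ι β : Type} [DEnc ι] [DEnc β] (f : Bool × Bool × Bool → β) {a b c : ι → Bool}
    (ha : PT a) (hb : PT b) (hc : PT c) : PT (fun x => f (a x, b x, c x)) := by
  have key := PT.cond ha (PT.cond hb (PT.cond hc (PT.const (f (true, true, true)))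
    (PT.const (f (true, true, false)))) (PT.cond hc (PT.const (f (true, false, true)))
    (PT.const (f (true, false, false))))) (PT.cond hb (PT.cond hc
    (PT.const (f (false, true, true))) (PT.const (f (false, true, false))))
    (PT.cond hc (PT.const (f (false, false, true))) (PT.const (f (false, false, false)))))
  refine key.congr fun x => ?_
  cases a x <;> cases b x <;> cases c x <;> rfl

lemma ptends_vbd : PT vbd := by
  unfold vbd
  refine PT.nsum (PT.map (g := fun z : List Cl × Cl => z.2.1.2 + z.2.2.1.2 + z.2.2.2.2 + 1)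
    PT.id ?_)
  have c : PT (fun z : List Cl × Cl => z.2) := PT.snd
  exact PT.nsucc (PT.nadd (PT.nadd c.p1.p2 c.p2.p1.p2) c.p2.p2.p2)

/-- the constraints of one clause -/
def ptendsRow (φ : List Cl) (j : ℕ) : List (ℕ × ℕ × Con A0) :=
  let c := φ.getD j ((true, 0), (true, 0), (true, 0))
  let s := (c.1.1, c.2.1.1, c.2.2.1)
  [(2 * j + 1, 2 * c.1.2, clCon s 0), (2 * j + 1, 2 * c.2.1.2, clCon s 1),
    (2 * j + 1, 2 * c.2.2.2, clCon s 2)]

lemma ptends_row : PT (fun z : List Cl × ℕ => ptendsRow z.1 z.2) := by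
  have hj : PT (fun z : List Cl × ℕ => z.2) := PT.snd
  have c : PT (fun z : List Cl × ℕ => z.1.getD z.2 ((true, 0), (true, 0), (true, 0))) :=
    PT.getD PT.fst hj (PT.const _)
  have h0 : PT (fun z : List Cl × ℕ => 2 * z.2 + 1) := PT.nsucc (PT.nmul (PT.const 2) hj)
  have hs : ∀ i : Fin 3, PT (fun z : List Cl × ℕ =>
      clCon ((z.1.getD z.2 ((true, 0), (true, 0), (true, 0))).1.1,
        (z.1.getD z.2 ((true, 0), (true, 0), (true, 0))).2.1.1,
        (z.1.getD z.2 ((true, 0), (true, 0), (true, 0))).2.2.1) i) := fun i =>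
    ptends_bool3 (fun s => clCon s i) c.p1.p1 c.p2.p1.p1 c.p2.p2.p1
  exact PT.cons (PT.pair h0 (PT.pair (PT.nmul (PT.const 2) c.p1.p2) (hs 0)))
    (PT.cons (PT.pair h0 (PT.pair (PT.nmul (PT.const 2) c.p2.p1.p2) (hs 1)))
      (PT.cons (PT.pair h0 (PT.pair (PT.nmul (PT.const 2) c.p2.p2.p2) (hs 2))) (PT.const [])))

theorem PT_startInst : PT startInst := by
  have h1 : PT (fun φ : List Cl => 2 * (vbd φ + φ.length) + 2) :=
    PT.nadd (PT.nmul (PT.const 2) (PT.nadd ptends_vbd (PT.length PT.id))) (PT.const 2)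
  have h2 : PT (fun φ : List Cl => (List.range φ.length).flatMap (fun j => ptendsRow φ j)) :=
    PT.flatMap (g := fun z : List Cl × ℕ => ptendsRow z.1 z.2) (PT.range (PT.length PT.id))
      ptends_row
  exact (PT.pair h1 h2).congr fun _ => rfl

/-- the clauses of one pair -/
noncomputable def ptendsEx (L : ℕ) (p : (A0 × A0) × ℕ) (z : Inst A0 × ℕ) : List Cl :=
  exclude (cst z.1 z.2).2.2 p.1 (cst z.1 z.2).1 (cst z.1 z.2).2.1
      (4 * z.1.1 + 5 * (z.2 * L + p.2))

lemma ptends_exclude {ι : Type} [DEnc ι] {C : ι → Con A0} {u v z : ι → ℕ} (p : A0 × A0)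
    (hC : PT C) (hu : PT u) (hv : PT v) (hz : PT z) :
    PT (fun x => exclude (C x) p (u x) (v x) (z x)) := by
  unfold exclude
  have hc : PT (fun C : Con A0 => C p.1 p.2) := PT.fin1 _
  refine PT.cond (hc.comp hC) (PT.const _) ?_
  have lit : ∀ (b : Bool) (f : ι → ℕ), PT f → PT (fun x => ((b, f x) : Bool × ℕ)) :=
    fun b f hf => PT.pair (PT.const b) hf
  have cl : ∀ (f g h : ι → Bool × ℕ), PT f → PT g → PT h → PT (fun x => ((f x, g x, h x) : Cl)) :=
    fun f g h hf hg hh => PT.pair hf (PT.pair hg hh)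
  have z1 := PT.nsucc hz
  have z2 : PT (fun x => z x + 2) := PT.nadd hz (PT.const 2)
  have z3 : PT (fun x => z x + 3) := PT.nadd hz (PT.const 3)
  have z4 : PT (fun x => z x + 4) := PT.nadd hz (PT.const 4)
  have u0 : PT (fun x => 4 * u x) := PT.nmul (PT.const 4) hu
  have u1 : PT (fun x => 4 * u x + 1) := PT.nsucc u0
  have u2 : PT (fun x => 4 * u x + 2) := PT.nadd u0 (PT.const 2)
  have u3 : PT (fun x => 4 * u x + 3) := PT.nadd u0 (PT.const 3)
  have v0 : PT (fun x => 4 * v x) := PT.nmul (PT.const 4) hv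
  have v1 : PT (fun x => 4 * v x + 1) := PT.nsucc v0
  have v2 : PT (fun x => 4 * v x + 2) := PT.nadd v0 (PT.const 2)
  have v3 : PT (fun x => 4 * v x + 3) := PT.nadd v0 (PT.const 3)
  exact PT.cons (cl _ _ _ (lit _ _ u0) (lit _ _ u1) (lit _ _ hz))
    (PT.cons (cl _ _ _ (lit _ _ hz) (lit _ _ u2) (lit _ _ z1))
    (PT.cons (cl _ _ _ (lit _ _ z1) (lit _ _ u3) (lit _ _ z2))
    (PT.cons (cl _ _ _ (lit _ _ z2) (lit _ _ v0) (lit _ _ z3))
    (PT.cons (cl _ _ _ (lit _ _ z3) (lit _ _ v1) (lit _ _ z4))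
    (PT.cons (cl _ _ _ (lit _ _ z4) (lit _ _ v2) (lit _ _ v3)) (PT.const []))))))

lemma ptends_ex (L : ℕ) (p : (A0 × A0) × ℕ) : PT (ptendsEx L p) := by
  have hI : PT (fun z : Inst A0 × ℕ => z.1) := PT.fst
  have hj : PT (fun z : Inst A0 × ℕ => z.2) := PT.snd
  have hc : PT (fun z : Inst A0 × ℕ => cst z.1 z.2) := PT.getD (PT.snd.comp hI) hj (PT.const _)
  have hz : PT (fun z : Inst A0 × ℕ => 4 * z.1.1 + 5 * (z.2 * L + p.2)) :=
    PT.nadd (PT.nmul (PT.const 4) (PT.fst.comp hI)) (PT.nmul (PT.const 5)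
      (PT.nadd (PT.nmul hj (PT.const L)) (PT.const p.2)))
  exact ptends_exclude p.1 hc.p2.p2 hc.p1 hc.p2.p1 hz

lemma ptends_final (L : ℕ) (P : List ((A0 × A0) × ℕ)) :
    PT (fun I : Inst A0 => (List.range I.2.length).flatMap (fun j =>
      P.flatMap (fun p => ptendsEx L p (I, j)))) :=
  PT.flatMap (g := fun z : Inst A0 × ℕ => P.flatMap (fun p => ptendsEx L p z))
    (PT.range (PT.length PT.snd)) (PT.flatMapConst P (fun p _ => ptends_ex L p))

theorem PT_finalCl : PT finalCl :=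
  (ptends_final allPairs.length allPairs.zipIdx).congr fun _ => rfl

/-- step of the computation of the number of rounds, with parameter -/
def ptendsStep (s : ℕ × ℕ × ℕ) : ℕ × ℕ × ℕ :=
  (s.1, if s.2.2 < s.1 then (s.2.1 + 1, 2 * s.2.2) else s.2)

lemma ptends_step : PT ptendsStep :=
  PT.pair PT.fst (PT.ite (PT.nlt PT.snd.p2 PT.fst)
    (PT.pair (PT.nsucc PT.snd.p1) (PT.nmul (PT.const 2) PT.snd.p2)) PT.snd)

lemma ptends_iter (m i : ℕ) : ∀ s : ℕ × ℕ, ptendsStep^[i] (m, s) =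
    (m, (fun s : ℕ × ℕ => if s.2 < m then (s.1 + 1, 2 * s.2) else s)^[i] s) := by
  induction i with
  | zero => intro s; rfl
  | succ i ih =>
    intro s
    rw [Function.iterate_succ_apply, Function.iterate_succ_apply]
    exact ih _

lemma ptends_iter_le (m i : ℕ) : ∀ s : ℕ × ℕ, s.2 ≤ 2 * m + 1 →
    ((fun s : ℕ × ℕ => if s.2 < m then (s.1 + 1, 2 * s.2) else s)^[i] s).1 ≤ s.1 + i ∧
    ((fun s : ℕ × ℕ => if s.2 < m then (s.1 + 1, 2 * s.2) else s)^[i] s).2 ≤ 2 * m + 1 := by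
  induction i with
  | zero => intro s h; simpa using h
  | succ i ih =>
    intro s h
    rw [Function.iterate_succ_apply]
    by_cases h1 : s.2 < m
    · have h2 := ih (s.1 + 1, 2 * s.2) (by show 2 * s.2 ≤ 2 * m + 1; omega)
      simp only [h1, ↓reduceIte]
      refine ⟨h2.1.trans ?_, h2.2⟩
      show s.1 + 1 + i ≤ s.1 + (i + 1)
      omega
    · have h2 := ih s h
      simp only [h1, ↓reduceIte]
      exact ⟨h2.1.trans (by omega), h2.2⟩

theorem PT_rounds : PT rounds := by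
  have h := PT.iterateNat (count := fun m : ℕ => m) (init := fun m : ℕ => (m, (0, 1)))
    (step := ptendsStep) PT.id (PT.pair PT.id (PT.const _)) ptends_step
    ⟨fun m => 20 * tsize m + 20, ((PB.const 20).mul PB.tsize).add (PB.const 20), by
      intro m i hi
      rw [ptends_iter]
      have h1 := ptends_iter_le m i (0, 1) (by show 1 ≤ 2 * m + 1; omega)
      generalize (fun s : ℕ × ℕ => if s.2 < m then (s.1 + 1, 2 * s.2) else s)^[i] (0, 1) = s at h1
      obtain ⟨a, b⟩ := s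
      simp only [tsize_pair, tsize_nat, zero_add] at h1 ⊢
      omega⟩
  refine h.p2.p1.congr fun m => ?_
  rw [ptends_iter]
  rfl

/-- size of instances over `A0` -/
theorem tsize_inst_le : ∃ K : ℕ, ∀ I : Inst A0, Bdd I →
    tsize I ≤ K * (I.1 + 1) * (I.2.length + 1) := by
  refine ⟨2 * Nat.card (A0 → A0 → Bool) + 20, fun I hI => ?_⟩
  have h1 : ∀ c ∈ I.2, tsize c ≤ 4 * I.1 + (2 * Nat.card (A0 → A0 → Bool) + 5) := by
    rintro ⟨u, v, C⟩ hc
    obtain ⟨hu, hv⟩ := hI _ hc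
    simp only at hu hv
    have h2 : tsize C ≤ 2 * Nat.card (A0 → A0 → Bool) + 1 := by
      have h3 : tsize C = tsize ((Finite.equivFin (A0 → A0 → Bool) C : Fin _) : ℕ) := rfl
      rw [h3, tsize_nat]
      have := (Finite.equivFin (A0 → A0 → Bool) C).isLt
      omega
    simp only [tsize_pair, tsize_nat]
    omega
  have h2 := tsize_le_of_forall h1
  have h3 : tsize I = tsize I.1 + tsize I.2 + 1 := tsize_pair I.1 I.2
  rw [h3, tsize_nat]
  set c := Nat.card (A0 → A0 → Bool)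
  set n := I.1
  set l := I.2.length
  have h4 : l * (4 * n + (2 * c + 5) + 1) ≤ (2 * c + 16) * (n + 1) * l := by
    have : 4 * n + (2 * c + 5) + 1 ≤ (2 * c + 16) * (n + 1) := by nlinarith
    calc l * (4 * n + (2 * c + 5) + 1) ≤ l * ((2 * c + 16) * (n + 1)) := Nat.mul_le_mul_left _ this
      _ = (2 * c + 16) * (n + 1) * l := by ring
  have h5 : 2 * n + 1 + 1 + 1 ≤ 4 * (n + 1) := by omega
  nlinarith [Nat.zero_le (c * (n + 1)), Nat.zero_le ((n + 1) * l)]

end Pool.Agent.Lib.PCP
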