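import Pool.Agent.Lib.PCP.FinPT

/-!
# The PCP theorem: the powering step is polynomial-time
-/

set_option autoImplicit false

namespace Pool.Agent.Lib.PCP

open Pool.Agent.Lib.helper60
open Pool.Agent.H66 (Cl Sat3)
open Finset (range)

lemma PTPow_ent {A ι : Type} [Finite A] [DEnc ι] {d : ℕ} {tab : ι → List (ℕ × Con A)}
    {v : ι → ℕ} (ht : PT tab) (hv : PT v) (i : Fin d) :
    PT (fun x => ent d (tab x) (v x) i) := by
  unfold ent
  exact PT.getD ht (PT.nadd (PT.nmul hv (PT.const d)) (PT.const i.val)) (PT.const _)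

lemma PTPow_wend {A ι : Type} [Finite A] [DEnc ι] {d : ℕ} {tab : ι → List (ℕ × Con A)}
    (ht : PT tab) : ∀ (l : List (Fin d)) {v : ι → ℕ}, PT v →
      PT (fun x => wendL (tab x) (v x) l)
  | [], _, hv => hv
  | i :: l, _, hv => PTPow_wend ht l (PT.p1 (PTPow_ent ht hv i))

lemma PTPow_wcon {A ι : Type} [Finite A] [Inhabited A] [DEnc ι] {d B : ℕ}
    (bk : Fin d → Fin d) {tab : ι → List (ℕ × Con A)} (ht : PT tab) :
    ∀ (l : List (Fin d)) (pre : List (Fin d)) {v : ι → ℕ}, PT v →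
      PT (fun x => (wcon bk (tab x) (v x) pre l : Con (Op d B A)))
  | [], _, _, _ => PT.const _
  | i :: l, pre, _, hv =>
    PT.fin2 (fun (C : Con A) (D : Con (Op d B A)) => (fun o₁ o₂ =>
        C (opv o₁ pre) (opv o₂ ((l.map bk).reverse)) && D o₁ o₂ : Con (Op d B A)))
      (PT.p2 (PTPow_ent ht hv i)) (PTPow_wcon bk ht l (pre ++ [i]) (PT.p1 (PTPow_ent ht hv i)))

theorem PT_powInst {A : Type} [Finite A] [Inhabited A] {d : ℕ} (bk : Fin d → Fin d) (h : ℕ) :
    PT (powInst bk h : GData A → Inst (Op d (2 * h + 1) A)) := by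
  have hv : PT (fun y : GData A × ℕ => y.2) := PT.snd
  have ht : PT (fun y : GData A × ℕ => y.1.2) := PT.p2 PT.fst
  have hg : PT (fun y : GData A × ℕ => (walks d h).map (fun l =>
      (y.2, wendL y.1.2 y.2 l, (wcon bk y.1.2 y.2 [] l : Con (Op d (2 * h + 1) A))))) :=
    PT.mapConst (walks d h) (fun l _ =>
      PT.pair hv (PT.pair (PTPow_wend ht l hv) (PTPow_wcon bk ht l [] hv)))
  have hn : PT (fun x : GData A => x.1) := PT.fst
  exact PT.pair hn (PT.flatMap (PT.range hn) hg)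

end Pool.Agent.Lib.PCP
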