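import Pool.Agent.Lib.PCP.Power

/-!
# The PCP theorem: powering of data
-/

set_option autoImplicit false

namespace Pool.Agent.Lib.PCP

open Pool.Agent.Lib.helper60
open Pool.Agent.H66 (Cl Sat3)
open Finset (range)

theorem powI_seqs_length (d k : ℕ) : (seqs d k).length = d ^ k := by
  induction k with
  | zero => simp [seqs]
  | succ k ih =>
    simp only [seqs, List.length_flatMap, List.length_map, ih]
    simp [pow_succ, mul_comm]

theorem powI_seqs_mem (d k : ℕ) : ∀ l ∈ seqs d k, l.length = k := by
  induction k with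
  | zero => simp [seqs]
  | succ k ih =>
    intro l hl
    simp only [seqs, List.mem_flatMap, List.mem_map] at hl
    obtain ⟨i, -, l', hl', rfl⟩ := hl
    simp [ih l' hl']

theorem walks_length (d h : ℕ) : (walks d h).length = (2 * h + 1) * d ^ (2 * h + 1) := by
  simp [walks, List.length_flatMap, powI_seqs_length]

theorem powI_walks_mem (d h : ℕ) : ∀ l ∈ walks d h, l.length ≤ 2 * h + 1 := by
  intro l hl
  simp only [walks, List.mem_flatMap, List.mem_map] at hl
  obtain ⟨T, -, s, hs, rfl⟩ := hl
  have := powI_seqs_mem d _ s hs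
  simp [this]

section

variable {n d : ℕ} {A : Type} (G : RG (Fin n) d A) (x : GData A)

theorem powI_ent (hx : Repr x G) (v : Fin n) (i : Fin d) :
    ent d x.2 v.val i = ((G.nb i v).val, G.con i v) := by
  unfold ent
  rw [List.getD_eq_getElem?_getD, hx.2 v i]
  rfl

theorem powI_wend (hx : Repr x G) (l : List (Fin d)) : ∀ v : Fin n,
    wendL x.2 v.val l = (G.wend v l).val := by
  induction l with
  | nil => intro v; rfl
  | cons i l ih =>
    intro v
    have := ih (G.nb i v)
    simp only [wendL, RG.wend, List.foldl_cons] at this ⊢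
    rw [powI_ent G x hx]
    exact this

theorem powI_wcon [Inhabited A] {B : ℕ} (hx : Repr x G) (o₁ o₂ : Op d B A) (l : List (Fin d)) :
    ∀ (v : Fin n) (pre : List (Fin d)), wcon G.bk x.2 v.val pre l o₁ o₂ = true ↔
      ∀ l1 i l2, l = l1 ++ i :: l2 →
        G.con i (G.wend v l1) (opv o₁ (pre ++ l1)) (opv o₂ (G.rev l2)) = true := by
  induction l with
  | nil =>
    intro v pre
    simp [wcon]
  | cons j l ih =>
    intro v pre
    have h1 := ih (G.nb j v) (pre ++ [j])
    simp only [wcon, Bool.and_eq_true]
    rw [powI_ent G x hx]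
    simp only
    rw [h1]
    constructor
    · rintro ⟨ha, hb⟩ l1 i l2 he
      cases l1 with
      | nil =>
        simp only [List.nil_append, List.cons.injEq] at he
        obtain ⟨rfl, rfl⟩ := he
        simpa [RG.wend, RG.rev] using ha
      | cons j' l1 =>
        simp only [List.cons_append, List.cons.injEq] at he
        obtain ⟨rfl, he⟩ := he
        have := hb l1 i l2 he
        simpa [RG.wend] using this
    · intro hh
      refine ⟨?_, ?_⟩
      · have := hh [] j l rfl
        simpa [RG.wend, RG.rev] using this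
      · intro l1 i l2 he
        have := hh (j :: l1) i l2 (by rw [he]; rfl)
        simpa [RG.wend] using this

theorem powI_passes [Inhabited A] {B : ℕ} (hx : Repr x G) (s : ℕ → Op d B A) (l : List (Fin d))
    (v : Fin n) : wcon G.bk x.2 v.val [] l (s v.val) (s (wendL x.2 v.val l)) = true ↔
      G.Passes (opv (s v.val)) (opv (s (G.wend v l).val)) v l := by
  rw [powI_wcon G x hx, powI_wend G x hx]
  unfold RG.Passes
  simp

theorem powI_wend_append (v : Fin n) (l1 l2 : List (Fin d)) :
    G.wend v (l1 ++ l2) = G.wend (G.wend v l1) l2 := by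
  simp [RG.wend, List.foldl_append]

theorem powI_wend_rev (l : List (Fin d)) : ∀ v : Fin n,
    G.wend (G.wend v l) (G.rev l) = v := by
  induction l with
  | nil => intro v; rfl
  | cons i l ih =>
    intro v
    have h1 : G.rev (i :: l) = G.rev l ++ [G.bk i] := by simp [RG.rev]
    have h2 : G.wend v (i :: l) = G.wend (G.nb i v) l := rfl
    rw [h1, powI_wend_append, h2, ih]
    exact G.nb_bk i v

end

theorem powInst_spec {n d : ℕ} (hn : 0 < n) (hd : 0 < d) {A : Type} [Finite A] [Inhabited A]
    (G : RG (Fin n) d A) (x : GData A) (hx : Repr x G) (h : ℕ) :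
    (powInst G.bk h x).1 = n ∧ Bdd (powInst G.bk h x) ∧
      (powInst G.bk h x).2.length = n * (walks d h).length ∧
      (G.Sat → Sat (powInst G.bk h x)) ∧
      ∀ lam e : ℝ, 0 ≤ lam → lam < 1 → G.Spec lam → 0 ≤ e → G.Gap e →
        Gap (cpow A lam * min ((h + 1) * e) 1) (powInst G.bk h x) := by
  have hlen : (powInst G.bk h x).2.length = n * (walks d h).length := by
    simp [powInst, List.length_flatMap, hx.1]
  have hmem : ∀ c ∈ (powInst G.bk h x).2, ∃ v : Fin n, ∃ l ∈ walks d h,
      c = (v.val, wendL x.2 v.val l, wcon G.bk x.2 v.val [] l) := by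
    intro c hc
    simp only [powInst, List.mem_flatMap, List.mem_map, List.mem_range, hx.1] at hc
    obtain ⟨v, hv, l, hl, rfl⟩ := hc
    exact ⟨⟨v, hv⟩, l, hl, rfl⟩
  refine ⟨hx.1, ?_, hlen, ?_, ?_⟩
  · intro c hc
    obtain ⟨v, l, hl, rfl⟩ := hmem c hc
    have h1 : (powInst G.bk h x).1 = n := hx.1
    rw [h1]
    refine ⟨v.isLt, ?_⟩
    simp only
    rw [powI_wend G x hx]
    exact (G.wend v l).isLt
  · rintro ⟨s, hs⟩
    classical
    let σ : ℕ → Op d (2 * h + 1) A := fun v =>
      if hv : v < n then fun l => s (G.wend ⟨v, hv⟩ l.1) else fun _ => default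
    refine ⟨σ, ?_⟩
    intro c hc
    obtain ⟨v, l, hl, rfl⟩ := hmem c hc
    have hσ : ∀ (w : Fin n) (k : List (Fin d)), k.length ≤ 2 * h + 1 →
        opv (σ w.val) k = s (G.wend w k) := by
      intro w k hk
      simp [opv, hk, σ]
    refine (powI_passes G x hx σ l v).2 ?_
    intro l1 i l2 he
    have hll : l.length ≤ 2 * h + 1 := powI_walks_mem d h l hl
    have hl1 : l1.length ≤ 2 * h + 1 := by
      have : l.length = l1.length + (l2.length + 1) := by rw [he]; simp
      omega
    have hl2 : (G.rev l2).length ≤ 2 * h + 1 := by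
      have : l.length = l1.length + (l2.length + 1) := by rw [he]; simp
      simp only [RG.rev, List.length_reverse, List.length_map]
      omega
    rw [hσ _ _ hl1, hσ _ _ hl2]
    have h2 : G.wend (G.wend v l) (G.rev l2) = G.nb i (G.wend v l1) := by
      have h3 : G.wend v l = G.wend (G.nb i (G.wend v l1)) l2 := by
        rw [he, powI_wend_append]
        rfl
      rw [h3, powI_wend_rev]
    rw [h2]
    exact hs i (G.wend v l1)
  · intro lam e h0 h1 hsp he hg s
    classical
    have : Nonempty (Fin n) := ⟨⟨0, hn⟩⟩
    have key := power_sound hd G h0 h1 hsp he hg h (fun v => opv (s v.val))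
    rw [hlen]
    have hv : viol (powInst G.bk h x) s = ∑ v : Fin n, (walks d h).countP (fun l => decide
        (¬ G.Passes (opv (s v.val)) (opv (s (G.wend v l).val)) v l)) := by
      unfold viol powInst
      rw [List.countP_flatMap, hx.1]
      have e1 : ∀ f : ℕ → ℕ, (List.map f (List.range n)).sum = ∑ v : Fin n, f v.val := by
        intro f
        rw [← Finset.sum_range f]
        rfl
      rw [e1]
      refine Finset.sum_congr rfl fun v _ => ?_
      simp only [Function.comp_apply]
      rw [List.countP_map]
      refine List.countP_congr fun l _ => ?_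
      have h2 := powI_passes G x hx s l v
      simp only [Function.comp_apply, decide_eq_true_eq, ← h2]
      simp
    rw [hv]
    push_cast at key ⊢
    simpa [Fintype.card_fin] using key

end Pool.Agent.Lib.PCP
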