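import Pool.Agent.Lib.PCP.PrepGraph

/-!
# The PCP theorem: degree reduction and expanderisation
-/

set_option autoImplicit false

namespace Pool.Agent.Lib.PCP

open Pool.Agent.Lib.helper60
open Pool.Agent.H66 (Cl Sat3)
open Finset (range)

section prepAux

variable {A : Type} (I : Inst A)

lemma prepA_base_succ (x : ℕ) : base I (x + 1) = base I x + csz I x * csz I x := by
  unfold base
  rw [List.range_succ, List.map_append, List.sum_append]
  simp

lemma prepA_base_eq (X : ℕ) : base I X = ∑ x ∈ range X, csz I x * csz I x := by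
  induction X with
  | zero => rfl
  | succ X ih => rw [prepA_base_succ, ih, Finset.sum_range_succ]

lemma prepA_sum_base {M : Type} [AddCommMonoid M] (g : ℕ → M) (X : ℕ) :
    ∑ v ∈ range (base I X), g v =
      ∑ x ∈ range X, ∑ p ∈ range (csz I x * csz I x), g (base I x + p) := by
  induction X with
  | zero => rfl
  | succ X ih => rw [prepA_base_succ, Finset.sum_range_add, ih, Finset.sum_range_succ]

lemma prepA_occ_le (x : ℕ) : (occ I x).length ≤ csz I x * csz I x := sqs_le _

lemma prepA_base_ge (hb : Bdd I) : 2 * I.2.length ≤ base I I.1 := by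
  rw [prepA_base_eq, ← sum_occ I hb]
  exact Finset.sum_le_sum fun x _ => prepA_occ_le I x

lemma prepA_base_le (hb : Bdd I) : base I I.1 ≤ 8 * I.2.length := by
  rw [prepA_base_eq]
  calc ∑ x ∈ range I.1, csz I x * csz I x ≤ ∑ x ∈ range I.1, 4 * (occ I x).length :=
        Finset.sum_le_sum fun x _ => sqs_ge _
    _ = 4 * (2 * I.2.length) := by rw [← Finset.mul_sum, sum_occ I hb]
    _ = 8 * I.2.length := by ring

lemma prepA_side_ge : base I I.1 ≤ side I * side I := sqs_le _

lemma prepA_side_le (hb : Bdd I) : side I * side I ≤ 32 * I.2.length := by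
  have h1 : side I * side I ≤ 4 * base I I.1 := sqs_ge _
  have h2 := prepA_base_le I hb
  omega

/-! spectral bound -/

lemma prepA_norm {n : ℕ} (g : Fin n → ℝ) :
    ‖(WithLp.toLp 2 g : EuclideanSpace ℝ (Fin n))‖ = √(∑ v, (g v) ^ 2) := by
  rw [EuclideanSpace.norm_eq]
  simp

lemma prepA_spec [DecidableEq A] {n : ℕ} (hn : n = side I * side I) {G : RG (Fin n) 17 A}
    (hG : ∀ i v, ((G.nb i v).val, G.con i v) = pent I i v.val) : G.Spec (163 / 170) := by
  intro f hf
  let E : Fin 17 → EuclideanSpace ℝ (Fin n) := fun i => WithLp.toLp 2 (fun v => f (G.nb i v))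
  let F : EuclideanSpace ℝ (Fin n) := WithLp.toLp 2 f
  have hFn : ‖F‖ = √(∑ v, (f v) ^ 2) := prepA_norm f
  have hE : ∀ i, ‖E i‖ = ‖F‖ := by
    intro i
    rw [prepA_norm, hFn]
    congr 1
    have hinj : Function.Injective (G.nb i) := by
      intro v w h
      have h1 := G.nb_bk i v
      rw [h, G.nb_bk i w] at h1
      exact h1.symm
    have hbij : Function.Bijective (G.nb i) := Finite.injective_iff_bijective.1 hinj
    exact (Equiv.ofBijective _ hbij).sum_comp (fun v => (f v) ^ 2)
  -- the global expander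
  let ff : ℕ → ℝ := fun p => if h : p < n then f ⟨p, h⟩ else 0
  have hff : ∀ v : Fin n, ff v.val = f v := by
    intro v; simp [ff, v.isLt]
  have hsum0 : ∑ p ∈ range n, ff p = 0 := by
    rw [← hf, Finset.sum_range]
    exact Finset.sum_congr rfl fun v _ => hff v
  have hglob := mgg_spec (side I) ff (by rw [← hn]; exact hsum0)
  rw [← hn] at hglob
  let emb : Fin 8 → Fin 17 := fun j => ⟨j.val + 9, by omega⟩
  have hnb : ∀ (v : Fin n) (j : Fin 8), f (G.nb (emb j) v) = ff (mgg (side I) v.val j) := by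
    intro v j
    rw [← hff]
    congr 1
    have h1 := congrArg Prod.fst (hG (emb j) v)
    simp only at h1
    rw [h1]
    unfold pent
    have h9 : 9 ≤ (emb j).val := by simp [emb]
    rw [dif_pos h9]
    simp only
    congr 1
  have hU : ‖∑ j : Fin 8, E (emb j)‖ ≤ 73 / 10 * ‖F‖ := by
    have e : ∑ j : Fin 8, E (emb j) =
        WithLp.toLp 2 (fun v => ∑ j : Fin 8, f (G.nb (emb j) v)) := by
      ext v
      simp [E]
    rw [e, prepA_norm, hFn]
    have h1 : ∑ v : Fin n, (∑ j : Fin 8, f (G.nb (emb j) v)) ^ 2 ≤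
        (73 / 10) ^ 2 * ∑ v, (f v) ^ 2 := by
      have e1 : ∑ v : Fin n, (∑ j : Fin 8, f (G.nb (emb j) v)) ^ 2 =
          ∑ p ∈ range n, (∑ j, ff (mgg (side I) p j)) ^ 2 := by
        rw [Finset.sum_range]
        exact Finset.sum_congr rfl fun v _ => by simp only [hnb]
      have e2 : ∑ v, (f v) ^ 2 = ∑ p ∈ range n, (ff p) ^ 2 := by
        rw [Finset.sum_range]
        exact Finset.sum_congr rfl fun v _ => by rw [hff]
      rw [e1, e2]
      exact hglob
    calc √(∑ v : Fin n, (∑ j : Fin 8, f (G.nb (emb j) v)) ^ 2)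
        ≤ √((73 / 10) ^ 2 * ∑ v, (f v) ^ 2) := Real.sqrt_le_sqrt h1
      _ = 73 / 10 * √(∑ v, (f v) ^ 2) := by
        rw [Real.sqrt_mul (by positivity), Real.sqrt_sq (by norm_num)]
  -- splitting the seventeen ports
  let lo : Fin 9 → Fin 17 := fun j => ⟨j.val, by omega⟩
  have hsplit : ∑ i, E i = ∑ j : Fin 9, E (lo j) + ∑ j : Fin 8, E (emb j) := by
    have h := Fin.sum_univ_add (a := 9) (b := 8) E
    have e2 : ∀ j : Fin 8, Fin.natAdd 9 j = emb j := by
      intro j; apply Fin.ext; simp [emb, Nat.add_comm]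
    have e1 : ∀ j : Fin 9, Fin.castAdd 8 j = lo j := by
      intro j; apply Fin.ext; simp [lo]
    simp only [e1, e2] at h
    exact h
  have hlo : ‖∑ j : Fin 9, E (lo j)‖ ≤ 9 * ‖F‖ := by
    refine (norm_sum_le _ _).trans ?_
    simp only [hE]
    simp
  have hall : ‖∑ i, E i‖ ≤ 163 / 10 * ‖F‖ := by
    rw [hsplit]
    refine (norm_add_le _ _).trans ?_
    linarith
  have e3 : ∑ i, E i = WithLp.toLp 2 (fun v => ∑ i, f (G.nb i v)) := by
    ext v
    simp [E]
  rw [e3, prepA_norm, hFn] at hall
  have h5 : (0 : ℝ) ≤ ∑ v, (∑ i, f (G.nb i v)) ^ 2 := Finset.sum_nonneg fun _ _ => sq_nonneg _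
  have h6 : (0 : ℝ) ≤ ∑ v, (f v) ^ 2 := Finset.sum_nonneg fun _ _ => sq_nonneg _
  have h7 := pow_le_pow_left₀ (Real.sqrt_nonneg _) hall 2
  rw [mul_pow, Real.sq_sqrt h5, Real.sq_sqrt h6] at h7
  have h8 : ((163 : ℝ) / 170 * ((17 : ℕ) : ℝ)) ^ 2 = (163 / 10) ^ 2 := by norm_num
  rw [h8]
  exact h7

/-! counting -/

lemma prepA_countP {α : Type} (p : α → Bool) (d : α) (L : List α) :
    L.countP p = ∑ j ∈ range L.length, if p (L.getD j d) = true then 1 else 0 := by
  induction L with
  | nil => simp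
  | cons a L ih =>
    rw [List.countP_cons, ih, List.length_cons, Finset.sum_range_succ']
    simp only [List.getD_cons_succ, List.getD_cons_zero]

lemma prepA_cloud [Finite A] [DecidableEq A] [Nonempty A] (m : ℕ) (g : ℕ → A) :
    ∃ a : A, (7 / 20 : ℝ) * ∑ p ∈ range (m * m), (if g p = a then (0 : ℝ) else 1) ≤
      ∑ p ∈ range (m * m), ∑ j : Fin 8, (if g p = g (mgg m p j) then (0 : ℝ) else 1) := by
  classical
  have := Fintype.ofFinite A
  let cl : A → Finset ℕ := fun b => (range (m * m)).filter (fun p => g p = b)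
  obtain ⟨a, ha⟩ := Finite.exists_max (fun b : A => (cl b).card)
  refine ⟨a, ?_⟩
  let cr : A → ℝ := fun b => ((((cl b) ×ˢ (Finset.univ : Finset (Fin 8))).filter
        (fun q => mgg m q.1 q.2 ∉ cl b)).card : ℝ)
  have hcr : ∀ b, cr b = ∑ p ∈ cl b, ∑ j : Fin 8, (if g p = g (mgg m p j) then (0 : ℝ) else 1) := by
    intro b
    simp only [cr]
    rw [Finset.card_filter, Nat.cast_sum, Finset.sum_product]
    refine Finset.sum_congr rfl fun p hp => Finset.sum_congr rfl fun j _ => ?_
    have hp' := Finset.mem_filter.1 hp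
    have hlt := mgg_lt (Finset.mem_range.1 hp'.1) j
    have hiff : mgg m p j ∉ cl b ↔ ¬ (g p = g (mgg m p j)) := by
      simp only [cl, Finset.mem_filter, Finset.mem_range, hlt, true_and]
      rw [hp'.2]
      exact ⟨fun h h' => h h'.symm, fun h h' => h h'.symm⟩
    by_cases hg : g p = g (mgg m p j)
    · rw [if_neg (by rw [hiff]; exact fun h => h hg), if_pos hg]; simp
    · rw [if_pos (by rw [hiff]; exact hg), if_neg hg]; simp
  have h1 : ∀ b, b ≠ a → (7 / 20 : ℝ) * (cl b).card ≤ cr b := by
    intro b hb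
    have hex := mgg_expand m (cl b) (Finset.filter_subset _ _)
    have hdis : Disjoint (cl b) (cl a) := by
      rw [Finset.disjoint_left]
      intro p hp hp'
      exact hb ((Finset.mem_filter.1 hp).2.symm.trans (Finset.mem_filter.1 hp').2)
    have hcard : (cl b).card + (cl a).card ≤ m * m := by
      rw [← Finset.card_union_of_disjoint hdis]
      calc (cl b ∪ cl a).card ≤ (range (m * m)).card :=
            Finset.card_le_card (Finset.union_subset (Finset.filter_subset _ _)
              (Finset.filter_subset _ _))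
        _ = m * m := Finset.card_range _
    have hle : (cl b).card ≤ (cl a).card := ha b
    have h2 : 2 * ((cl b).card : ℝ) ≤ m * m := by
      have : 2 * (cl b).card ≤ m * m := by omega
      exact_mod_cast this
    rcases Nat.eq_zero_or_pos (m * m) with h0 | h0
    · have : (cl b).card = 0 := by omega
      rw [this]
      simp only [cr]
      simp
    · have h0' : (0 : ℝ) < m * m := by exact_mod_cast h0
      have h3 : (m * m : ℝ) * (7 / 20 * (cl b).card) ≤ m * m * cr b := by
        refine le_trans ?_ hex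
        have h4 : (0 : ℝ) ≤ (cl b).card := Nat.cast_nonneg _
        nlinarith
      exact le_of_mul_le_mul_left h3 h0'
  have hR : ∑ p ∈ range (m * m), ∑ j : Fin 8, (if g p = g (mgg m p j) then (0 : ℝ) else 1) =
      ∑ b, cr b := by
    rw [← Finset.sum_fiberwise (range (m * m)) g]
    exact Finset.sum_congr rfl fun b _ => (hcr b).symm
  have hL : ∑ p ∈ range (m * m), (if g p = a then (0 : ℝ) else 1) =
      ∑ b ∈ Finset.univ.erase a, ((cl b).card : ℝ) := by
    rw [← Finset.sum_fiberwise (range (m * m)) g,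
      ← Finset.sum_erase_add _ _ (Finset.mem_univ a)]
    have e1 : ∑ p ∈ range (m * m) with g p = a, (if g p = a then (0 : ℝ) else 1) = 0 := by
      refine Finset.sum_eq_zero fun p hp => ?_
      rw [if_pos (Finset.mem_filter.1 hp).2]
    rw [e1, add_zero]
    refine Finset.sum_congr rfl fun b hb => ?_
    have hb' := Finset.ne_of_mem_erase hb
    rw [Finset.card_eq_sum_ones, Nat.cast_sum]
    refine Finset.sum_congr rfl fun p hp => ?_
    have hp' := (Finset.mem_filter.1 hp).2
    rw [if_neg (by rw [hp']; exact hb')]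
    simp
  rw [hR, hL, Finset.mul_sum, ← Finset.sum_erase_add _ _ (Finset.mem_univ a)]
  have h5 : ∑ b ∈ Finset.univ.erase a, (7 / 20 : ℝ) * ((cl b).card : ℝ) ≤
      ∑ b ∈ Finset.univ.erase a, cr b :=
    Finset.sum_le_sum fun b hb => h1 b (Finset.ne_of_mem_erase hb)
  have h6 : 0 ≤ cr a := Nat.cast_nonneg _
  linarith

/-! the constraints of the prepared graph -/

/-- the vertex of a slot -/
noncomputable def prepAw (e : ℕ) : ℕ := base I (slotVar I e) + rank I e

lemma prepA_rank_lt {e : ℕ} (he : e < 2 * I.2.length) :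
    rank I e < csz I (slotVar I e) * csz I (slotVar I e) :=
  (rank_lt I he).trans_le (prepA_occ_le I _)

lemma prepA_w_lt (hb : Bdd I) {e : ℕ} (he : e < 2 * I.2.length) : prepAw I e < base I I.1 :=
  (names_get I (slotVar_lt I hb he) (prepA_rank_lt I he)).1

lemma prepA_w_names (hb : Bdd I) {e : ℕ} (he : e < 2 * I.2.length) :
    (names I).getD (prepAw I e) (0, 0) = (slotVar I e, rank I e) :=
  (names_get I (slotVar_lt I hb he) (prepA_rank_lt I he)).2

lemma prepA_w_inj (hb : Bdd I) {e e' : ℕ} (he : e < 2 * I.2.length) (he' : e' < 2 * I.2.length)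
    (h : prepAw I e = prepAw I e') : e = e' := by
  have h1 := prepA_w_names I hb he
  have h2 := prepA_w_names I hb he'
  rw [h, h2] at h1
  have h3 := congrArg Prod.fst h1
  have h4 := congrArg Prod.snd h1
  simp only at h3 h4
  rw [← occ_rank I he, ← occ_rank I he', h3, h4]

/-- violation at the port `i` of the vertex `v` -/
noncomputable def prepAbad [DecidableEq A] (t : ℕ → A) (v : ℕ) (i : Fin 17) : ℝ :=
  if (pent I i v).2 (t v) (t (pent I i v).1) = true then 0 else 1

lemma prepA_bad_nonneg [DecidableEq A] (t : ℕ → A) (v : ℕ) (i : Fin 17) : 0 ≤ prepAbad I t v i := by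
  unfold prepAbad
  split
  · exact le_refl _
  · exact zero_le_one

lemma prepA_pent_lo [DecidableEq A] (j : Fin 8) {x p : ℕ} (hx : x < I.1)
    (hp : p < csz I x * csz I x) :
    pent I ⟨j.val, by omega⟩ (base I x + p) =
      (base I x + mgg (csz I x) p j, fun a b => decide (a = b)) := by
  obtain ⟨h1, h2⟩ := names_get I hx hp
  unfold pent
  rw [dif_neg (by simp only; omega), if_neg (by omega)]
  simp only [h2]
  rw [dif_pos j.isLt]

lemma prepA_pent_eight [DecidableEq A] (hb : Bdd I) {e : ℕ} (he : e < 2 * I.2.length) :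
    pent I 8 (prepAw I e) = (prepAw I (mate e), slotCon I e) := by
  have h1 := prepA_w_lt I hb he
  have h2 := prepA_w_names I hb he
  unfold pent
  rw [dif_neg (by decide), if_neg (by omega)]
  simp only [h2]
  rw [dif_neg (by decide), if_neg (by have := rank_lt I he; omega)]
  rw [occ_rank I he]
  rfl

lemma prepA_half_even (j : ℕ) : half (2 * j) = (j, false) := by
  rw [half_eq]
  have h1 : 2 * j / 2 = j := by omega
  have h2 : ¬ (2 * j % 2 = 1) := by omega
  rw [h1, decide_eq_false h2]

lemma prepA_half_odd (j : ℕ) : half (2 * j + 1) = (j, true) := by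
  rw [half_eq]
  have h1 : (2 * j + 1) / 2 = j := by omega
  have h2 : (2 * j + 1) % 2 = 1 := by omega
  rw [h1, decide_eq_true h2]

lemma prepA_mate_even (j : ℕ) : mate (2 * j) = 2 * j + 1 := by
  unfold mate
  rw [prepA_half_even]
  rfl

lemma prepA_slotVar_even (j : ℕ) : slotVar I (2 * j) = (cst I j).1 := by
  unfold slotVar
  rw [prepA_half_even]
  rfl

lemma prepA_slotVar_odd (j : ℕ) : slotVar I (2 * j + 1) = (cst I j).2.1 := by
  unfold slotVar
  rw [prepA_half_odd]
  rfl

lemma prepA_slotCon_even (j : ℕ) : slotCon I (2 * j) = (cst I j).2.2 := by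
  unfold slotCon
  rw [prepA_half_even]
  rfl

lemma prepA_slotCon_odd (j : ℕ) : slotCon I (2 * j + 1) = fun a b => (cst I j).2.2 b a := by
  unfold slotCon
  rw [prepA_half_odd]
  rfl

lemma prepA_sum_range_two (f : ℕ → ℝ) (k : ℕ) :
    ∑ e ∈ range (2 * k), f e = ∑ j ∈ range k, (f (2 * j) + f (2 * j + 1)) := by
  induction k with
  | zero => simp
  | succ k ih =>
    have e1 : 2 * (k + 1) = 2 * k + 1 + 1 := by ring
    rw [e1, Finset.sum_range_succ, Finset.sum_range_succ, ih, Finset.sum_range_succ]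
    ring

lemma prepA_viol_sum [DecidableEq A] {n : ℕ} {G : RG (Fin n) 17 A}
    (hG : ∀ i v, ((G.nb i v).val, G.con i v) = pent I i v.val) (s : Fin n → A) (t : ℕ → A)
    (hst : ∀ v : Fin n, t v.val = s v) :
    (G.viol s : ℝ) = ∑ v ∈ range n, ∑ i, prepAbad I t v i := by
  classical
  unfold RG.viol
  rw [Finset.card_filter, Nat.cast_sum, ← Finset.univ_product_univ, Finset.sum_product,
    Finset.sum_range]
  refine Finset.sum_congr rfl fun v _ => Finset.sum_congr rfl fun i _ => ?_
  unfold prepAbad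
  have h1 := congrArg Prod.fst (hG i v)
  have h2 := congrArg Prod.snd (hG i v)
  simp only at h1 h2
  rw [← h1, ← h2, hst, hst]
  cases G.con i v (s v) (s (G.nb i v)) <;> simp

lemma prepA_slots (hb : Bdd I) (F : ℕ → ℝ) (hF : ∀ v, 0 ≤ F v) :
    ∑ e ∈ range (2 * I.2.length), F (prepAw I e) ≤ ∑ v ∈ range (base I I.1), F v := by
  classical
  rw [← Finset.sum_image (f := F) (g := prepAw I) (s := range (2 * I.2.length))]
  · refine Finset.sum_le_sum_of_subset_of_nonneg ?_ fun v _ _ => hF v
    intro v hv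
    obtain ⟨e, he, rfl⟩ := Finset.mem_image.1 hv
    exact Finset.mem_range.2 (prepA_w_lt I hb (Finset.mem_range.1 he))
  · intro e he e' he' h
    exact prepA_w_inj I hb (Finset.mem_range.1 he) (Finset.mem_range.1 he') h

lemma prepA_sum17 (F : Fin 17 → ℝ) (hF : ∀ i, 0 ≤ F i) :
    ∑ j : Fin 8, F ⟨j.val, by omega⟩ + F 8 ≤ ∑ i, F i := by
  have h := Fin.sum_univ_add (a := 9) (b := 8) F
  have h' := Fin.sum_univ_castSucc (fun i : Fin 9 => F (Fin.castAdd 8 i))
  rw [h'] at h
  have h0 : 0 ≤ ∑ i : Fin 8, F (Fin.natAdd 9 i) := Finset.sum_nonneg fun _ _ => hF _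
  have h1 : ∑ j : Fin 8, F ⟨j.val, by omega⟩ =
      ∑ i : Fin 8, F (Fin.castAdd 8 i.castSucc) := Finset.sum_congr rfl fun _ _ => rfl
  have h2 : F 8 = F (Fin.castAdd 8 (Fin.last 8)) := rfl
  rw [h1, h2]
  linarith

lemma prepA_gap [Finite A] [DecidableEq A] [Nonempty A] (hb : Bdd I) {n : ℕ}
    (hn : base I I.1 ≤ n) {G : RG (Fin n) 17 A}
    (hG : ∀ i v, ((G.nb i v).val, G.con i v) = pent I i v.val) (s' : Fin n → A) :
    ∃ s : ℕ → A, (7 / 20 : ℝ) * viol I s ≤ G.viol s' := by
  classical
  let t : ℕ → A := fun p => if h : p < n then s' ⟨p, h⟩ else Classical.arbitrary A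
  have ht : ∀ v : Fin n, t v.val = s' v := by
    intro v
    simp only [t]
    rw [dif_pos v.isLt]
  choose s hs using fun x => prepA_cloud (csz I x) (fun p => t (base I x + p))
  refine ⟨s, ?_⟩
  rw [prepA_viol_sum I hG s' t ht]
  -- (a)
  have ha : ∑ v ∈ range (base I I.1), ∑ i, prepAbad I t v i ≤
      ∑ v ∈ range n, ∑ i, prepAbad I t v i := by
    refine Finset.sum_le_sum_of_subset_of_nonneg ?_ fun v _ _ =>
      Finset.sum_nonneg fun i _ => prepA_bad_nonneg I t v i
    intro v hv
    exact Finset.mem_range.2 ((Finset.mem_range.1 hv).trans_le hn)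
  -- (b)
  have hb1 : ∑ v ∈ range (base I I.1), ∑ j : Fin 8, prepAbad I t v ⟨j.val, by omega⟩ +
      ∑ v ∈ range (base I I.1), prepAbad I t v 8 ≤
      ∑ v ∈ range (base I I.1), ∑ i, prepAbad I t v i := by
    rw [← Finset.sum_add_distrib]
    exact Finset.sum_le_sum fun v _ => prepA_sum17 (prepAbad I t v) (prepA_bad_nonneg I t v)
  -- (c)
  have hc : ∑ v ∈ range (base I I.1), ∑ j : Fin 8, prepAbad I t v ⟨j.val, by omega⟩ =
      ∑ x ∈ range I.1, ∑ p ∈ range (csz I x * csz I x), ∑ j : Fin 8,
        (if t (base I x + p) = t (base I x + mgg (csz I x) p j) then (0 : ℝ) else 1) := by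
    rw [prepA_sum_base]
    refine Finset.sum_congr rfl fun x hx => Finset.sum_congr rfl fun p hp =>
      Finset.sum_congr rfl fun j _ => ?_
    unfold prepAbad
    rw [prepA_pent_lo I j (Finset.mem_range.1 hx) (Finset.mem_range.1 hp)]
    simp only [decide_eq_true_eq]
  -- (d)
  have hd := prepA_slots I hb (fun v => prepAbad I t v 8) (fun v => prepA_bad_nonneg I t v 8)
  rw [prepA_sum_range_two, Finset.sum_add_distrib] at hd
  have hd0 : 0 ≤ ∑ j ∈ range I.2.length, prepAbad I t (prepAw I (2 * j + 1)) 8 :=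
    Finset.sum_nonneg fun j _ => prepA_bad_nonneg I t _ 8
  -- (e)
  let D : ℕ → ℝ := fun v => if t v = s ((names I).getD v (0, 0)).1 then 0 else 1
  have hD0 : ∀ v, 0 ≤ D v := by
    intro v
    simp only [D]
    split
    · exact le_refl _
    · exact zero_le_one
  have he := prepA_slots I hb D hD0
  rw [prepA_sum_range_two, Finset.sum_add_distrib] at he
  have he1 : ∑ v ∈ range (base I I.1), D v =
      ∑ x ∈ range I.1, ∑ p ∈ range (csz I x * csz I x),
        (if t (base I x + p) = s x then (0 : ℝ) else 1) := by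
    rw [prepA_sum_base]
    refine Finset.sum_congr rfl fun x hx => Finset.sum_congr rfl fun p hp => ?_
    simp only [D]
    rw [(names_get I (Finset.mem_range.1 hx) (Finset.mem_range.1 hp)).2]
  have he2 : (7 / 20 : ℝ) * ∑ x ∈ range I.1, ∑ p ∈ range (csz I x * csz I x),
        (if t (base I x + p) = s x then (0 : ℝ) else 1) ≤
      ∑ x ∈ range I.1, ∑ p ∈ range (csz I x * csz I x), ∑ j : Fin 8,
        (if t (base I x + p) = t (base I x + mgg (csz I x) p j) then (0 : ℝ) else 1) := by
    rw [Finset.mul_sum]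
    exact Finset.sum_le_sum fun x _ => hs x
  -- (f)
  have hf : (viol I s : ℝ) ≤ ∑ j ∈ range I.2.length, prepAbad I t (prepAw I (2 * j)) 8 +
      (∑ j ∈ range I.2.length, D (prepAw I (2 * j)) +
        ∑ j ∈ range I.2.length, D (prepAw I (2 * j + 1))) := by
    unfold viol
    rw [prepA_countP _ (0, 0, fun _ _ => true), Nat.cast_sum, ← Finset.sum_add_distrib,
      ← Finset.sum_add_distrib]
    refine Finset.sum_le_sum fun j hj => ?_
    have hj' := Finset.mem_range.1 hj
    have h1 : 2 * j < 2 * I.2.length := by omega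
    have h2 : 2 * j + 1 < 2 * I.2.length := by omega
    have n1 : 0 ≤ prepAbad I t (prepAw I (2 * j)) 8 := prepA_bad_nonneg I t _ 8
    have n2 := hD0 (prepAw I (2 * j))
    have n3 := hD0 (prepAw I (2 * j + 1))
    by_cases hv : (cst I j).2.2 (s (cst I j).1) (s (cst I j).2.1) = true
    · have e0 : ((if (!(I.2.getD j (0, 0, fun _ _ => true)).2.2
          (s (I.2.getD j (0, 0, fun _ _ => true)).1)
          (s (I.2.getD j (0, 0, fun _ _ => true)).2.1)) = true then 1 else 0 : ℕ) : ℝ) = 0 := by
        unfold cst at hv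
        rw [hv]
        simp
      rw [e0]
      linarith
    · have e0 : ((if (!(I.2.getD j (0, 0, fun _ _ => true)).2.2
          (s (I.2.getD j (0, 0, fun _ _ => true)).1)
          (s (I.2.getD j (0, 0, fun _ _ => true)).2.1)) = true then 1 else 0 : ℕ) : ℝ) ≤ 1 := by
        split
        · simp
        · simp
      refine e0.trans ?_
      by_cases c1 : t (prepAw I (2 * j)) = s (cst I j).1
      · by_cases c2 : t (prepAw I (2 * j + 1)) = s (cst I j).2.1
        · have : prepAbad I t (prepAw I (2 * j)) 8 = 1 := by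
            unfold prepAbad
            rw [prepA_pent_eight I hb h1, prepA_mate_even, prepA_slotCon_even]
            simp only
            rw [c1, c2, if_neg hv]
          linarith
        · have : D (prepAw I (2 * j + 1)) = 1 := by
            simp only [D]
            rw [prepA_w_names I hb h2, prepA_slotVar_odd, if_neg c2]
          linarith
      · have : D (prepAw I (2 * j)) = 1 := by
          simp only [D]
          rw [prepA_w_names I hb h1, prepA_slotVar_even, if_neg c1]
        linarith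
  have hP : 0 ≤ ∑ j ∈ range I.2.length, prepAbad I t (prepAw I (2 * j)) 8 :=
    Finset.sum_nonneg fun j _ => prepA_bad_nonneg I t _ 8
  rw [he1] at he
  rw [hc] at hb1
  linarith

lemma prepA_sat [DecidableEq A] (hb : Bdd I) {n : ℕ} {G : RG (Fin n) 17 A}
    (hG : ∀ i v, ((G.nb i v).val, G.con i v) = pent I i v.val) (h : Sat I) : G.Sat := by
  obtain ⟨s, hs⟩ := h
  refine ⟨fun v => s ((names I).getD v.val (0, 0)).1, fun i v => ?_⟩
  have h1 := congrArg Prod.fst (hG i v)
  have h2 := congrArg Prod.snd (hG i v)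
  simp only at h1 h2
  rw [h2]
  simp only [h1]
  by_cases h9 : 9 ≤ i.val
  · unfold pent
    rw [dif_pos h9]
  by_cases hv : base I I.1 ≤ v.val
  · unfold pent
    rw [dif_neg h9, if_pos hv]
  obtain ⟨x, p, hx, hp, hvx⟩ := names_surj I (not_le.1 hv)
  have hnm := (names_get I hx hp).2
  by_cases h8 : i.val < 8
  · have e := prepA_pent_lo I ⟨i.val, h8⟩ hx hp
    have e' : (⟨(⟨i.val, h8⟩ : Fin 8).val, by omega⟩ : Fin 17) = i := rfl
    rw [e', ← hvx] at e
    rw [e]
    simp only [decide_eq_true_eq]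
    rw [hvx, hnm, (names_get I hx (mgg_lt hp _)).2]
  have hi : i = 8 := by
    apply Fin.ext
    have : ((8 : Fin 17) : ℕ) = 8 := rfl
    omega
  subst hi
  by_cases ho : (occ I x).length ≤ p
  · unfold pent
    rw [dif_neg h9, if_neg hv, hvx, hnm]
    simp only
    rw [dif_neg (by decide), if_pos ho]
  obtain ⟨he, hex, her⟩ := occ_get I (not_le.1 ho)
  have hw : v.val = prepAw I ((occ I x).getD p 0) := by
    unfold prepAw
    rw [hex, her, hvx]
  rw [hw, prepA_pent_eight I hb he, prepA_w_names I hb he, prepA_w_names I hb (mate_lt I he)]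
  simp only
  generalize (occ I x).getD p 0 = e at he
  rcases Nat.even_or_odd' e with ⟨j, rfl | rfl⟩
  · rw [prepA_slotCon_even, prepA_mate_even, prepA_slotVar_even, prepA_slotVar_odd]
    have hj : j < I.2.length := by omega
    have hm : cst I j ∈ I.2 := by
      unfold cst
      rw [List.getD_eq_getElem _ _ hj]
      exact List.getElem_mem hj
    exact hs _ hm
  · have hmo : mate (2 * j + 1) = 2 * j := by
      rw [← prepA_mate_even, mate_mate]
    rw [prepA_slotCon_odd, hmo, prepA_slotVar_even, prepA_slotVar_odd]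
    have hj : j < I.2.length := by omega
    have hm : cst I j ∈ I.2 := by
      unfold cst
      rw [List.getD_eq_getElem _ _ hj]
      exact List.getElem_mem hj
    exact hs _ hm

end prepAux

theorem prep_spec {A : Type} [Finite A] [DecidableEq A] [Nonempty A] (I : Inst A) (hb : Bdd I)
    (hne : I.2 ≠ []) : ∃ (n : ℕ) (G : RG (Fin n) 17 A), Repr (prep I) G ∧ G.bk = bk17 ∧ 0 < n ∧
      n ≤ 32 * I.2.length ∧ G.Spec (163 / 170) ∧ (Sat I → G.Sat) ∧
      ∀ e : ℝ, 0 ≤ e → Gap e I → G.Gap (7 / 10880 * e) := by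
  obtain ⟨G, hbk, hG, hrep⟩ := prep_graph I hb
  have hlen : 0 < I.2.length := List.length_pos_iff.2 hne
  have hle := prepA_side_le I hb
  refine ⟨side I * side I, G, hrep, hbk, ?_, hle, prepA_spec I rfl hG,
    prepA_sat I hb hG, ?_⟩
  · have h1 := prepA_base_ge I hb
    have h2 := prepA_side_ge I
    omega
  · intro e he hgap s'
    obtain ⟨s, hs⟩ := prepA_gap I hb (prepA_side_ge I) hG s'
    refine le_trans ?_ hs
    have h1 := hgap s
    have h2 : ((side I * side I : ℕ) : ℝ) ≤ 32 * I.2.length := by exact_mod_cast hle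
    rw [Fintype.card_fin]
    have h3 : e * ((side I * side I : ℕ) : ℝ) ≤ e * (32 * I.2.length) :=
      mul_le_mul_of_nonneg_left h2 he
    push_cast at h3 ⊢
    nlinarith

end Pool.Agent.Lib.PCP
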