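import Pool.Agent.Lib.PCP.PTPrep
import Pool.Agent.Lib.PCP.PTPow
import Pool.Agent.Lib.PCP.PTComp
import Pool.Agent.Lib.PCP.PTEnds
import Pool.Agent.Lib.PCP.Prep
import Pool.Agent.Lib.PCP.PowInst
import Pool.Agent.Lib.PCP.Comp
import Pool.Agent.Lib.PCP.Ends

/-!
# The PCP theorem: assembly
-/

set_option autoImplicit false

namespace Pool.Agent.Lib.PCP

open Pool.Agent.Lib.helper60
open Pool.Agent.H66 (Cl Sat3)
open Finset (range)
open Function

/-! ### one round -/

lemma cpow_pos (A : Type) [Finite A] [Nonempty A] {lam : ℝ} (h1 : lam < 1) : 0 < cpow A lam := by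
  unfold cpow
  have : 0 < 1 - lam := by linarith
  have hA : (0 : ℝ) < Nat.card A := by exact_mod_cast Nat.card_pos
  positivity

lemma cpow_le_one (A : Type) [Finite A] [Nonempty A] {lam : ℝ} (h1 : lam < 1) :
    cpow A lam ≤ 1 := by
  unfold cpow
  have : 0 < 1 - lam := by linarith
  have hA : (1 : ℝ) ≤ Nat.card A := by exact_mod_cast Nat.card_pos
  have h2 : (1 : ℝ) ≤ (Nat.card A : ℝ) ^ 4 := one_le_pow₀ hA
  have h3 : 0 < 2 / (1 - lam) := by positivity
  rw [div_le_one (by positivity)]
  nlinarith

/-- the constant of the whole round -/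
noncomputable def c0 : ℝ := cpow A0 (163 / 170) / 960

lemma c0_pos : 0 < c0 := by
  unfold c0
  have := cpow_pos A0 (lam := 163 / 170) (by norm_num)
  positivity

lemma c0_le_one : c0 ≤ 1 := by
  unfold c0
  have := cpow_le_one A0 (lam := 163 / 170) (by norm_num)
  linarith

lemma gap_mono {A : Type} {I : Inst A} {e e' : ℝ} (h : e' ≤ e) (hg : Gap e I) : Gap e' I :=
  fun s => (mul_le_mul_of_nonneg_right h (Nat.cast_nonneg _)).trans (hg s)

/-- growth factor of a round -/
noncomputable def growth (h : ℕ) : ℕ :=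
  32 * (walks 17 h).length * ((tests (Op 17 (2 * h + 1) A0)).length * 4) +
    (32 * Nat.card (Op 17 (2 * h + 1) A0 → Bool) +
      32 * (walks 17 h).length * Nat.card (Op 17 (2 * h + 1) A0 × Op 17 (2 * h + 1) A0 → Bool) +
      32 * (walks 17 h).length * (tests (Op 17 (2 * h + 1) A0)).length) + 1

theorem round_spec (h : ℕ) (I : Inst A0) (hb : Bdd I) (hne : I.2 ≠ []) :
    Bdd (round h I) ∧ (round h I).2 ≠ [] ∧ (round h I).2.length ≤ growth h * I.2.length ∧
      (round h I).1 ≤ growth h * I.2.length ∧ (Sat I → Sat (round h I)) ∧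
      ∀ e : ℝ, 0 ≤ e → Gap e I →
        Gap (c0 * min ((h + 1) * (7 / 10880 * e)) 1) (round h I) := by
  obtain ⟨n, G, hR, hbk, hn, hnle, hspec, hsat, hgap⟩ := prep_spec I hb hne
  obtain ⟨p1, pb, pl, ps, pg⟩ := powInst_spec hn (by norm_num) G (prep I) hR h
  rw [hbk] at p1 pb pl ps pg
  obtain ⟨cb, cl, cs, cg⟩ := compInst_spec _ pb
  have hL := tests_length_pos (Op 17 (2 * h + 1) A0)
  have hW : 0 < (walks 17 h).length := by
    rw [walks_length]
    positivity
  have hlen : (round h I).2.length =
      n * (walks 17 h).length * ((tests (Op 17 (2 * h + 1) A0)).length * 4) := by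
    unfold round
    rw [cl, pl]
  refine ⟨cb, ?_, ?_, ?_, fun hs => cs (ps (hsat hs)), ?_⟩
  · intro h0
    have h5 : (round h I).2.length = 0 := by rw [h0]; rfl
    rw [h5] at hlen
    have : 0 < n * (walks 17 h).length * ((tests (Op 17 (2 * h + 1) A0)).length * 4) := by
      positivity
    rw [← hlen] at this
    exact lt_irrefl _ this
  · rw [hlen]
    calc n * (walks 17 h).length * ((tests (Op 17 (2 * h + 1) A0)).length * 4)
        ≤ (32 * I.2.length) * (walks 17 h).length *
            ((tests (Op 17 (2 * h + 1) A0)).length * 4) := by gcongr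
      _ = (32 * (walks 17 h).length * ((tests (Op 17 (2 * h + 1) A0)).length * 4)) *
            I.2.length := by ring
      _ ≤ growth h * I.2.length := by
          apply Nat.mul_le_mul_right
          unfold growth
          omega
  · unfold round
    have e1 : (compInst (powInst bk17 h (prep I))).1 =
        n * Nat.card (Op 17 (2 * h + 1) A0 → Bool) +
          ((n * (walks 17 h).length) *
              Nat.card (Op 17 (2 * h + 1) A0 × Op 17 (2 * h + 1) A0 → Bool) +
            (n * (walks 17 h).length) * (tests (Op 17 (2 * h + 1) A0)).length) := by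
      unfold compInst
      simp only [p1, pl]
    rw [e1]
    calc n * Nat.card (Op 17 (2 * h + 1) A0 → Bool) +
          ((n * (walks 17 h).length) *
              Nat.card (Op 17 (2 * h + 1) A0 × Op 17 (2 * h + 1) A0 → Bool) +
            (n * (walks 17 h).length) * (tests (Op 17 (2 * h + 1) A0)).length)
        ≤ (32 * I.2.length) * Nat.card (Op 17 (2 * h + 1) A0 → Bool) +
          (((32 * I.2.length) * (walks 17 h).length) *
              Nat.card (Op 17 (2 * h + 1) A0 × Op 17 (2 * h + 1) A0 → Bool) +
            ((32 * I.2.length) * (walks 17 h).length) *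
              (tests (Op 17 (2 * h + 1) A0)).length) := by gcongr
      _ = (32 * Nat.card (Op 17 (2 * h + 1) A0 → Bool) +
      32 * (walks 17 h).length * Nat.card (Op 17 (2 * h + 1) A0 × Op 17 (2 * h + 1) A0 → Bool) +
      32 * (walks 17 h).length * (tests (Op 17 (2 * h + 1) A0)).length) * I.2.length := by ring
      _ ≤ growth h * I.2.length := by
          apply Nat.mul_le_mul_right
          unfold growth
          omega
  · intro e he hg
    have g1 := hgap e he hg
    have g2 := pg (163 / 170) (7 / 10880 * e) (by norm_num) (by norm_num) hspec (by positivity) g1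
    have hm : 0 ≤ min (((h : ℝ) + 1) * (7 / 10880 * e)) 1 := le_min (by positivity) zero_le_one
    have hc := cpow_pos A0 (lam := 163 / 170) (by norm_num)
    have g3 := cg _ (by positivity) g2
    refine gap_mono (le_of_eq ?_) g3
    unfold c0
    ring

/-! ### iteration -/

theorem iter_spec (h : ℕ) (hh : 2 ≤ c0 * ((h + 1) * (7 / 10880))) (I : Inst A0) (hb : Bdd I)
    (hne : I.2 ≠ []) (i : ℕ) :
    Bdd ((round h)^[i] I) ∧ ((round h)^[i] I).2 ≠ [] ∧
      ((round h)^[i] I).2.length ≤ growth h ^ i * I.2.length ∧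
      ((round h)^[i] I).1 ≤ growth h ^ i * (I.1 + I.2.length) ∧
      (Sat I → Sat ((round h)^[i] I)) ∧
      ((∀ s, 1 ≤ viol I s) → Gap (min (2 ^ i / I.2.length) c0) ((round h)^[i] I)) := by
  have hg1 : 1 ≤ growth h := by unfold growth; omega
  have hlen : (0 : ℝ) < I.2.length := by
    have : 0 < I.2.length := List.length_pos_iff.2 hne
    exact_mod_cast this
  induction i with
  | zero =>
    refine ⟨hb, hne, by simp, by simp, fun h => h, fun hv s => ?_⟩
    have h1 : min ((2 : ℝ) ^ 0 / I.2.length) c0 ≤ 1 / I.2.length := by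
      rw [pow_zero]
      exact min_le_left _ _
    have h2 : min ((2 : ℝ) ^ 0 / I.2.length) c0 * I.2.length ≤ 1 / I.2.length * I.2.length :=
      mul_le_mul_of_nonneg_right h1 hlen.le
    rw [div_mul_cancel₀ _ hlen.ne'] at h2
    refine h2.trans ?_
    exact_mod_cast hv s
  | succ i ih =>
    obtain ⟨b, ne, l, n1, st, gp⟩ := ih
    rw [iterate_succ_apply']
    obtain ⟨b', ne', l', n', st', gp'⟩ := round_spec h _ b ne
    refine ⟨b', ne', ?_, ?_, fun hs => st' (st hs), fun hv => ?_⟩
    · calc (round h ((round h)^[i] I)).2.length ≤ growth h * ((round h)^[i] I).2.length := l'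
        _ ≤ growth h * (growth h ^ i * I.2.length) := Nat.mul_le_mul_left _ l
        _ = _ := by ring
    · calc (round h ((round h)^[i] I)).1 ≤ growth h * ((round h)^[i] I).2.length := n'
        _ ≤ growth h * (growth h ^ i * I.2.length) := Nat.mul_le_mul_left _ l
        _ = growth h ^ (i + 1) * I.2.length := by ring
        _ ≤ _ := Nat.mul_le_mul_left _ (Nat.le_add_left _ _)
    · have g1 := gp hv
      set e := min ((2 : ℝ) ^ i / I.2.length) c0 with he
      have he0 : 0 ≤ e := le_min (by positivity) c0_pos.le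
      refine gap_mono ?_ (gp' e he0 g1)
      have hc0 := c0_pos
      rcases le_total (((h : ℝ) + 1) * (7 / 10880 * e)) 1 with h1 | h1
      · rw [min_eq_left h1]
        have h2 : 2 * e ≤ c0 * (((h : ℝ) + 1) * (7 / 10880 * e)) := by
          have := mul_le_mul_of_nonneg_right hh he0
          calc 2 * e ≤ c0 * ((h + 1) * (7 / 10880)) * e := this
            _ = _ := by ring
        refine le_trans ?_ h2
        rw [he, mul_min_of_nonneg _ _ (by norm_num : (0 : ℝ) ≤ 2)]
        refine min_le_min (le_of_eq ?_) (by linarith)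
        rw [pow_succ]
        ring
      · rw [min_eq_right h1, mul_one]
        exact min_le_right _ _

/-! ### the reduction is polynomial-time -/

theorem PT_round (h : ℕ) : PT (round h) :=
  PT_compInst.comp ((PT_powInst bk17 h).comp PT_prep)

/-- the formula with a tautology in front -/
def pad (φ : List Cl) : List Cl := ((true, 0), (false, 0), (true, 0)) :: φ

lemma sat_pad (φ : List Cl) : Sat3 (pad φ) ↔ Sat3 φ := by
  unfold Sat3 pad
  refine exists_congr fun t => ?_
  constructor
  · intro h c hc
    exact h c (List.mem_cons_of_mem _ hc)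
  · intro h c hc
    rcases List.mem_cons.1 hc with rfl | hc
    · unfold H66.ClSat H66.LitSat
      cases t 0 <;> simp
    · exact h c hc

lemma start_ne (φ : List Cl) : (startInst (pad φ)).2 ≠ [] := by
  have := (startInst_spec (pad φ)).2.1
  intro h
  rw [h] at this
  simp [pad] at this

theorem PT_iter (h : ℕ) (hh : 2 ≤ c0 * ((h + 1) * (7 / 10880))) :
    PT (fun φ : List Cl => (round h)^[rounds (startInst (pad φ)).2.length]
      (startInst (pad φ))) := by
  have hpad : PT pad := PT.cons (PT.const _) PT.id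
  have hinit : PT (fun φ : List Cl => startInst (pad φ)) := PT_startInst.comp hpad
  have hlen : PT (fun φ : List Cl => (startInst (pad φ)).2.length) := PT.length hinit.p2
  have hcount : PT (fun φ : List Cl => rounds (startInst (pad φ)).2.length) :=
    PT_rounds.comp hlen
  refine PT.iterateNat hcount hinit (PT_round h) ?_
  obtain ⟨K, hK⟩ := tsize_inst_le
  obtain ⟨c, hc⟩ : ∃ c, growth h ≤ 2 ^ c := ⟨growth h, Nat.lt_two_pow_self.le⟩
  -- polynomial bounds
  have hS : PB (fun φ : List Cl => tsize (startInst (pad φ))) := hinit.size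
  refine ⟨fun φ => K * ((2 * tsize (startInst (pad φ)) + 1) ^ c *
      (tsize (startInst (pad φ)) + tsize (startInst (pad φ))) + 1) *
      ((2 * tsize (startInst (pad φ)) + 1) ^ c * tsize (startInst (pad φ)) + 1), ?_, ?_⟩
  · have h1 : PB (fun φ : List Cl => (2 * tsize (startInst (pad φ)) + 1) ^ c) :=
      (((PB.const 2).mul hS).add (PB.const 1)).pow c
    exact ((PB.const K).mul ((h1.mul (hS.add hS)).add (PB.const 1))).mul
      ((h1.mul hS).add (PB.const 1))
  · intro φ i hi
    have hbd := (startInst_spec (pad φ)).1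
    obtain ⟨b, -, l, n1, -, -⟩ := iter_spec h hh (startInst (pad φ)) hbd (start_ne φ) i
    refine (hK _ b).trans ?_
    set J := startInst (pad φ) with hJ
    have hl1 : J.2.length ≤ tsize J := by
      have h2 := length_lt_tsize J.2
      have h3 : tsize J = tsize J.1 + tsize J.2 + 1 := tsize_pair J.1 J.2
      omega
    have hn1 : J.1 ≤ tsize J := by
      have h3 : tsize J = tsize J.1 + tsize J.2 + 1 := tsize_pair J.1 J.2
      rw [tsize_nat] at h3
      omega
    have hpow : growth h ^ i ≤ (2 * tsize J + 1) ^ c := by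
      calc growth h ^ i ≤ (2 ^ c) ^ i := Nat.pow_le_pow_left hc i
        _ = (2 ^ i) ^ c := by rw [← pow_mul, ← pow_mul, mul_comm]
        _ ≤ (2 ^ rounds J.2.length) ^ c :=
          Nat.pow_le_pow_left (Nat.pow_le_pow_right (by norm_num) hi) c
        _ ≤ (2 * J.2.length + 1) ^ c := Nat.pow_le_pow_left (rounds_spec _).2 c
        _ ≤ _ := Nat.pow_le_pow_left (by omega) c
    have hA : ((round h)^[i] J).1 + 1 ≤ (2 * tsize J + 1) ^ c * (tsize J + tsize J) + 1 := by
      have := n1.trans (Nat.mul_le_mul hpow (Nat.add_le_add hn1 hl1))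
      omega
    have hB : ((round h)^[i] J).2.length + 1 ≤ (2 * tsize J + 1) ^ c * tsize J + 1 := by
      have := l.trans (Nat.mul_le_mul hpow hl1)
      omega
    exact Nat.mul_le_mul (Nat.mul_le_mul_left K hA) hB

/-- **The PCP theorem** (gap 3-SAT form). -/
theorem pcp_core : ∃ e : ℚ, 0 < e ∧ ∃ F : List Cl → List Cl, PT F ∧ (∀ φ, F φ ≠ []) ∧
    (∀ φ, Sat3 φ → Sat3 (F φ)) ∧
    ∀ φ, ¬ Sat3 φ → ∀ t : ℕ → Bool,
      (e : ℝ) * (F φ).length ≤ (((F φ).countP (fun c => !clB t c) : ℕ) : ℝ) := by
  have hc0 := c0_pos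
  obtain ⟨h, hh⟩ : ∃ h : ℕ, 2 ≤ c0 * (((h : ℝ) + 1) * (7 / 10880)) := by
    obtain ⟨h, hh⟩ := exists_nat_ge (2 / (c0 * (7 / 10880)))
    refine ⟨h, ?_⟩
    rw [div_le_iff₀ (by positivity)] at hh
    nlinarith
  obtain ⟨e, he0, he1⟩ := exists_rat_btwn (show (0 : ℝ) < c0 / 1536 by positivity)
  have he0' : 0 < e := by exact_mod_cast he0
  refine ⟨e, he0', fun φ => finalCl ((round h)^[rounds (startInst (pad φ)).2.length]
      (startInst (pad φ))), PT_finalCl.comp (PT_iter h hh), ?_, ?_, ?_⟩
  · intro φ h0
    obtain ⟨b, ne, -⟩ := iter_spec h hh (startInst (pad φ)) (startInst_spec _).1 (start_ne φ)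
      (rounds (startInst (pad φ)).2.length)
    have h1 := (finalCl_spec _ b).1
    have h2 := List.length_pos_iff.2 ne
    have h3 : (finalCl ((round h)^[rounds (startInst (pad φ)).2.length]
      (startInst (pad φ)))).length = 0 := by
      have h4 : finalCl ((round h)^[rounds (startInst (pad φ)).2.length]
        (startInst (pad φ))) = [] := h0
      rw [h4]
      rfl
    omega
  · intro φ hs
    obtain ⟨b, ne, -, -, st, -⟩ := iter_spec h hh (startInst (pad φ)) (startInst_spec _).1
      (start_ne φ) (rounds (startInst (pad φ)).2.length)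
    exact (finalCl_spec _ b).2.1 (st ((startInst_spec _).2.2.1 ((sat_pad φ).2 hs)))
  · intro φ hs t
    obtain ⟨b, ne, -, -, -, gp⟩ := iter_spec h hh (startInst (pad φ)) (startInst_spec _).1
      (start_ne φ) (rounds (startInst (pad φ)).2.length)
    have hv := (startInst_spec (pad φ)).2.2.2 (fun h => hs ((sat_pad φ).1 h))
    have g1 := gp hv
    have hm : c0 ≤ min (2 ^ rounds (startInst (pad φ)).2.length /
        ((startInst (pad φ)).2.length : ℝ)) c0 := by
      refine le_min ?_ le_rfl
      have hpos : (0 : ℝ) < (startInst (pad φ)).2.length := by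
        have := List.length_pos_iff.2 (start_ne φ)
        exact_mod_cast this
      have h3 : (1 : ℝ) ≤ 2 ^ rounds (startInst (pad φ)).2.length /
          ((startInst (pad φ)).2.length : ℝ) := by
        rw [one_le_div hpos]
        exact_mod_cast (rounds_spec _).1
      exact c0_le_one.trans h3
    have g2 := (finalCl_spec _ b).2.2 c0 hc0.le (gap_mono hm g1) t
    refine le_trans ?_ g2
    exact mul_le_mul_of_nonneg_right he1.le (Nat.cast_nonneg _)

end Pool.Agent.Lib.PCP
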