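import Pool.Agent.Lib.PCP.MGG2

/-!
# The PCP theorem: the expander of Margulis, Gabber and Galil
-/

set_option autoImplicit false

namespace Pool.Agent.Lib.PCP

open Pool.Agent.Lib.helper60
open Pool.Agent.H66 (Cl Sat3)
open Finset (range)

/-- arithmetic of the codes `a * m + b` -/
theorem mggE_div {m a b : ℕ} (hb : b < m) : (a * m + b) / m = a := by
  have hm : 0 < m := by omega
  rw [Nat.add_comm, Nat.add_mul_div_right _ _ hm, Nat.div_eq_of_lt hb, zero_add]

theorem mggE_mod {m a b : ℕ} (hb : b < m) : (a * m + b) % m = b := by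
  rw [Nat.add_comm, Nat.add_mul_mod_self_right, Nat.mod_eq_of_lt hb]

theorem mggE_code_lt {m a b : ℕ} (ha : a < m) (hb : b < m) : a * m + b < m * m := by
  have h1 : (a + 1) * m ≤ m * m := Nat.mul_le_mul_right m ha
  rw [Nat.add_mul, one_mul] at h1
  omega

theorem mggE_dm {m p : ℕ} (hp : p < m * m) : p / m < m ∧ p % m < m ∧ p = p / m * m + p % m := by
  have hm : 0 < m := by
    rcases Nat.eq_zero_or_pos m with h | h
    · subst h; simp at hp
    · exact h
  refine ⟨Nat.div_lt_of_lt_mul hp, Nat.mod_lt _ hm, ?_⟩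
  rw [mul_comm]
  exact (Nat.div_add_mod p m).symm

theorem mgg_lt {m p : ℕ} (hp : p < m * m) (i : Fin 8) : mgg m p i < m * m := by
  obtain ⟨ha, hb, -⟩ := mggE_dm hp
  have hm : 0 < m := by omega
  fin_cases i <;> simp only [mgg] <;> apply mggE_code_lt <;> first | assumption | exact Nat.mod_lt _ hm

theorem mggE_shift {m x y z : ℕ} (k : ℕ) (hx : x < m) (h : y + z = x + k * m) :
    (y % m + z) % m = x := by
  rw [Nat.mod_add_mod, h, Nat.add_mul_mod_self_right, Nat.mod_eq_of_lt hx]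

/-- the eight neighbours of `a * m + b` -/
theorem mggE_eval {m a b : ℕ} (hb : b < m) (i : Fin 8) :
    mgg m (a * m + b) i = (![((a + 2 * b) % m) * m + b, ((a + 2 * (m - b)) % m) * m + b,
      a * m + (b + 2 * a) % m, a * m + (b + 2 * (m - a)) % m,
      ((a + 2 * b + 1) % m) * m + b, ((a + 2 * (m - b) + (m - 1)) % m) * m + b,
      a * m + (b + 2 * a + 1) % m, a * m + (b + 2 * (m - a) + (m - 1)) % m] : Fin 8 → ℕ) i := by
  have h1 := mggE_div (a := a) hb
  have h2 := mggE_mod (a := a) hb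
  fin_cases i <;> simp only [mgg, h1, h2] <;> rfl

theorem mgg_bk {m p : ℕ} (hp : p < m * m) (i : Fin 8) : mgg m (mgg m p i) (bk8 i) = p := by
  obtain ⟨ha, hb, hpe⟩ := mggE_dm hp
  have hm : 0 < m := by omega
  generalize p / m = a at *
  generalize p % m = b at *
  subst hpe
  have hml : ∀ x, x % m < m := fun x => Nat.mod_lt _ hm
  rw [mggE_eval hb]
  fin_cases i
  · change mgg m (((a + 2 * b) % m) * m + b) 1 = _
    rw [mggE_eval hb]
    change (((a + 2 * b) % m + 2 * (m - b)) % m) * m + b = _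
    rw [mggE_shift 2 ha (by omega)]
  · change mgg m (((a + 2 * (m - b)) % m) * m + b) 0 = _
    rw [mggE_eval hb]
    change (((a + 2 * (m - b)) % m + 2 * b) % m) * m + b = _
    rw [mggE_shift 2 ha (by omega)]
  · change mgg m (a * m + (b + 2 * a) % m) 3 = _
    rw [mggE_eval (hml _)]
    change a * m + ((b + 2 * a) % m + 2 * (m - a)) % m = _
    rw [mggE_shift 2 hb (by omega)]
  · change mgg m (a * m + (b + 2 * (m - a)) % m) 2 = _
    rw [mggE_eval (hml _)]
    change a * m + ((b + 2 * (m - a)) % m + 2 * a) % m = _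
    rw [mggE_shift 2 hb (by omega)]
  · change mgg m (((a + 2 * b + 1) % m) * m + b) 5 = _
    rw [mggE_eval hb]
    change (((a + 2 * b + 1) % m + 2 * (m - b) + (m - 1)) % m) * m + b = _
    rw [Nat.add_assoc ((a + 2 * b + 1) % m), mggE_shift 3 ha (by omega)]
  · change mgg m (((a + 2 * (m - b) + (m - 1)) % m) * m + b) 4 = _
    rw [mggE_eval hb]
    change (((a + 2 * (m - b) + (m - 1)) % m + 2 * b + 1) % m) * m + b = _
    rw [Nat.add_assoc ((a + 2 * (m - b) + (m - 1)) % m), mggE_shift 3 ha (by omega)]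
  · change mgg m (a * m + (b + 2 * a + 1) % m) 7 = _
    rw [mggE_eval (hml _)]
    change a * m + ((b + 2 * a + 1) % m + 2 * (m - a) + (m - 1)) % m = _
    rw [Nat.add_assoc ((b + 2 * a + 1) % m), mggE_shift 3 hb (by omega)]
  · change mgg m (a * m + (b + 2 * (m - a) + (m - 1)) % m) 6 = _
    rw [mggE_eval (hml _)]
    change a * m + ((b + 2 * (m - a) + (m - 1)) % m + 2 * a + 1) % m = _
    rw [Nat.add_assoc ((b + 2 * (m - a) + (m - 1)) % m), mggE_shift 3 hb (by omega)]

theorem mggE_bk8 (i : Fin 8) : bk8 (bk8 i) = i := by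
  fin_cases i <;> rfl

/-- the neighbour maps are permutations -/
theorem mggE_sum (m : ℕ) (i : Fin 8) (φ : ℕ → ℝ) :
    ∑ p ∈ range (m * m), φ (mgg m p i) = ∑ p ∈ range (m * m), φ p := by
  refine Finset.sum_nbij' (fun p => mgg m p i) (fun p => mgg m p (bk8 i)) ?_ ?_ ?_ ?_ ?_
  · intro p hp
    exact Finset.mem_range.2 (mgg_lt (Finset.mem_range.1 hp) i)
  · intro p hp
    exact Finset.mem_range.2 (mgg_lt (Finset.mem_range.1 hp) _)
  · intro p hp
    exact mgg_bk (Finset.mem_range.1 hp) i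
  · intro p hp
    have h := mgg_bk (Finset.mem_range.1 hp) (bk8 i)
    rw [mggE_bk8] at h
    exact h
  · intro p _
    rfl

theorem mggE_sum2 (m : ℕ) (i : Fin 8) (f g : ℕ → ℝ) :
    ∑ p ∈ range (m * m), f p * g (mgg m p i) =
      ∑ p ∈ range (m * m), g p * f (mgg m p (bk8 i)) := by
  rw [← mggE_sum m i (fun p => g p * f (mgg m p (bk8 i)))]
  refine Finset.sum_congr rfl fun p hp => ?_
  rw [mgg_bk (Finset.mem_range.1 hp), mul_comm]

/-- the adjacency operator -/
noncomputable def mggE_A (m : ℕ) (f : ℕ → ℝ) (p : ℕ) : ℝ := ∑ i, f (mgg m p i)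

theorem mggE_A_sum (m : ℕ) (f : ℕ → ℝ) :
    ∑ p ∈ range (m * m), mggE_A m f p = 8 * ∑ p ∈ range (m * m), f p := by
  unfold mggE_A
  rw [Finset.sum_comm]
  simp only [mggE_sum]
  simp

theorem mggE_symm (m : ℕ) (f g : ℕ → ℝ) :
    ∑ p ∈ range (m * m), f p * mggE_A m g p = ∑ p ∈ range (m * m), g p * mggE_A m f p := by
  unfold mggE_A
  simp only [Finset.mul_sum]
  rw [Finset.sum_comm, Finset.sum_comm (s := range (m * m))]
  simp only [mggE_sum2 m _ f g]
  exact Equiv.sum_comp (Function.Involutive.toPerm bk8 mggE_bk8)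
    (fun i => ∑ p ∈ range (m * m), g p * f (mgg m p i))

/-- reindexing by pairs of residues -/
theorem mggE_zmod (m : ℕ) [NeZero m] (φ : ℕ → ℝ) :
    ∑ z : ZMod m × ZMod m, φ (z.1.val * m + z.2.val) = ∑ p ∈ range (m * m), φ p := by
  refine Finset.sum_bij' (i := fun z _ => z.1.val * m + z.2.val)
    (j := fun p _ => (((p / m : ℕ) : ZMod m), ((p % m : ℕ) : ZMod m))) ?_ ?_ ?_ ?_ ?_
  · intro z _
    exact Finset.mem_range.2 (mggE_code_lt (ZMod.val_lt _) (ZMod.val_lt _))
  · intro p _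
    exact Finset.mem_univ _
  · intro z _
    rw [mggE_div (ZMod.val_lt _), mggE_mod (ZMod.val_lt _)]
    simp
  · intro p hp
    obtain ⟨ha, hb, hpe⟩ := mggE_dm (Finset.mem_range.1 hp)
    simp only
    rw [ZMod.val_natCast, ZMod.val_natCast, Nat.mod_eq_of_lt ha, Nat.mod_mod]
    exact hpe.symm
  · intro z _
    rfl

/-- quadratic form bound -/
theorem mggE_quad (m : ℕ) (f : ℕ → ℝ) (hf : ∑ p ∈ range (m * m), f p = 0) :
    |∑ p ∈ range (m * m), f p * mggE_A m f p| ≤ 73 / 10 * ∑ p ∈ range (m * m), f p ^ 2 := by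
  rcases Nat.eq_zero_or_pos m with h | hm
  · subst h; simp
  have : NeZero m := ⟨hm.ne'⟩
  have h1 := mgg_quad m (fun z => f (z.1.val * m + z.2.val)) (by rw [mggE_zmod m f]; exact hf)
  rw [mggE_zmod m (fun p => f p ^ 2)] at h1
  have h2 : ∑ z : ZMod m × ZMod m, f (z.1.val * m + z.2.val) *
      (f ((z.1 + 2 * z.2).val * m + z.2.val) + f ((z.1 + 2 * z.2 + 1).val * m + z.2.val) +
        f (z.1.val * m + (z.2 + 2 * z.1).val) + f (z.1.val * m + (z.2 + 2 * z.1 + 1).val)) =
      ∑ p ∈ range (m * m), f p * (f (mgg m p 0) + f (mgg m p 4) + f (mgg m p 2) + f (mgg m p 6)) := by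
    rw [← mggE_zmod m]
    refine Finset.sum_congr rfl fun z _ => ?_
    have hb := ZMod.val_lt z.2
    have e0 : (z.1 + 2 * z.2).val = (z.1.val + 2 * z.2.val) % m := by
      rw [← ZMod.val_natCast]
      congr 1
      push_cast
      simp
    have e1 : (z.1 + 2 * z.2 + 1).val = (z.1.val + 2 * z.2.val + 1) % m := by
      rw [← ZMod.val_natCast]
      congr 1
      push_cast
      simp
    have e2 : (z.2 + 2 * z.1).val = (z.2.val + 2 * z.1.val) % m := by
      rw [← ZMod.val_natCast]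
      congr 1
      push_cast
      simp
    have e3 : (z.2 + 2 * z.1 + 1).val = (z.2.val + 2 * z.1.val + 1) % m := by
      rw [← ZMod.val_natCast]
      congr 1
      push_cast
      simp
    rw [e0, e1, e2, e3, mggE_eval hb, mggE_eval hb, mggE_eval hb, mggE_eval hb]
    rfl
  have h3 : ∑ p ∈ range (m * m), f p * mggE_A m f p = 2 * ∑ p ∈ range (m * m),
      f p * (f (mgg m p 0) + f (mgg m p 4) + f (mgg m p 2) + f (mgg m p 6)) := by
    have e : ∀ i, ∑ p ∈ range (m * m), f p * f (mgg m p (bk8 i)) =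
        ∑ p ∈ range (m * m), f p * f (mgg m p i) := fun i => (mggE_sum2 m i f f).symm
    unfold mggE_A
    simp only [Fin.sum_univ_eight, mul_add, Finset.sum_add_distrib]
    have e0 := e 0
    have e2 := e 2
    have e4 := e 4
    have e6 := e 6
    change ∑ p ∈ range (m * m), f p * f (mgg m p 1) = _ at e0
    change ∑ p ∈ range (m * m), f p * f (mgg m p 3) = _ at e2
    change ∑ p ∈ range (m * m), f p * f (mgg m p 5) = _ at e4
    change ∑ p ∈ range (m * m), f p * f (mgg m p 7) = _ at e6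
    rw [e0, e2, e4, e6]
    ring
  rw [h3, abs_mul, abs_two, ← h2]
  linarith

theorem mgg_spec (m : ℕ) (f : ℕ → ℝ) (hf : ∑ p ∈ range (m * m), f p = 0) :
    ∑ p ∈ range (m * m), (∑ i, f (mgg m p i)) ^ 2 ≤
      (73 / 10) ^ 2 * ∑ p ∈ range (m * m), (f p) ^ 2 := by
  set c : ℝ := 73 / 10 with hc
  set Af : ℕ → ℝ := mggE_A m f with hAf
  have hAf0 : ∑ p ∈ range (m * m), Af p = 0 := by
    rw [hAf, mggE_A_sum, hf, mul_zero]
  have hlin : ∀ (t : ℝ) (p : ℕ), mggE_A m (fun q => c * f q + t * Af q) p =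
      c * Af p + t * mggE_A m Af p := by
    intro t p
    unfold mggE_A
    rw [Finset.sum_add_distrib, ← Finset.mul_sum, ← Finset.mul_sum]
    rfl
  have hq : ∀ t : ℝ, |∑ p ∈ range (m * m), (c * f p + t * Af p) * (c * Af p + t * mggE_A m Af p)|
      ≤ c * ∑ p ∈ range (m * m), (c * f p + t * Af p) ^ 2 := by
    intro t
    have h := mggE_quad m (fun q => c * f q + t * Af q) (by
      rw [Finset.sum_add_distrib, ← Finset.mul_sum, ← Finset.mul_sum, hf, hAf0]; ring)
    simp only [hlin] at h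
    exact h
  have hsym : ∑ p ∈ range (m * m), f p * mggE_A m Af p = ∑ p ∈ range (m * m), Af p ^ 2 := by
    rw [mggE_symm]
    refine Finset.sum_congr rfl fun p _ => ?_
    rw [hAf]; ring
  have h1 := le_of_abs_le (hq 1)
  have h2 := neg_le_of_abs_le (hq (-1))
  set a := ∑ p ∈ range (m * m), f p ^ 2 with ha
  set b := ∑ p ∈ range (m * m), Af p ^ 2 with hb
  set x := ∑ p ∈ range (m * m), f p * Af p with hx
  set y := ∑ p ∈ range (m * m), Af p * mggE_A m Af p with hy
  have e1 : ∀ t : ℝ, ∑ p ∈ range (m * m), (c * f p + t * Af p) * (c * Af p + t * mggE_A m Af p) =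
      c ^ 2 * x + t * c * b + t * c * b + t ^ 2 * y := by
    intro t
    have hk : ∑ p ∈ range (m * m), (c * f p + t * Af p) * (c * Af p + t * mggE_A m Af p) =
        c ^ 2 * x + t * c * (∑ p ∈ range (m * m), f p * mggE_A m Af p) + t * c * b + t ^ 2 * y := by
      rw [hx, hb, hy, Finset.mul_sum, Finset.mul_sum, Finset.mul_sum, Finset.mul_sum,
        ← Finset.sum_add_distrib, ← Finset.sum_add_distrib, ← Finset.sum_add_distrib]
      refine Finset.sum_congr rfl fun p _ => ?_
      ring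
    rw [hk, hsym]
  have e2 : ∀ t : ℝ, ∑ p ∈ range (m * m), (c * f p + t * Af p) ^ 2 =
      c ^ 2 * a + 2 * t * c * x + t ^ 2 * b := by
    intro t
    rw [ha, hb, hx, Finset.mul_sum, Finset.mul_sum, Finset.mul_sum, ← Finset.sum_add_distrib,
      ← Finset.sum_add_distrib]
    refine Finset.sum_congr rfl fun p _ => ?_
    ring
  rw [e1, e2] at h1 h2
  change b ≤ _
  have h3 : c * b ≤ c * (c ^ 2 * a) := by linarith
  exact le_of_mul_le_mul_left h3 (by rw [hc]; norm_num)

/-- edge expansion -/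
theorem mgg_expand (m : ℕ) (S : Finset ℕ) (hS : S ⊆ range (m * m)) :
    (7 / 10 : ℝ) * (S.card * (m * m - S.card)) ≤
      m * m * (((S ×ˢ (Finset.univ : Finset (Fin 8))).filter
        (fun q => mgg m q.1 q.2 ∉ S)).card : ℝ) := by
  rcases Nat.eq_zero_or_pos m with h | hm
  · subst h
    have : S = ∅ := by simpa using hS
    subst this
    simp
  have hN : (0 : ℝ) < m * m := by positivity
  -- the indicator
  set χ : ℕ → ℝ := fun p => if p ∈ S then 1 else 0 with hχ
  set E : ℝ := (((S ×ˢ (Finset.univ : Finset (Fin 8))).filter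
        (fun q => mgg m q.1 q.2 ∉ S)).card : ℝ) with hE
  set k : ℝ := (S.card : ℝ) with hk
  have hsumχ : ∀ φ : ℕ → ℝ, ∑ p ∈ range (m * m), χ p * φ p = ∑ p ∈ S, φ p := by
    intro φ
    rw [← Finset.sum_subset hS (fun p _ hp => by simp [hχ, hp])]
    exact Finset.sum_congr rfl fun p hp => by simp [hχ, hp]
  have hχ1 : ∑ p ∈ range (m * m), χ p = k := by
    have := hsumχ (fun _ => 1)
    simpa using this
  have hχ2 : ∑ p ∈ range (m * m), χ p ^ 2 = k := by
    rw [← hχ1]
    refine Finset.sum_congr rfl fun p _ => ?_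
    by_cases hp : p ∈ S <;> simp [hχ, hp]
  -- the quadratic form of the indicator
  have hχA : ∑ p ∈ range (m * m), χ p * mggE_A m χ p = 8 * k - E := by
    rw [hsumχ]
    have h1 : ∀ p ∈ S, mggE_A m χ p = 8 - ∑ i : Fin 8, (if mgg m p i ∉ S then (1 : ℝ) else 0) := by
      intro p _
      unfold mggE_A
      rw [eq_sub_iff_add_eq, ← Finset.sum_add_distrib]
      have : ∀ i : Fin 8, χ (mgg m p i) + (if mgg m p i ∉ S then (1 : ℝ) else 0) = 1 := by
        intro i
        by_cases hp : mgg m p i ∈ S <;> simp [hχ, hp]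
      simp only [this]
      simp
    rw [Finset.sum_congr rfl h1, Finset.sum_sub_distrib, hE, Finset.card_filter, Finset.sum_product]
    push_cast
    simp [hk]
    ring
  set c : ℝ := k / (m * m) with hc
  have hcN : c * (m * m) = k := by rw [hc]; field_simp
  have hcard : ∑ _p ∈ range (m * m), (1 : ℝ) = m * m := by simp
  have hsum0 : ∑ p ∈ range (m * m), (χ p - c) = 0 := by
    rw [Finset.sum_sub_distrib, hχ1]
    have : ∑ _p ∈ range (m * m), c = c * (m * m) := by
      rw [← hcard, Finset.mul_sum]; simp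
    rw [this, hcN, sub_self]
  have hq := le_of_abs_le (mggE_quad m (fun p => χ p - c) hsum0)
  have hA : ∀ p, mggE_A m (fun p => χ p - c) p = mggE_A m χ p - 8 * c := by
    intro p
    unfold mggE_A
    rw [Finset.sum_sub_distrib]
    simp
  have hAsum : ∑ p ∈ range (m * m), mggE_A m χ p = 8 * k := by
    rw [mggE_A_sum, hχ1]
  have e1 : ∑ p ∈ range (m * m), (χ p - c) * mggE_A m (fun p => χ p - c) p =
      8 * k - E - 8 * c * k := by
    simp only [hA]
    have : ∑ p ∈ range (m * m), (χ p - c) * (mggE_A m χ p - 8 * c) =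
        ∑ p ∈ range (m * m), χ p * mggE_A m χ p - 8 * c * ∑ p ∈ range (m * m), χ p -
          c * ∑ p ∈ range (m * m), mggE_A m χ p + 8 * c * c * ∑ _p ∈ range (m * m), (1 : ℝ) := by
      rw [Finset.mul_sum, Finset.mul_sum, Finset.mul_sum, ← Finset.sum_sub_distrib,
        ← Finset.sum_sub_distrib, ← Finset.sum_add_distrib]
      refine Finset.sum_congr rfl fun p _ => ?_
      ring
    rw [this, hχA, hχ1, hAsum, hcard]
    have : 8 * c * c * ((m : ℝ) * m) = 8 * c * k := by rw [← hcN]; ring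
    rw [this]; ring
  have e2 : ∑ p ∈ range (m * m), (χ p - c) ^ 2 = k - c * k := by
    have : ∑ p ∈ range (m * m), (χ p - c) ^ 2 = ∑ p ∈ range (m * m), χ p ^ 2 -
        2 * c * ∑ p ∈ range (m * m), χ p + c * c * ∑ _p ∈ range (m * m), (1 : ℝ) := by
      rw [Finset.mul_sum, Finset.mul_sum, ← Finset.sum_sub_distrib, ← Finset.sum_add_distrib]
      refine Finset.sum_congr rfl fun p _ => ?_
      ring
    rw [this, hχ2, hχ1, hcard]
    have : c * c * ((m : ℝ) * m) = c * k := by rw [← hcN]; ring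
    rw [this]; ring
  rw [e1, e2] at hq
  have hfin : 7 / 10 * (k - c * k) ≤ E := by linarith
  have h9 : (m : ℝ) * m * (7 / 10 * (k - c * k)) ≤ m * m * E := mul_le_mul_of_nonneg_left hfin hN.le
  have h10 : (m : ℝ) * m * (7 / 10 * (k - c * k)) = 7 / 10 * (k * (m * m - k)) := by
    have : (m : ℝ) * m * (7 / 10 * (k - c * k)) = 7 / 10 * (k * (m * m) - (c * (m * m)) * k) := by ring
    rw [this, hcN]; ring
  rw [← h10]
  exact h9

end Pool.Agent.Lib.PCP
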