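import Pool.Agent.Lib.PCP.Defs

/-!
# The PCP theorem: the combinatorial inequality for the Margulis-Gabber-Galil graph
-/

set_option autoImplicit false

namespace Pool.Agent.Lib.PCP

open Pool.Agent.Lib.helper60
open Pool.Agent.H66 (Cl Sat3)
open Finset (range)

/-- absolute value of the representative of least absolute value -/
def mgg1A {m : ℕ} (z : ZMod m) : ℕ := z.valMinAbs.natAbs

theorem mgg1_cast (m : ℕ) [NeZero m] (y : ℤ) (hy : y.natAbs ≤ m) :
    mgg1A (y : ZMod m) = min y.natAbs (m - y.natAbs) := by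
  have hm : 0 < m := Nat.pos_of_ne_zero (NeZero.ne m)
  unfold mgg1A
  rcases lt_or_ge (m : ℤ) (y * 2) with h | h
  · have : ((y : ZMod m)).valMinAbs = y - m := by
      rw [ZMod.valMinAbs_spec]
      refine ⟨by simp, ?_, ?_⟩ <;> omega
    rw [this]; omega
  · rcases lt_or_ge (-(m : ℤ)) (y * 2) with h' | h'
    · have : ((y : ZMod m)).valMinAbs = y := by
        rw [ZMod.valMinAbs_spec]
        refine ⟨by simp, ?_, ?_⟩ <;> omega
      rw [this]; omega
    · have : ((y : ZMod m)).valMinAbs = y + m := by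
        rw [ZMod.valMinAbs_spec]
        refine ⟨by simp, ?_, ?_⟩ <;> omega
      rw [this]; omega

/-- the weights -/
noncomputable def mgg1G (x y : ℕ) : ℝ := if y < x then 5 / 4 else if x < y then 4 / 5 else 1

theorem mgg1G_pos (x y : ℕ) : 0 < mgg1G x y := by
  unfold mgg1G; split_ifs <;> norm_num

theorem mgg1G_le (x y : ℕ) : mgg1G x y ≤ 5 / 4 := by
  unfold mgg1G; split_ifs <;> norm_num

theorem mgg1G_mul (x y : ℕ) : mgg1G x y * mgg1G y x = 1 := by
  unfold mgg1G; split_ifs <;> first | (exfalso; omega) | norm_num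

theorem mgg1_amgm (x y : ℕ) (s t : ℝ) :
    2 * (s * t) ≤ mgg1G x y * s ^ 2 + mgg1G y x * t ^ 2 := by
  have h1 := mgg1G_pos x y
  have h2 := mgg1G_mul x y
  have h3 : 0 ≤ (mgg1G x y * s - t) ^ 2 := sq_nonneg _
  have h4 : mgg1G x y * (2 * (s * t)) ≤ mgg1G x y * (mgg1G x y * s ^ 2 + mgg1G y x * t ^ 2) := by
    nlinarith
  exact le_of_mul_le_mul_left h4 h1

/-- the cosine in terms of the absolute value -/
theorem mgg1_cos {m : ℕ} [NeZero m] (z : ZMod m) :
    |Real.cos (Real.pi * z.val / m)| = Real.cos (Real.pi * mgg1A z / m) := by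
  have hm : 0 < m := Nat.pos_of_ne_zero (NeZero.ne m)
  have hm' : (0 : ℝ) < m := by exact_mod_cast hm
  have hlt := ZMod.val_lt z
  unfold mgg1A
  rw [ZMod.valMinAbs_natAbs_eq_min]
  rcases le_total z.val (m - z.val) with h | h
  · rw [min_eq_left h]
    apply abs_of_nonneg
    have h2 : (2 * z.val : ℝ) ≤ m := by
      have : 2 * z.val ≤ m := by omega
      exact_mod_cast this
    apply Real.cos_nonneg_of_mem_Icc
    constructor
    · have : 0 ≤ Real.pi * z.val / m := by positivity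
      linarith [Real.pi_pos]
    · rw [div_le_div_iff₀ hm' two_pos]
      nlinarith [Real.pi_pos]
  · rw [min_eq_right h]
    have h2 : ((m - z.val : ℕ) : ℝ) = m - z.val := by
      rw [Nat.cast_sub hlt.le]
    have h3 : Real.pi * ((m - z.val : ℕ) : ℝ) / m = Real.pi - Real.pi * z.val / m := by
      rw [h2]
      field_simp
    rw [h3, Real.cos_pi_sub]
    apply abs_of_nonpos
    have h4 : (m : ℝ) ≤ 2 * z.val := by
      have : m ≤ 2 * z.val := by omega
      exact_mod_cast this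
    apply Real.cos_nonpos_of_pi_div_two_le_of_le
    · rw [div_le_div_iff₀ two_pos hm']
      nlinarith [Real.pi_pos]
    · have h5 : (z.val : ℝ) ≤ m := by exact_mod_cast hlt.le
      have : Real.pi * z.val / m ≤ Real.pi := by
        rw [div_le_iff₀ hm']
        nlinarith [Real.pi_pos]
      linarith [Real.pi_pos]

theorem mgg1A_le {m : ℕ} [NeZero m] (z : ZMod m) : 2 * mgg1A z ≤ m := by
  have := ZMod.natAbs_valMinAbs_le z
  unfold mgg1A
  omega

theorem mgg1_pair (m : ℕ) (c d : ℤ) (h : 2 * (c.natAbs + d.natAbs) < m) (f1 f2 : ℕ)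
    (e1 : f1 = min (d - 2 * c).natAbs (m - (d - 2 * c).natAbs))
    (e2 : f2 = min (d + 2 * c).natAbs (m - (d + 2 * c).natAbs)) :
    (d.natAbs < c.natAbs → d.natAbs < f1 ∧ d.natAbs < f2) ∧
    (c.natAbs < d.natAbs → 0 < c.natAbs →
      (d.natAbs < f1 ∧ f2 < d.natAbs) ∨ (f1 < d.natAbs ∧ d.natAbs < f2)) ∧
    (c.natAbs = 0 → f1 = d.natAbs ∧ f2 = d.natAbs) ∧
    (c.natAbs = d.natAbs → 0 < c.natAbs →
      (f1 = d.natAbs ∧ d.natAbs < f2) ∨ (f2 = d.natAbs ∧ d.natAbs < f1)) := by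
  subst e1 e2
  refine ⟨fun h1 => ?_, fun h1 h2 => ?_, fun h1 => ?_, fun h1 h2 => ?_⟩
  · constructor <;> omega
  · rcases le_total 0 c with hc | hc <;> rcases le_total 0 d with hd | hd
    · right; constructor <;> omega
    · left; constructor <;> omega
    · left; constructor <;> omega
    · right; constructor <;> omega
  · constructor <;> omega
  · rcases le_total 0 c with hc | hc <;> rcases le_total 0 d with hd | hd
    · left; constructor <;> omega
    · right; constructor <;> omega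
    · right; constructor <;> omega
    · left; constructor <;> omega

theorem mgg1_four (a b f1 f2 f3 f4 : ℕ) (h0 : 0 < a ∨ 0 < b)
    (p1 : (b < a → b < f1 ∧ b < f2) ∧ (a < b → 0 < a → (b < f1 ∧ f2 < b) ∨ (f1 < b ∧ b < f2)) ∧
      (a = 0 → f1 = b ∧ f2 = b) ∧ (a = b → 0 < a → (f1 = b ∧ b < f2) ∨ (f2 = b ∧ b < f1)))
    (p2 : (a < b → a < f3 ∧ a < f4) ∧ (b < a → 0 < b → (a < f3 ∧ f4 < a) ∨ (f3 < a ∧ a < f4)) ∧
      (b = 0 → f3 = a ∧ f4 = a) ∧ (b = a → 0 < b → (f3 = a ∧ a < f4) ∨ (f4 = a ∧ a < f3))) :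
    mgg1G b f1 + mgg1G b f2 + (mgg1G a f3 + mgg1G a f4) ≤ 73 / 20 := by
  have g1 : ∀ x y : ℕ, x < y → mgg1G x y = 4 / 5 := by
    intro x y h; unfold mgg1G; rw [if_neg (by omega), if_pos h]
  have g2 : ∀ x y : ℕ, y < x → mgg1G x y = 5 / 4 := by
    intro x y h; unfold mgg1G; rw [if_pos h]
  have g3 : ∀ x : ℕ, mgg1G x x = 1 := by
    intro x; unfold mgg1G; rw [if_neg (by omega), if_neg (by omega)]
  obtain ⟨p1a, p1b, p1c, p1d⟩ := p1
  obtain ⟨p2a, p2b, p2c, p2d⟩ := p2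
  rcases lt_trichotomy a b with h | h | h
  · obtain ⟨q1, q2⟩ := p2a h
    rw [g1 a f3 q1, g1 a f4 q2]
    rcases Nat.eq_zero_or_pos a with ha | ha
    · obtain ⟨r1, r2⟩ := p1c ha
      rw [r1, r2, g3]; norm_num
    · rcases p1b h ha with ⟨r1, r2⟩ | ⟨r1, r2⟩
      · rw [g1 _ _ r1, g2 _ _ r2]; norm_num
      · rw [g2 _ _ r1, g1 _ _ r2]; norm_num
  · have ha : 0 < a := by omega
    rcases p1d h ha with ⟨r1, r2⟩ | ⟨r1, r2⟩ <;> rcases p2d h.symm (by omega) with ⟨s1, s2⟩ | ⟨s1, s2⟩ <;>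
      rw [r1, g3, g1 _ _ r2, s1, g3, g1 _ _ s2] <;> norm_num
  · obtain ⟨q1, q2⟩ := p1a h
    rw [g1 b f1 q1, g1 b f2 q2]
    rcases Nat.eq_zero_or_pos b with hb | hb
    · obtain ⟨r1, r2⟩ := p2c hb
      rw [r1, r2, g3]; norm_num
    · rcases p2b h hb with ⟨r1, r2⟩ | ⟨r1, r2⟩
      · rw [g1 _ _ r1, g2 _ _ r2]; norm_num
      · rw [g2 _ _ r1, g1 _ _ r2]; norm_num

theorem mgg1_bound (m : ℕ) (c d : ℤ) (h : 2 * (c.natAbs + d.natAbs) < m) :
    (d - 2 * c).natAbs ≤ m ∧ (d + 2 * c).natAbs ≤ m := by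
  constructor <;> omega

/-- the comparison of the neighbours in one coordinate -/
theorem mgg1_nb (m : ℕ) [NeZero m] (x y : ZMod m) (h : 2 * (mgg1A x + mgg1A y) < m) :
    (mgg1A y < mgg1A x → mgg1A y < mgg1A (y - 2 * x) ∧ mgg1A y < mgg1A (y + 2 * x)) ∧
    (mgg1A x < mgg1A y → 0 < mgg1A x →
      (mgg1A y < mgg1A (y - 2 * x) ∧ mgg1A (y + 2 * x) < mgg1A y) ∨
      (mgg1A (y - 2 * x) < mgg1A y ∧ mgg1A y < mgg1A (y + 2 * x))) ∧
    (mgg1A x = 0 → mgg1A (y - 2 * x) = mgg1A y ∧ mgg1A (y + 2 * x) = mgg1A y) ∧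
    (mgg1A x = mgg1A y → 0 < mgg1A x →
      (mgg1A (y - 2 * x) = mgg1A y ∧ mgg1A y < mgg1A (y + 2 * x)) ∨
      (mgg1A (y + 2 * x) = mgg1A y ∧ mgg1A y < mgg1A (y - 2 * x))) := by
  have hb := mgg1_bound m x.valMinAbs y.valMinAbs h
  refine mgg1_pair m x.valMinAbs y.valMinAbs h _ _ ?_ ?_
  · rw [← mgg1_cast m _ hb.1]
    congr 1
    push_cast
    simp
  · rw [← mgg1_cast m _ hb.2]
    congr 1
    push_cast
    simp

/-- the coefficient of `G z ^ 2` -/
theorem mgg1_coef {m : ℕ} [NeZero m] (x y : ZMod m) (hz : x ≠ 0 ∨ y ≠ 0) :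
    Real.cos (Real.pi * mgg1A x / m) *
        (mgg1G (mgg1A y) (mgg1A (y - 2 * x)) + mgg1G (mgg1A y) (mgg1A (y + 2 * x))) +
      Real.cos (Real.pi * mgg1A y / m) *
        (mgg1G (mgg1A x) (mgg1A (x - 2 * y)) + mgg1G (mgg1A x) (mgg1A (x + 2 * y))) ≤ 73 / 20 := by
  have hm : 0 < m := Nat.pos_of_ne_zero (NeZero.ne m)
  have hm' : (0 : ℝ) < m := by exact_mod_cast hm
  have hcos : ∀ z : ZMod m, 0 ≤ Real.cos (Real.pi * mgg1A z / m) ∧
      Real.cos (Real.pi * mgg1A z / m) ≤ 1 := by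
    intro z
    exact ⟨by rw [← mgg1_cos]; exact abs_nonneg _, Real.cos_le_one _⟩
  have hx := hcos x
  have hy := hcos y
  rcases lt_or_ge (2 * (mgg1A x + mgg1A y)) m with h | h
  · -- the cosines are at most 1
    have key : mgg1G (mgg1A y) (mgg1A (y - 2 * x)) + mgg1G (mgg1A y) (mgg1A (y + 2 * x)) +
        (mgg1G (mgg1A x) (mgg1A (x - 2 * y)) + mgg1G (mgg1A x) (mgg1A (x + 2 * y))) ≤ 73 / 20 := by
      have hne : 0 < mgg1A x ∨ 0 < mgg1A y := by
        rcases hz with hz | hz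
        · exact Or.inl (Int.natAbs_pos.mpr fun h => hz ((ZMod.valMinAbs_eq_zero x).mp h))
        · exact Or.inr (Int.natAbs_pos.mpr fun h => hz ((ZMod.valMinAbs_eq_zero y).mp h))
      exact mgg1_four _ _ _ _ _ _ hne (mgg1_nb m x y h) (mgg1_nb m y x (by omega))
    nlinarith [mgg1G_pos (mgg1A y) (mgg1A (y - 2 * x)), mgg1G_pos (mgg1A y) (mgg1A (y + 2 * x)),
      mgg1G_pos (mgg1A x) (mgg1A (x - 2 * y)), mgg1G_pos (mgg1A x) (mgg1A (x + 2 * y))]
  · -- the sum of the cosines is at most the square root of 2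
    have hs : Real.cos (Real.pi * mgg1A x / m) + Real.cos (Real.pi * mgg1A y / m) ≤ 146 / 100 := by
      set u := Real.pi * mgg1A x / m with hu
      have h1 : Real.pi / 2 - u ≤ Real.pi * mgg1A y / m := by
        have h2 : (m : ℝ) ≤ 2 * (mgg1A x + mgg1A y) := by exact_mod_cast h
        rw [hu, sub_le_iff_le_add, ← add_div, div_le_div_iff₀ two_pos hm']
        nlinarith [Real.pi_pos]
      have hu2 : u ≤ Real.pi / 2 := by
        have h2 : (2 * mgg1A x : ℝ) ≤ m := by exact_mod_cast mgg1A_le x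
        rw [hu, div_le_div_iff₀ hm' two_pos]
        nlinarith [Real.pi_pos]
      have hy2 : Real.pi * mgg1A y / m ≤ Real.pi := by
        have h2 : (2 * mgg1A y : ℝ) ≤ m := by exact_mod_cast mgg1A_le y
        have h3 : (0 : ℝ) ≤ mgg1A y := by positivity
        rw [div_le_iff₀ hm']
        nlinarith [Real.pi_pos]
      have h3 : Real.cos (Real.pi * mgg1A y / m) ≤ Real.cos (Real.pi / 2 - u) :=
        Real.cos_le_cos_of_nonneg_of_le_pi (by linarith) hy2 h1
      rw [Real.cos_pi_div_two_sub] at h3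
      have h4 := Real.sin_sq_add_cos_sq u
      nlinarith [sq_nonneg (Real.sin u - Real.cos u), sq_nonneg (Real.sin u + Real.cos u - 3 / 2)]
    have g1 := mgg1G_le (mgg1A y) (mgg1A (y - 2 * x))
    have g2 := mgg1G_le (mgg1A y) (mgg1A (y + 2 * x))
    have g3 := mgg1G_le (mgg1A x) (mgg1A (x - 2 * y))
    have g4 := mgg1G_le (mgg1A x) (mgg1A (x + 2 * y))
    nlinarith [mul_le_mul_of_nonneg_left (add_le_add g1 g2) hx.1,
      mul_le_mul_of_nonneg_left (add_le_add g3 g4) hy.1]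

theorem mgg_comb (m : ℕ) [NeZero m] (G : ZMod m × ZMod m → ℝ) (hG : ∀ z, 0 ≤ G z)
    (h0 : G 0 = 0) :
    ∑ z, G z * (2 * |Real.cos (Real.pi * z.1.val / m)| * G (z.1, z.2 - 2 * z.1) +
      2 * |Real.cos (Real.pi * z.2.val / m)| * G (z.1 - 2 * z.2, z.2)) ≤
      73 / 20 * ∑ z, G z ^ 2 := by
  have hcos : ∀ z : ZMod m, 0 ≤ Real.cos (Real.pi * mgg1A z / m) := by
    intro z
    rw [← mgg1_cos]
    exact abs_nonneg _
  -- the two shears
  let σ : ZMod m × ZMod m ≃ ZMod m × ZMod m :=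
    { toFun := fun z => (z.1, z.2 - 2 * z.1)
      invFun := fun z => (z.1, z.2 + 2 * z.1)
      left_inv := fun z => by simp
      right_inv := fun z => by simp }
  let τ : ZMod m × ZMod m ≃ ZMod m × ZMod m :=
    { toFun := fun z => (z.1 - 2 * z.2, z.2)
      invFun := fun z => (z.1 + 2 * z.2, z.2)
      left_inv := fun z => by simp
      right_inv := fun z => by simp }
  have h1 : ∑ z : ZMod m × ZMod m, Real.cos (Real.pi * mgg1A z.1 / m) *
      (mgg1G (mgg1A (z.2 - 2 * z.1)) (mgg1A z.2) * G (z.1, z.2 - 2 * z.1) ^ 2) =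
      ∑ z : ZMod m × ZMod m, Real.cos (Real.pi * mgg1A z.1 / m) *
      (mgg1G (mgg1A z.2) (mgg1A (z.2 + 2 * z.1)) * G z ^ 2) := by
    rw [← Equiv.sum_comp σ (fun z => Real.cos (Real.pi * mgg1A z.1 / m) *
      (mgg1G (mgg1A z.2) (mgg1A (z.2 + 2 * z.1)) * G z ^ 2))]
    refine Finset.sum_congr rfl fun z _ => ?_
    simp only [σ, Equiv.coe_fn_mk, sub_add_cancel]
  have h2 : ∑ z : ZMod m × ZMod m, Real.cos (Real.pi * mgg1A z.2 / m) *
      (mgg1G (mgg1A (z.1 - 2 * z.2)) (mgg1A z.1) * G (z.1 - 2 * z.2, z.2) ^ 2) =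
      ∑ z : ZMod m × ZMod m, Real.cos (Real.pi * mgg1A z.2 / m) *
      (mgg1G (mgg1A z.1) (mgg1A (z.1 + 2 * z.2)) * G z ^ 2) := by
    rw [← Equiv.sum_comp τ (fun z => Real.cos (Real.pi * mgg1A z.2 / m) *
      (mgg1G (mgg1A z.1) (mgg1A (z.1 + 2 * z.2)) * G z ^ 2))]
    refine Finset.sum_congr rfl fun z _ => ?_
    simp only [τ, Equiv.coe_fn_mk, sub_add_cancel]
  calc ∑ z, G z * (2 * |Real.cos (Real.pi * z.1.val / m)| * G (z.1, z.2 - 2 * z.1) +
      2 * |Real.cos (Real.pi * z.2.val / m)| * G (z.1 - 2 * z.2, z.2))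
      ≤ ∑ z : ZMod m × ZMod m, (Real.cos (Real.pi * mgg1A z.1 / m) *
          (mgg1G (mgg1A z.2) (mgg1A (z.2 - 2 * z.1)) * G z ^ 2) +
        Real.cos (Real.pi * mgg1A z.1 / m) *
          (mgg1G (mgg1A (z.2 - 2 * z.1)) (mgg1A z.2) * G (z.1, z.2 - 2 * z.1) ^ 2) +
        (Real.cos (Real.pi * mgg1A z.2 / m) *
          (mgg1G (mgg1A z.1) (mgg1A (z.1 - 2 * z.2)) * G z ^ 2) +
        Real.cos (Real.pi * mgg1A z.2 / m) *
          (mgg1G (mgg1A (z.1 - 2 * z.2)) (mgg1A z.1) * G (z.1 - 2 * z.2, z.2) ^ 2))) := by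
        refine Finset.sum_le_sum fun z _ => ?_
        rw [mgg1_cos, mgg1_cos]
        have a1 := mul_le_mul_of_nonneg_left
          (mgg1_amgm (mgg1A z.2) (mgg1A (z.2 - 2 * z.1)) (G z) (G (z.1, z.2 - 2 * z.1)))
          (hcos z.1)
        have a2 := mul_le_mul_of_nonneg_left
          (mgg1_amgm (mgg1A z.1) (mgg1A (z.1 - 2 * z.2)) (G z) (G (z.1 - 2 * z.2, z.2)))
          (hcos z.2)
        nlinarith
    _ = ∑ z : ZMod m × ZMod m, (Real.cos (Real.pi * mgg1A z.1 / m) *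
        (mgg1G (mgg1A z.2) (mgg1A (z.2 - 2 * z.1)) + mgg1G (mgg1A z.2) (mgg1A (z.2 + 2 * z.1))) +
      Real.cos (Real.pi * mgg1A z.2 / m) *
        (mgg1G (mgg1A z.1) (mgg1A (z.1 - 2 * z.2)) + mgg1G (mgg1A z.1) (mgg1A (z.1 + 2 * z.2)))) *
          G z ^ 2 := by
        rw [Finset.sum_add_distrib, Finset.sum_add_distrib, Finset.sum_add_distrib, h1, h2,
          ← Finset.sum_add_distrib, ← Finset.sum_add_distrib, ← Finset.sum_add_distrib]
        refine Finset.sum_congr rfl fun z _ => ?_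
        ring
    _ ≤ ∑ z, 73 / 20 * G z ^ 2 := by
        refine Finset.sum_le_sum fun z _ => ?_
        by_cases hz : z = 0
        · rw [hz, h0]
          simp
        · have hz' : z.1 ≠ 0 ∨ z.2 ≠ 0 := by
            by_contra hcon
            push Not at hcon
            exact hz (Prod.ext hcon.1 hcon.2)
          exact mul_le_mul_of_nonneg_right (mgg1_coef z.1 z.2 hz') (sq_nonneg _)
    _ = _ := by rw [Finset.mul_sum]

end Pool.Agent.Lib.PCP
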