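import Pool.Agent.Lib.PCP.MGG1

/-!
# The PCP theorem: the Fourier transform step for the Margulis-Gabber-Galil graph
-/

set_option autoImplicit false

namespace Pool.Agent.Lib.PCP

open Pool.Agent.Lib.helper60
open Pool.Agent.H66 (Cl Sat3)
open Finset (range)

section

variable {m : ℕ} [NeZero m]

/-- additive character of `ZMod m` -/
noncomputable def mggTwo_e (x : ZMod m) : ℂ := ZMod.stdAddChar x

/-- Fourier transform on `ZMod m × ZMod m` -/
noncomputable def mggTwo_F (f : ZMod m × ZMod m → ℝ) (w : ZMod m × ZMod m) : ℂ :=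
  ∑ z, (f z : ℂ) * mggTwo_e (-(w.1 * z.1 + w.2 * z.2))

theorem mggTwo_e_add (x y : ZMod m) : mggTwo_e (x + y) = mggTwo_e x * mggTwo_e y := by
  simp [mggTwo_e, AddChar.map_add_eq_mul]

theorem mggTwo_e_zero : mggTwo_e (0 : ZMod m) = 1 := by
  simp [mggTwo_e]

theorem mggTwo_conj_e (x : ZMod m) : (starRingEnd ℂ) (mggTwo_e x) = mggTwo_e (-x) := by
  have h : mggTwo_e x * mggTwo_e (-x) = 1 := by
    rw [← mggTwo_e_add, add_neg_cancel, mggTwo_e_zero]
  have h1 : ‖mggTwo_e x‖ = 1 := by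
    simp only [mggTwo_e, ZMod.stdAddChar_apply]
    exact Circle.norm_coe _
  have h2 : mggTwo_e x * (starRingEnd ℂ) (mggTwo_e x) = 1 := by
    rw [Complex.mul_conj, Complex.normSq_eq_norm_sq, h1]; simp
  have h3 : mggTwo_e x ≠ 0 := by
    intro h0; rw [h0] at h1; simp at h1
  exact mul_left_cancel₀ h3 (h2.trans h.symm)

theorem mggTwo_sum_e (x : ZMod m) : ∑ c : ZMod m, mggTwo_e (c * x) = if x = 0 then (m : ℂ) else 0 := by
  have := AddChar.sum_mulShift (R' := ℂ) x (ZMod.isPrimitive_stdAddChar m)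
  simp only [mggTwo_e]
  rw [this]
  simp [ZMod.card]

theorem mggTwo_sum_e2 (x y : ZMod m) :
    ∑ w : ZMod m × ZMod m, mggTwo_e (w.1 * x + w.2 * y) =
      if x = 0 ∧ y = 0 then (m : ℂ) ^ 2 else 0 := by
  rw [Fintype.sum_prod_type]
  simp only [mggTwo_e_add]
  have : ∀ a : ZMod m, ∑ b : ZMod m, mggTwo_e (a * x) * mggTwo_e (b * y) =
      mggTwo_e (a * x) * ∑ b : ZMod m, mggTwo_e (b * y) := by
    intro a; rw [Finset.mul_sum]
  simp only [this]
  rw [← Finset.sum_mul, mggTwo_sum_e, mggTwo_sum_e]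
  by_cases hx : x = 0 <;> by_cases hy : y = 0 <;> simp [hx, hy, sq]

theorem mggTwo_plancherel (f h : ZMod m × ZMod m → ℝ) :
    ∑ w, mggTwo_F f w * (starRingEnd ℂ) (mggTwo_F h w) =
      (m : ℂ) ^ 2 * ((∑ z, f z * h z : ℝ) : ℂ) := by
  have h1 : ∀ w : ZMod m × ZMod m, mggTwo_F f w * (starRingEnd ℂ) (mggTwo_F h w) =
      ∑ z, ∑ z', (f z : ℂ) * (h z' : ℂ) *
        mggTwo_e (w.1 * (z'.1 - z.1) + w.2 * (z'.2 - z.2)) := by
    intro w
    unfold mggTwo_F
    rw [map_sum, Finset.sum_mul_sum]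
    refine Finset.sum_congr rfl fun z _ => Finset.sum_congr rfl fun z' _ => ?_
    rw [map_mul, mggTwo_conj_e, Complex.conj_ofReal, neg_neg]
    have : w.1 * (z'.1 - z.1) + w.2 * (z'.2 - z.2) =
        -(w.1 * z.1 + w.2 * z.2) + (w.1 * z'.1 + w.2 * z'.2) := by ring
    rw [this, mggTwo_e_add (-(w.1 * z.1 + w.2 * z.2))]
    generalize mggTwo_e (-(w.1 * z.1 + w.2 * z.2)) = A
    generalize mggTwo_e (w.1 * z'.1 + w.2 * z'.2) = B
    ring
  simp only [h1]
  rw [Finset.sum_comm]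
  have h2 : ∀ z : ZMod m × ZMod m,
      ∑ w : ZMod m × ZMod m, ∑ z' : ZMod m × ZMod m, (f z : ℂ) * (h z' : ℂ) *
        mggTwo_e (w.1 * (z'.1 - z.1) + w.2 * (z'.2 - z.2)) =
      (m : ℂ) ^ 2 * ((f z : ℂ) * (h z : ℂ)) := by
    intro z
    rw [Finset.sum_comm]
    have h3 : ∀ z' : ZMod m × ZMod m, ∑ w : ZMod m × ZMod m, (f z : ℂ) * (h z' : ℂ) *
        mggTwo_e (w.1 * (z'.1 - z.1) + w.2 * (z'.2 - z.2)) =
        if z' = z then (m : ℂ) ^ 2 * ((f z : ℂ) * (h z : ℂ)) else 0 := by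
      intro z'
      rw [← Finset.mul_sum, mggTwo_sum_e2]
      by_cases hz : z' = z
      · subst hz; simp; ring
      · have : ¬(z'.1 - z.1 = 0 ∧ z'.2 - z.2 = 0) := by
          rintro ⟨ha, hb⟩
          exact hz (Prod.ext (sub_eq_zero.1 ha) (sub_eq_zero.1 hb))
        simp [hz, this]
    simp only [h3]
    simp
  simp only [h2]
  rw [← Finset.mul_sum]
  push_cast
  rfl

theorem mggTwo_norm_one_add (c : ZMod m) :
    ‖1 + mggTwo_e c‖ = 2 * |Real.cos (Real.pi * c.val / m)| := by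
  have hc : mggTwo_e c = Complex.exp (((2 * (Real.pi * c.val / m) : ℝ) : ℂ) * Complex.I) := by
    have h1 : mggTwo_e c = mggTwo_e (((c.val : ℤ)) : ZMod m) := by
      congr 1; simp
    rw [h1]
    unfold mggTwo_e
    rw [ZMod.stdAddChar_coe]
    congr 1
    push_cast
    ring
  set t : ℝ := Real.pi * c.val / m
  have h2 : 1 + mggTwo_e c = Complex.exp ((t : ℂ) * Complex.I) * ((2 * Real.cos t : ℝ) : ℂ) := by
    rw [hc]
    have : (((2 * t : ℝ) : ℂ) * Complex.I) = (t : ℂ) * Complex.I + (t : ℂ) * Complex.I := by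
      push_cast; ring
    rw [this, Complex.exp_add]
    push_cast
    rw [Complex.two_cos, mul_add, ← Complex.exp_add, add_comm]
    congr 1
    rw [← Complex.exp_add, neg_mul, add_neg_cancel, Complex.exp_zero]
  rw [h2, norm_mul, Complex.norm_exp_ofReal_mul_I, one_mul, Complex.norm_real, Real.norm_eq_abs,
    abs_mul]
  simp

theorem mggTwo_F1 (f : ZMod m × ZMod m → ℝ) (w : ZMod m × ZMod m) :
    mggTwo_F (fun z => f (z.1 + 2 * z.2, z.2) + f (z.1 + 2 * z.2 + 1, z.2)) w =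
      (1 + mggTwo_e w.1) * mggTwo_F f (w.1, w.2 - 2 * w.1) := by
  have hA : ∑ z : ZMod m × ZMod m, (f (z.1 + 2 * z.2, z.2) : ℂ) *
      mggTwo_e (-(w.1 * z.1 + w.2 * z.2)) = mggTwo_F f (w.1, w.2 - 2 * w.1) := by
    unfold mggTwo_F
    let e : ZMod m × ZMod m ≃ ZMod m × ZMod m :=
      { toFun := fun z => (z.1 + 2 * z.2, z.2)
        invFun := fun z => (z.1 - 2 * z.2, z.2)
        left_inv := fun z => by simp
        right_inv := fun z => by simp }
    rw [← Equiv.sum_comp e (fun z => (f z : ℂ) * mggTwo_e (-(w.1 * z.1 + (w.2 - 2 * w.1) * z.2)))]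
    refine Finset.sum_congr rfl fun z _ => ?_
    simp only [e, Equiv.coe_fn_mk]
    congr 2
    ring
  have hB : ∑ z : ZMod m × ZMod m, (f (z.1 + 2 * z.2 + 1, z.2) : ℂ) *
      mggTwo_e (-(w.1 * z.1 + w.2 * z.2)) = mggTwo_e w.1 * mggTwo_F f (w.1, w.2 - 2 * w.1) := by
    unfold mggTwo_F
    let e : ZMod m × ZMod m ≃ ZMod m × ZMod m :=
      { toFun := fun z => (z.1 + 2 * z.2 + 1, z.2)
        invFun := fun z => (z.1 - 1 - 2 * z.2, z.2)
        left_inv := fun z => by simp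
        right_inv := fun z => by simp }
    rw [← Equiv.sum_comp e (fun z => (f z : ℂ) * mggTwo_e (-(w.1 * z.1 + (w.2 - 2 * w.1) * z.2))),
      Finset.mul_sum]
    refine Finset.sum_congr rfl fun z _ => ?_
    simp only [e, Equiv.coe_fn_mk]
    have : -(w.1 * z.1 + w.2 * z.2) =
        w.1 + -(w.1 * (z.1 + 2 * z.2 + 1) + (w.2 - 2 * w.1) * z.2) := by ring
    rw [this, mggTwo_e_add]
    ring
  rw [add_mul, one_mul, ← hB, ← hA]
  unfold mggTwo_F
  rw [← Finset.sum_add_distrib]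
  refine Finset.sum_congr rfl fun z _ => ?_
  push_cast
  ring

theorem mggTwo_F2 (f : ZMod m × ZMod m → ℝ) (w : ZMod m × ZMod m) :
    mggTwo_F (fun z => f (z.1, z.2 + 2 * z.1) + f (z.1, z.2 + 2 * z.1 + 1)) w =
      (1 + mggTwo_e w.2) * mggTwo_F f (w.1 - 2 * w.2, w.2) := by
  have hA : ∑ z : ZMod m × ZMod m, (f (z.1, z.2 + 2 * z.1) : ℂ) *
      mggTwo_e (-(w.1 * z.1 + w.2 * z.2)) = mggTwo_F f (w.1 - 2 * w.2, w.2) := by
    unfold mggTwo_F
    let e : ZMod m × ZMod m ≃ ZMod m × ZMod m :=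
      { toFun := fun z => (z.1, z.2 + 2 * z.1)
        invFun := fun z => (z.1, z.2 - 2 * z.1)
        left_inv := fun z => by simp
        right_inv := fun z => by simp }
    rw [← Equiv.sum_comp e (fun z => (f z : ℂ) * mggTwo_e (-((w.1 - 2 * w.2) * z.1 + w.2 * z.2)))]
    refine Finset.sum_congr rfl fun z _ => ?_
    simp only [e, Equiv.coe_fn_mk]
    congr 2
    ring
  have hB : ∑ z : ZMod m × ZMod m, (f (z.1, z.2 + 2 * z.1 + 1) : ℂ) *
      mggTwo_e (-(w.1 * z.1 + w.2 * z.2)) = mggTwo_e w.2 * mggTwo_F f (w.1 - 2 * w.2, w.2) := by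
    unfold mggTwo_F
    let e : ZMod m × ZMod m ≃ ZMod m × ZMod m :=
      { toFun := fun z => (z.1, z.2 + 2 * z.1 + 1)
        invFun := fun z => (z.1, z.2 - 1 - 2 * z.1)
        left_inv := fun z => by simp
        right_inv := fun z => by simp }
    rw [← Equiv.sum_comp e (fun z => (f z : ℂ) * mggTwo_e (-((w.1 - 2 * w.2) * z.1 + w.2 * z.2))),
      Finset.mul_sum]
    refine Finset.sum_congr rfl fun z _ => ?_
    simp only [e, Equiv.coe_fn_mk]
    have : -(w.1 * z.1 + w.2 * z.2) =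
        w.2 + -((w.1 - 2 * w.2) * z.1 + w.2 * (z.2 + 2 * z.1 + 1)) := by ring
    rw [this, mggTwo_e_add]
    ring
  rw [add_mul, one_mul, ← hB, ← hA]
  unfold mggTwo_F
  rw [← Finset.sum_add_distrib]
  refine Finset.sum_congr rfl fun z _ => ?_
  push_cast
  ring

end

theorem mgg_quad (m : ℕ) [NeZero m] (f : ZMod m × ZMod m → ℝ) (hf : ∑ z, f z = 0) :
    |∑ z, f z * (f (z.1 + 2 * z.2, z.2) + f (z.1 + 2 * z.2 + 1, z.2) + f (z.1, z.2 + 2 * z.1) +
      f (z.1, z.2 + 2 * z.1 + 1))| ≤ 73 / 20 * ∑ z, f z ^ 2 := by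
  set g1 : ZMod m × ZMod m → ℝ :=
    fun z => f (z.1 + 2 * z.2, z.2) + f (z.1 + 2 * z.2 + 1, z.2) with hg1
  set g2 : ZMod m × ZMod m → ℝ :=
    fun z => f (z.1, z.2 + 2 * z.1) + f (z.1, z.2 + 2 * z.1 + 1) with hg2
  have hm : (0 : ℝ) < m := by
    have := NeZero.pos m
    exact_mod_cast this
  have hsplit : ∑ z, f z * (f (z.1 + 2 * z.2, z.2) + f (z.1 + 2 * z.2 + 1, z.2) +
      f (z.1, z.2 + 2 * z.1) + f (z.1, z.2 + 2 * z.1 + 1)) = ∑ z, g1 z * f z + ∑ z, g2 z * f z := by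
    rw [← Finset.sum_add_distrib]
    refine Finset.sum_congr rfl fun z _ => ?_
    simp only [hg1, hg2]; ring
  rw [hsplit]
  set G : ZMod m × ZMod m → ℝ := fun w => ‖mggTwo_F f w‖ with hG
  have hG0 : G 0 = 0 := by
    simp only [hG, mggTwo_F]
    have : ∑ z : ZMod m × ZMod m, (f z : ℂ) *
        mggTwo_e (-((0 : ZMod m × ZMod m).1 * z.1 + (0 : ZMod m × ZMod m).2 * z.2)) =
        ((∑ z, f z : ℝ) : ℂ) := by
      push_cast
      refine Finset.sum_congr rfl fun z _ => ?_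
      simp [mggTwo_e_zero]
    rw [this, hf]; simp
  have key := mgg_comb m G (fun z => norm_nonneg _) hG0
  have hpars : (m : ℝ) ^ 2 * ∑ z, f z ^ 2 = ∑ w, G w ^ 2 := by
    have := mggTwo_plancherel f f
    have h1 : ∑ w, mggTwo_F f w * (starRingEnd ℂ) (mggTwo_F f w) = ((∑ w, G w ^ 2 : ℝ) : ℂ) := by
      push_cast
      refine Finset.sum_congr rfl fun w _ => ?_
      rw [Complex.mul_conj, Complex.normSq_eq_norm_sq]
      push_cast
      rfl
    rw [h1] at this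
    have h2 : ((∑ w, G w ^ 2 : ℝ) : ℂ) = (((m : ℝ) ^ 2 * ∑ z, f z * f z : ℝ) : ℂ) := by
      rw [this]; push_cast; ring
    have h3 := Complex.ofReal_injective h2
    rw [h3]
    congr 1
    refine Finset.sum_congr rfl fun z _ => ?_
    ring
  have hb1 : (m : ℝ) ^ 2 * |∑ z, g1 z * f z| ≤
      ∑ w, G w * (2 * |Real.cos (Real.pi * w.1.val / m)| * G (w.1, w.2 - 2 * w.1)) := by
    have h1 : (m : ℝ) ^ 2 * |∑ z, g1 z * f z| =
        ‖∑ w, mggTwo_F g1 w * (starRingEnd ℂ) (mggTwo_F f w)‖ := by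
      rw [mggTwo_plancherel, norm_mul, Complex.norm_real, Real.norm_eq_abs]
      simp
    rw [h1]
    refine (norm_sum_le _ _).trans (Finset.sum_le_sum fun w _ => ?_)
    rw [norm_mul, RCLike.norm_conj, hg1, mggTwo_F1, norm_mul, mggTwo_norm_one_add]
    simp only [hG]
    nlinarith [norm_nonneg (mggTwo_F f w)]
  have hb2 : (m : ℝ) ^ 2 * |∑ z, g2 z * f z| ≤
      ∑ w, G w * (2 * |Real.cos (Real.pi * w.2.val / m)| * G (w.1 - 2 * w.2, w.2)) := by
    have h1 : (m : ℝ) ^ 2 * |∑ z, g2 z * f z| =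
        ‖∑ w, mggTwo_F g2 w * (starRingEnd ℂ) (mggTwo_F f w)‖ := by
      rw [mggTwo_plancherel, norm_mul, Complex.norm_real, Real.norm_eq_abs]
      simp
    rw [h1]
    refine (norm_sum_le _ _).trans (Finset.sum_le_sum fun w _ => ?_)
    rw [norm_mul, RCLike.norm_conj, hg2, mggTwo_F2, norm_mul, mggTwo_norm_one_add]
    simp only [hG]
    nlinarith [norm_nonneg (mggTwo_F f w)]
  have hsum : (m : ℝ) ^ 2 * |∑ z, g1 z * f z + ∑ z, g2 z * f z| ≤
      (m : ℝ) ^ 2 * (73 / 20 * ∑ z, f z ^ 2) := by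
    have htri := abs_add_le (∑ z, g1 z * f z) (∑ z, g2 z * f z)
    have hm2 : (0 : ℝ) ≤ (m : ℝ) ^ 2 := by positivity
    calc (m : ℝ) ^ 2 * |∑ z, g1 z * f z + ∑ z, g2 z * f z|
        ≤ (m : ℝ) ^ 2 * (|∑ z, g1 z * f z| + |∑ z, g2 z * f z|) :=
          mul_le_mul_of_nonneg_left htri hm2
      _ = (m : ℝ) ^ 2 * |∑ z, g1 z * f z| + (m : ℝ) ^ 2 * |∑ z, g2 z * f z| := by ring
      _ ≤ _ := add_le_add hb1 hb2
      _ = ∑ z, G z * (2 * |Real.cos (Real.pi * z.1.val / m)| * G (z.1, z.2 - 2 * z.1) +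
            2 * |Real.cos (Real.pi * z.2.val / m)| * G (z.1 - 2 * z.2, z.2)) := by
          rw [← Finset.sum_add_distrib]
          refine Finset.sum_congr rfl fun z _ => ?_
          ring
      _ ≤ 73 / 20 * ∑ z, G z ^ 2 := key
      _ = (m : ℝ) ^ 2 * (73 / 20 * ∑ z, f z ^ 2) := by rw [← hpars]; ring
  exact le_of_mul_le_mul_left hsum (by positivity)

end Pool.Agent.Lib.PCP
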