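import Pool.Agent.Lib.PCP.FinPT

/-!
# The PCP theorem: the preparation step is polynomial-time
-/

set_option autoImplicit false

namespace Pool.Agent.Lib.PCP

open Pool.Agent.Lib.helper60
open Pool.Agent.H66 (Cl Sat3)
open Finset (range)

section ptprep

variable {ι : Type} [DEnc ι]

lemma ptprep_half_iter (e : ℕ) : ∀ s : ℕ × Bool,
    ((fun s : ℕ × Bool => if s.2 then (s.1 + 1, false) else (s.1, true))^[e] s).1 ≤ s.1 + e := by
  induction e with
  | zero => intro s; simp
  | succ e ih =>
    intro s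
    rw [Function.iterate_succ_apply]
    have h := ih (if s.2 = true then (s.1 + 1, false) else (s.1, true))
    have h2 : (if s.2 = true then (s.1 + 1, false) else (s.1, true)).1 ≤ s.1 + 1 := by
      split_ifs <;> simp
    omega

lemma ptprep_half {e : ι → ℕ} (he : PT e) : PT (fun x => half (e x)) := by
  have hstep : PT (fun s : ℕ × Bool => if s.2 then (s.1 + 1, false) else (s.1, true)) := by
    refine PT.ite ?_ ?_ ?_
    · exact PT.beq PT.snd (PT.const true)
    · exact PT.pair (PT.nsucc PT.fst) (PT.const false)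
    · exact PT.pair PT.fst (PT.const true)
  exact PT.iterateNat (count := e) (init := fun _ => ((0, false) : ℕ × Bool)) he (PT.const _) hstep
    ⟨fun x => tsize (e x) + 4, he.size.add (PB.const 4), by
      intro x i hi
      have h1 := ptprep_half_iter i (0, false)
      set s := (fun s : ℕ × Bool => if s.2 then (s.1 + 1, false) else (s.1, true))^[i] (0, false)
      have h2 : tsize s = tsize s.1 + tsize s.2 + 1 := tsize_pair s.1 s.2
      have h3 := tsize_bool_le s.2
      rw [h2]
      simp only [tsize_nat]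
      simp only [zero_add] at h1
      omega⟩

variable {A : Type} [Finite A]

lemma ptprep_cst {I : ι → Inst A} {j : ι → ℕ} (hI : PT I) (hj : PT j) :
    PT (fun x => cst (I x) (j x)) :=
  PT.getD (PT.snd.comp hI) hj (PT.const _)

lemma ptprep_slotVar {I : ι → Inst A} {e : ι → ℕ} (hI : PT I) (he : PT e) :
    PT (fun x => slotVar (I x) (e x)) := by
  have hc := ptprep_cst hI (ptprep_half he).p1
  exact PT.cond (ptprep_half he).p2 hc.p2.p1 hc.p1

lemma ptprep_slotCon {I : ι → Inst A} {e : ι → ℕ} (hI : PT I) (he : PT e) :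
    PT (fun x => slotCon (I x) (e x)) := by
  have hc := ptprep_cst hI (ptprep_half he).p1
  have ht : PT (fun (C : Con A) => (fun a b => C b a : Con A)) := PT.fin1 _
  exact PT.cond (ptprep_half he).p2 (ht.comp hc.p2.p2) hc.p2.p2

lemma ptprep_mate {e : ι → ℕ} (he : PT e) : PT (fun x => mate (e x)) :=
  PT.cond (ptprep_half he).p2 (PT.npred he) (PT.nsucc he)

lemma ptprep_occ {I : ι → Inst A} {y : ι → ℕ} (hI : PT I) (hy : PT y) :
    PT (fun x => occ (I x) (y x)) := by
  unfold occ
  refine PT.filter (p := fun z : ι × ℕ => decide (slotVar (I z.1) z.2 = y z.1)) (PT.range ?_) ?_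
  · exact PT.nmul (PT.const 2) (PT.length (PT.snd.comp hI))
  · exact PT.neq (ptprep_slotVar (hI.comp PT.fst) PT.snd) (hy.comp PT.fst)

lemma ptprep_rank {I : ι → Inst A} {e : ι → ℕ} (hI : PT I) (he : PT e) :
    PT (fun x => rank (I x) (e x)) := by
  unfold rank
  refine PT.length (PT.filter
    (p := fun z : ι × ℕ => decide (slotVar (I z.1) z.2 = slotVar (I z.1) (e z.1))) (PT.range he) ?_)
  exact PT.neq (ptprep_slotVar (hI.comp PT.fst) PT.snd)
    (ptprep_slotVar (hI.comp PT.fst) (he.comp PT.fst))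

lemma ptprep_sqs {k : ι → ℕ} (hk : PT k) : PT (fun x => sqs (k x)) := by
  unfold sqs
  refine PT.headD (PT.filter (p := fun z : ι × ℕ => decide (k z.1 ≤ z.2 * z.2))
    (PT.range (PT.nsucc hk)) ?_) (PT.const 0)
  exact PT.nle (hk.comp PT.fst) (PT.nmul PT.snd PT.snd)

lemma ptprep_csz {I : ι → Inst A} {y : ι → ℕ} (hI : PT I) (hy : PT y) :
    PT (fun x => csz (I x) (y x)) :=
  ptprep_sqs (PT.length (ptprep_occ hI hy))

lemma ptprep_base {I : ι → Inst A} {y : ι → ℕ} (hI : PT I) (hy : PT y) :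
    PT (fun x => base (I x) (y x)) := by
  unfold base
  refine PT.nsum (PT.map (g := fun z : ι × ℕ => csz (I z.1) z.2 * csz (I z.1) z.2)
    (PT.range hy) ?_)
  exact PT.nmul (ptprep_csz (hI.comp PT.fst) PT.snd) (ptprep_csz (hI.comp PT.fst) PT.snd)

lemma ptprep_names {I : ι → Inst A} (hI : PT I) : PT (fun x => names (I x)) := by
  unfold names
  refine PT.flatMap (g := fun z : ι × ℕ =>
    (List.range (csz (I z.1) z.2 * csz (I z.1) z.2)).map (fun p => (z.2, p)))
    (PT.range (PT.fst.comp hI)) ?_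
  refine PT.map (g := fun z : (ι × ℕ) × ℕ => (z.1.2, z.2)) (PT.range ?_)
    (PT.pair (PT.snd.comp PT.fst) PT.snd)
  exact PT.nmul (ptprep_csz (hI.comp PT.fst) PT.snd) (ptprep_csz (hI.comp PT.fst) PT.snd)

lemma ptprep_side {I : ι → Inst A} (hI : PT I) : PT (fun x => side (I x)) :=
  ptprep_sqs (ptprep_base hI (PT.fst.comp hI))

lemma ptprep_mgg {m p : ι → ℕ} (hm : PT m) (hp : PT p) (i : Fin 8) :
    PT (fun x => mgg (m x) (p x) i) := by
  have ha : PT (fun x => p x / m x) := PT.ndiv hp hm
  have hb : PT (fun x => p x % m x) := PT.nmod hp hm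
  have hm1 : PT (fun x => m x - 1) := PT.npred hm
  have h2b : PT (fun x => 2 * (p x % m x)) := PT.nmul (PT.const 2) hb
  have h2b' : PT (fun x => 2 * (m x - p x % m x)) := PT.nmul (PT.const 2) (PT.nsub hm hb)
  have h2a : PT (fun x => 2 * (p x / m x)) := PT.nmul (PT.const 2) ha
  have h2a' : PT (fun x => 2 * (m x - p x / m x)) := PT.nmul (PT.const 2) (PT.nsub hm ha)
  have hR : ∀ c : ι → ℕ, PT c → PT (fun x => (c x % m x) * m x + p x % m x) := fun c hc =>
    PT.nadd (PT.nmul (PT.nmod hc hm) hm) hb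
  have hC : ∀ c : ι → ℕ, PT c → PT (fun x => p x / m x * m x + c x % m x) := fun c hc =>
    PT.nadd (PT.nmul ha hm) (PT.nmod hc hm)
  fin_cases i
  · exact hR _ (PT.nadd ha h2b)
  · exact hR _ (PT.nadd ha h2b')
  · exact hC _ (PT.nadd hb h2a)
  · exact hC _ (PT.nadd hb h2a')
  · exact hR _ (PT.nsucc (PT.nadd ha h2b))
  · exact hR _ (PT.nadd (PT.nadd ha h2b') hm1)
  · exact hC _ (PT.nsucc (PT.nadd hb h2a))
  · exact hC _ (PT.nadd (PT.nadd hb h2a') hm1)

lemma ptprep_pent [DecidableEq A] {I : ι → Inst A} {v : ι → ℕ} (hI : PT I) (hv : PT v)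
    (i : Fin 17) : PT (fun x => pent (I x) i (v x)) := by
  unfold pent
  by_cases h : 9 ≤ i.val
  · simp only [h, ↓reduceDIte]
    exact PT.pair (ptprep_mgg (ptprep_side hI) hv _) (PT.const _)
  · simp only [h, ↓reduceDIte]
    refine PT.ite (PT.nle (ptprep_base hI (PT.fst.comp hI)) hv) (PT.pair hv (PT.const _)) ?_
    have hn : PT (fun x => (names (I x)).getD (v x) (0, 0)) :=
      PT.getD (ptprep_names hI) hv (PT.const _)
    by_cases h8 : i.val < 8
    · simp only [h8, ↓reduceDIte]
      exact PT.pair (PT.nadd (ptprep_base hI hn.p1)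
        (ptprep_mgg (ptprep_csz hI hn.p1) hn.p2 _)) (PT.const _)
    · simp only [h8, ↓reduceDIte]
      refine PT.ite (PT.nle (PT.length (ptprep_occ hI hn.p1)) hn.p2) (PT.pair hv (PT.const _)) ?_
      have he : PT (fun x => (occ (I x) ((names (I x)).getD (v x) (0, 0)).1).getD
          ((names (I x)).getD (v x) (0, 0)).2 0) :=
        PT.getD (ptprep_occ hI hn.p1) hn.p2 (PT.const 0)
      exact PT.pair (PT.nadd (ptprep_base hI (ptprep_slotVar hI (ptprep_mate he)))
        (ptprep_rank hI (ptprep_mate he))) (ptprep_slotCon hI he)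

end ptprep

theorem PT_prep {A : Type} [Finite A] [DecidableEq A] : PT (prep : Inst A → GData A) := by
  have hs : PT (fun I : Inst A => side I * side I) :=
    PT.nmul (ptprep_side PT.id) (ptprep_side PT.id)
  refine PT.pair hs ?_
  refine PT.flatMap (g := fun z : Inst A × ℕ => (List.finRange 17).map (fun i => pent z.1 i z.2))
    (PT.range hs) ?_
  exact PT.mapConst (List.finRange 17) (g := fun (i : Fin 17) (z : Inst A × ℕ) => pent z.1 i z.2)
    (fun i _ => ptprep_pent PT.fst PT.snd i)

end Pool.Agent.Lib.PCP
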