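import Pool.Agent.Lib.PCP.Defs

/-!
# The PCP theorem: soundness of powering
-/

set_option autoImplicit false

namespace Pool.Agent.Lib.PCP

open Finset (range)

/-! ### sums over all lists of ports -/

/-- sum over all lists of `k` ports -/
noncomputable def LS (d k : ℕ) (f : List (Fin d) → ℝ) : ℝ := ((seqs d k).map f).sum

section LS

variable {d : ℕ}

lemma sum_map_flatMap {α β : Type} (L : List α) (g : α → List β) (f : β → ℝ) :
    ((L.flatMap g).map f).sum = (L.map (fun a => ((g a).map f).sum)).sum := by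
  induction L with
  | nil => simp
  | cons a L ih => simp [List.flatMap_cons, ih]

@[simp] lemma LS_zero (f : List (Fin d) → ℝ) : LS d 0 f = f [] := by simp [LS, seqs]

lemma LS_succ (k : ℕ) (f : List (Fin d) → ℝ) :
    LS d (k + 1) f = ∑ i, LS d k (fun l => f (i :: l)) := by
  unfold LS
  rw [seqs, sum_map_flatMap, Fin.sum_univ_def]
  congr 1
  refine List.map_congr_left fun i _ => ?_
  rw [List.map_map]
  rfl

lemma LS_congr {k : ℕ} {f g : List (Fin d) → ℝ} (h : ∀ l, l.length = k → f l = g l) :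
    LS d k f = LS d k g := by
  induction k generalizing f g with
  | zero => simp only [LS_zero]; exact h [] rfl
  | succ k ih =>
    rw [LS_succ, LS_succ]
    exact Finset.sum_congr rfl fun i _ => ih fun l hl => h _ (by simp [hl])

lemma LS_mono {k : ℕ} {f g : List (Fin d) → ℝ} (h : ∀ l, l.length = k → f l ≤ g l) :
    LS d k f ≤ LS d k g := by
  induction k generalizing f g with
  | zero => simp only [LS_zero]; exact h [] rfl
  | succ k ih =>
    rw [LS_succ, LS_succ]
    exact Finset.sum_le_sum fun i _ => ih fun l hl => h _ (by simp [hl])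

lemma LS_nonneg {k : ℕ} {f : List (Fin d) → ℝ} (h : ∀ l, 0 ≤ f l) : 0 ≤ LS d k f := by
  induction k generalizing f with
  | zero => simp only [LS_zero]; exact h []
  | succ k ih =>
    rw [LS_succ]
    exact Finset.sum_nonneg fun i _ => ih fun l => h _

lemma LS_add_fun (k : ℕ) (f g : List (Fin d) → ℝ) :
    LS d k (fun l => f l + g l) = LS d k f + LS d k g := by
  induction k generalizing f g with
  | zero => simp
  | succ k ih => simp only [LS_succ, ih, Finset.sum_add_distrib]

lemma LS_mul (k : ℕ) (c : ℝ) (f : List (Fin d) → ℝ) :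
    LS d k (fun l => c * f l) = c * LS d k f := by
  induction k generalizing f with
  | zero => simp
  | succ k ih => simp only [LS_succ, ih, Finset.mul_sum]

lemma LS_const (k : ℕ) (c : ℝ) : LS d k (fun _ => c) = (d : ℝ) ^ k * c := by
  induction k with
  | zero => simp
  | succ k ih => rw [LS_succ]; simp only [ih, Finset.sum_const, Finset.card_univ, Fintype.card_fin,
      nsmul_eq_mul]; ring

lemma LS_sum {ι : Type} (s : Finset ι) (k : ℕ) (f : ι → List (Fin d) → ℝ) :
    LS d k (fun l => ∑ j ∈ s, f j l) = ∑ j ∈ s, LS d k (f j) := by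
  induction k generalizing f with
  | zero => simp
  | succ k ih =>
    simp only [LS_succ, ih]
    exact Finset.sum_comm

lemma LS_append (a b : ℕ) (f : List (Fin d) → ℝ) :
    LS d (a + b) f = LS d a (fun l => LS d b (fun m => f (l ++ m))) := by
  induction a generalizing f with
  | zero => simp
  | succ a ih =>
    rw [show a + 1 + b = (a + b) + 1 by ring, LS_succ, LS_succ]
    refine Finset.sum_congr rfl fun i _ => ?_
    rw [ih]
    rfl

lemma LS_snoc (k : ℕ) (f : List (Fin d) → ℝ) :
    LS d (k + 1) f = ∑ i, LS d k (fun l => f (l ++ [i])) := by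
  rw [LS_append, ← LS_sum]
  congr 1
  funext l
  rw [show (1 : ℕ) = 0 + 1 from rfl, LS_succ]
  simp

lemma LS_take {T B : ℕ} (h : T ≤ B) (f : List (Fin d) → ℝ) :
    LS d B (fun s => f (s.take T)) = (d : ℝ) ^ (B - T) * LS d T f := by
  obtain ⟨c, rfl⟩ := Nat.exists_eq_add_of_le h
  rw [LS_append, Nat.add_sub_cancel_left, ← LS_mul]
  refine LS_congr fun l hl => ?_
  rw [← LS_const]
  refine LS_congr fun m _ => ?_
  rw [List.take_append_of_le_length hl.ge, ← hl, List.take_length]

end LS

/-! ### walks -/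

namespace RG

variable {V : Type} {d : ℕ} {A : Type} (G : RG V d A)

@[simp] lemma wend_nil (v : V) : G.wend v [] = v := rfl

@[simp] lemma wend_cons (v : V) (i : Fin d) (l : List (Fin d)) :
    G.wend v (i :: l) = G.wend (G.nb i v) l := rfl

lemma wend_append (v : V) (l m : List (Fin d)) : G.wend v (l ++ m) = G.wend (G.wend v l) m := by
  unfold wend; rw [List.foldl_append]

@[simp] lemma rev_nil : G.rev [] = [] := rfl

lemma rev_cons (i : Fin d) (l : List (Fin d)) : G.rev (i :: l) = G.rev l ++ [G.bk i] := by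
  simp [rev]

lemma rev_rev (l : List (Fin d)) : G.rev (G.rev l) = l := by
  unfold rev
  rw [List.map_reverse, List.reverse_reverse, List.map_map]
  have : (G.bk ∘ G.bk) = id := by funext i; exact G.bk_bk i
  rw [this, List.map_id]

lemma wend_rev (v : V) (l : List (Fin d)) : G.wend (G.wend v l) (G.rev l) = v := by
  induction l generalizing v with
  | nil => rfl
  | cons i l ih => rw [wend_cons, rev_cons, wend_append, ih, wend_cons, wend_nil, G.nb_bk]

lemma nb_bijective (i : Fin d) : Function.Bijective (G.nb i) := by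
  constructor
  · intro v w h
    rw [← G.nb_bk i v, h, G.nb_bk]
  · intro v
    refine ⟨G.nb (G.bk i) v, ?_⟩
    have := G.nb_bk (G.bk i) v
    rwa [G.bk_bk] at this

lemma bk_bijective : Function.Bijective G.bk :=
  Function.Involutive.bijective G.bk_bk

/-- change of variables along the ports -/
lemma sum_nb_bk [Fintype V] (g : V → Fin d → ℝ) :
    ∑ v, ∑ i, g (G.nb i v) (G.bk i) = ∑ v, ∑ i, g v i := by
  rw [Finset.sum_comm, Finset.sum_comm (f := fun v i => g v i)]
  rw [← (Equiv.ofBijective _ G.bk_bijective).sum_comp (fun i => ∑ v, g v i)]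
  refine Finset.sum_congr rfl fun i _ => ?_
  exact (Equiv.ofBijective _ (G.nb_bijective i)).sum_comp (fun v => g v (G.bk i))

/-- reversal of walks -/
lemma sum_rev [Fintype V] (k : ℕ) (f : V → List (Fin d) → ℝ) :
    ∑ v, LS d k (fun l => f (G.wend v l) (G.rev l)) = ∑ v, LS d k (f v) := by
  induction k generalizing f with
  | zero => simp
  | succ k ih =>
    have h1 : ∀ v, LS d (k + 1) (fun l => f (G.wend v l) (G.rev l)) =
        ∑ i, LS d k (fun l => f (G.wend (G.nb i v) l) (G.rev l ++ [G.bk i])) := by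
      intro v
      rw [LS_succ]
      refine Finset.sum_congr rfl fun i _ => ?_
      congr 1
      funext l
      rw [rev_cons, wend_cons]
    simp only [h1]
    rw [G.sum_nb_bk (fun v i => LS d k (fun l => f (G.wend v l) (G.rev l ++ [i])))]
    rw [Finset.sum_comm]
    have h2 : ∀ i, ∑ v, LS d k (fun l => f (G.wend v l) (G.rev l ++ [i])) =
        ∑ v, LS d k (fun l => f v (l ++ [i])) := fun i => ih (fun v l => f v (l ++ [i]))
    simp only [h2]
    rw [Finset.sum_comm]
    simp only [LS_snoc]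

/-! ### the second moment -/

/-- the adjacency operator -/
noncomputable def adj (g : V → ℝ) (v : V) : ℝ := ∑ i, g (G.nb i v)

lemma adj_add (f g : V → ℝ) (v : V) : G.adj (fun v => f v + g v) v = G.adj f v + G.adj g v := by
  simp [adj, Finset.sum_add_distrib]

lemma sum_adj [Fintype V] (g : V → ℝ) : ∑ v, G.adj g v = d * ∑ v, g v := by
  unfold adj
  rw [G.sum_nb_bk (fun v _ => g v)]
  simp [Finset.mul_sum]

/-- number of steps of a walk through ports in `F` -/
noncomputable def hits (F : V → Fin d → ℝ) : V → List (Fin d) → ℝ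
  | _, [] => 0
  | v, i :: l => F v i + hits F (G.nb i v) l

lemma hits_nonneg {F : V → Fin d → ℝ} (hF : ∀ v i, 0 ≤ F v i) (v : V) (l : List (Fin d)) :
    0 ≤ G.hits F v l := by
  induction l generalizing v with
  | nil => exact le_refl _
  | cons i l ih => exact add_nonneg (hF v i) (ih _)

lemma adj_iter_const (c : ℝ) (k : ℕ) (v : V) : (G.adj^[k]) (fun _ => c) v = (d : ℝ) ^ k * c := by
  induction k generalizing v with
  | zero => simp
  | succ k ih =>
    rw [Function.iterate_succ_apply']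
    show ∑ i, (G.adj^[k]) (fun _ => c) (G.nb i v) = _
    simp only [ih, Finset.sum_const, Finset.card_univ, Fintype.card_fin, nsmul_eq_mul]
    ring

lemma adj_iter_add (f g : V → ℝ) (k : ℕ) (v : V) :
    (G.adj^[k]) (fun v => f v + g v) v = (G.adj^[k]) f v + (G.adj^[k]) g v := by
  induction k generalizing f g v with
  | zero => simp
  | succ k ih =>
    rw [Function.iterate_succ_apply, Function.iterate_succ_apply, Function.iterate_succ_apply]
    have : G.adj (fun v => f v + g v) = fun v => G.adj f v + G.adj g v := by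
      funext w; exact G.adj_add f g w
    rw [this, ih]

variable [Fintype V]

lemma sum_adj_iter (g : V → ℝ) (k : ℕ) : ∑ v, (G.adj^[k]) g v = (d : ℝ) ^ k * ∑ v, g v := by
  induction k with
  | zero => simp
  | succ k ih =>
    simp only [Function.iterate_succ_apply']
    rw [G.sum_adj, ih]
    ring

lemma adj_iter_bound {lam : ℝ} (hs : G.Spec lam) {f : V → ℝ} (hf : ∑ v, f v = 0) (k : ℕ) :
    ∑ v, ((G.adj^[k]) f v) ^ 2 ≤ ((lam * d) ^ k) ^ 2 * ∑ v, (f v) ^ 2 := by
  induction k with
  | zero => simp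
  | succ k ih =>
    have h1 : ∑ v, (G.adj^[k]) f v = 0 := by rw [G.sum_adj_iter, hf, mul_zero]
    have h2 := hs _ h1
    have h3 : ∀ v, (G.adj^[k + 1]) f v = ∑ i, (G.adj^[k]) f (G.nb i v) := by
      intro v
      rw [Function.iterate_succ_apply']
      rfl
    simp only [h3]
    refine h2.trans ?_
    calc (lam * d) ^ 2 * ∑ v, ((G.adj^[k]) f v) ^ 2
        ≤ (lam * d) ^ 2 * (((lam * d) ^ k) ^ 2 * ∑ v, (f v) ^ 2) :=
          mul_le_mul_of_nonneg_left ih (sq_nonneg _)
      _ = _ := by ring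

lemma quad_bound [Nonempty V] {lam : ℝ} (h0 : 0 ≤ lam) (hs : G.Spec lam) (f : V → ℝ) (k : ℕ) :
    ∑ v, f v * (G.adj^[k]) f v ≤
      (d : ℝ) ^ k * (∑ v, f v) ^ 2 / Fintype.card V + (lam * d) ^ k * ∑ v, (f v) ^ 2 := by
  set n : ℝ := (Fintype.card V : ℝ) with hn
  have hn0 : 0 < n := by
    rw [hn]; exact_mod_cast Fintype.card_pos
  set S := ∑ v, f v with hS
  set c := S / n with hc
  set g : V → ℝ := fun v => f v - c with hg
  have hgs : ∑ v, g v = 0 := by
    simp only [hg, Finset.sum_sub_distrib, Finset.sum_const, Finset.card_univ, nsmul_eq_mul]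
    rw [← hS, ← hn, hc]
    field_simp
    ring
  have hfg : f = fun v => g v + (fun _ => c) v := by
    funext v; simp [hg]
  have h1 : ∀ v, (G.adj^[k]) f v = (G.adj^[k]) g v + (d : ℝ) ^ k * c := by
    intro v
    conv_lhs => rw [hfg]
    rw [G.adj_iter_add g (fun _ => c), G.adj_iter_const]
  have h2 : ∑ v, (G.adj^[k]) g v = 0 := by rw [G.sum_adj_iter, hgs, mul_zero]
  have h3 : ∑ v, f v * (G.adj^[k]) f v = ∑ v, g v * (G.adj^[k]) g v + (d : ℝ) ^ k * S ^ 2 / n := by
    have : ∀ v, f v * (G.adj^[k]) f v = g v * (G.adj^[k]) g v + c * (G.adj^[k]) g v +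
        (d : ℝ) ^ k * c * f v := by
      intro v
      rw [h1 v]
      simp only [hg]
      ring
    simp only [this, Finset.sum_add_distrib, ← Finset.mul_sum]
    rw [h2, ← hS, hc]
    field_simp
    ring
  have h4 : ∑ v, g v ^ 2 ≤ ∑ v, f v ^ 2 := by
    have : ∀ v, f v ^ 2 = g v ^ 2 + 2 * c * g v + c ^ 2 := by
      intro v; simp only [hg]; ring
    simp only [this, Finset.sum_add_distrib, ← Finset.mul_sum, hgs]
    have : 0 ≤ ∑ _v : V, c ^ 2 := Finset.sum_nonneg fun _ _ => sq_nonneg _
    linarith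
  have h5 : ∑ v, g v * (G.adj^[k]) g v ≤ (lam * d) ^ k * ∑ v, g v ^ 2 := by
    have hcs := Finset.sum_mul_sq_le_sq_mul_sq Finset.univ g (fun v => (G.adj^[k]) g v)
    have hb := G.adj_iter_bound hs hgs k
    have hp : 0 ≤ (lam * d) ^ k := by positivity
    have hq : 0 ≤ ∑ v, g v ^ 2 := Finset.sum_nonneg fun _ _ => sq_nonneg _
    refine abs_le_of_sq_le_sq' ?_ (mul_nonneg hp hq) |>.2
    calc (∑ v, g v * (G.adj^[k]) g v) ^ 2 ≤ (∑ v, g v ^ 2) * ∑ v, ((G.adj^[k]) g v) ^ 2 := hcs
      _ ≤ (∑ v, g v ^ 2) * (((lam * d) ^ k) ^ 2 * ∑ v, (g v) ^ 2) :=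
        mul_le_mul_of_nonneg_left hb hq
      _ = _ := by ring
  rw [h3]
  have hp : 0 ≤ (lam * d) ^ k := by positivity
  have := mul_le_mul_of_nonneg_left h4 hp
  linarith

omit [Fintype V] in
/-- expected number of hits from a given vertex -/
lemma LS_hits (F : V → Fin d → ℝ) (B : ℕ) (v : V) :
    LS d B (G.hits F v) = ∑ k ∈ range B, (d : ℝ) ^ (B - 1 - k) *
      (G.adj^[k]) (fun w => ∑ i, F w i) v := by
  induction B generalizing v with
  | zero => simp [hits]
  | succ B ih =>
    rw [LS_succ]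
    have h1 : ∀ i, LS d B (fun l => G.hits F v (i :: l)) =
        (d : ℝ) ^ B * F v i + LS d B (G.hits F (G.nb i v)) := by
      intro i
      rw [← LS_const, ← LS_add_fun]
      rfl
    simp only [h1, Finset.sum_add_distrib, ih]
    rw [← Finset.mul_sum, Finset.sum_range_succ', Finset.sum_comm]
    have h2 : ∀ k ∈ range B, ∑ i, (d : ℝ) ^ (B - 1 - k) *
        (G.adj^[k]) (fun w => ∑ i, F w i) (G.nb i v) =
        (d : ℝ) ^ (B + 1 - 1 - (k + 1)) * (G.adj^[k + 1]) (fun w => ∑ i, F w i) v := by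
      intro k hk
      rw [← Finset.mul_sum, Function.iterate_succ_apply']
      have : B - 1 - k = B + 1 - 1 - (k + 1) := by omega
      rw [this]
      rfl
    rw [Finset.sum_congr rfl h2]
    simp
    ring

/-- **Second moment** of the number of hits. -/
lemma second_moment [Nonempty V] (hd : 0 < d) {lam : ℝ} (h0 : 0 ≤ lam) (h1 : lam < 1)
    (hs : G.Spec lam) (F : V → Fin d → ℝ) (hF0 : ∀ v i, 0 ≤ F v i) (hF : ∀ v i, F v i ^ 2 = F v i)
    (hsym : ∀ v i, F (G.nb i v) (G.bk i) = F v i) (B : ℕ) :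
    ∑ v, LS d B (fun l => (G.hits F v l) ^ 2) ≤
      (d : ℝ) ^ B * (B * ((∑ v, ∑ i, F v i) / d * (1 + 2 / (1 - lam))) +
        B ^ 2 * ((∑ v, ∑ i, F v i) ^ 2 / (Fintype.card V * d ^ 2))) := by
  set n : ℝ := (Fintype.card V : ℝ) with hn
  have hn0 : 0 < n := by
    rw [hn]; exact_mod_cast Fintype.card_pos
  set ph : V → ℝ := fun w => ∑ i, F w i with hph
  set S := ∑ v, ∑ i, F v i with hS
  have hd0 : (0 : ℝ) < d := by exact_mod_cast hd
  have hS0 : 0 ≤ S := Finset.sum_nonneg fun v _ => Finset.sum_nonneg fun i _ => hF0 v i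
  have hl : 0 < 1 - lam := by linarith
  have hF1 : ∀ v i, F v i ≤ 1 := by
    intro v i
    have := hF v i
    nlinarith [hF0 v i]
  -- the square sum of `ph`
  have hph2 : ∑ v, ph v ^ 2 ≤ d * S := by
    rw [hS, Finset.mul_sum]
    refine Finset.sum_le_sum fun v _ => ?_
    have a1 : 0 ≤ ph v := Finset.sum_nonneg fun i _ => hF0 v i
    have a2 : ph v ≤ d := by
      calc ph v ≤ ∑ _i : Fin d, (1 : ℝ) := Finset.sum_le_sum fun i _ => hF1 v i
        _ = d := by simp
    nlinarith
  -- correlation bound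
  have key : ∀ B : ℕ, ∑ v, ∑ i, F v i * LS d B (G.hits F (G.nb i v)) ≤
      (d : ℝ) ^ (B + 1) / d ^ 2 * (B * (S ^ 2 / n) + d * S / (1 - lam)) := by
    intro B
    have e1 : ∑ v, ∑ i, F v i * LS d B (G.hits F (G.nb i v)) =
        ∑ v, ph v * LS d B (G.hits F v) := by
      have := G.sum_nb_bk (fun w j => F w j * LS d B (G.hits F w))
      simp only [hsym] at this
      rw [this]
      refine Finset.sum_congr rfl fun v _ => ?_
      rw [← Finset.sum_mul]
    rw [e1]
    simp only [G.LS_hits F B, Finset.mul_sum]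
    rw [Finset.sum_comm]
    have e2 : ∀ k ∈ range B, ∑ v, ph v * ((d : ℝ) ^ (B - 1 - k) *
        (G.adj^[k]) (fun w => ∑ i, F w i) v) ≤
        (d : ℝ) ^ (B + 1) / d ^ 2 * (S ^ 2 / n + lam ^ k * (d * S)) := by
      intro k hk
      have hk' : k < B := Finset.mem_range.1 hk
      have e3 : ∑ v, ph v * ((d : ℝ) ^ (B - 1 - k) * (G.adj^[k]) (fun w => ∑ i, F w i) v) =
          (d : ℝ) ^ (B - 1 - k) * ∑ v, ph v * (G.adj^[k]) ph v := by
        rw [Finset.mul_sum]
        refine Finset.sum_congr rfl fun v _ => ?_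
        ring
      rw [e3]
      have e4 := G.quad_bound h0 hs ph k
      have e5 : (d : ℝ) ^ (B - 1 - k) * ((d : ℝ) ^ k * S ^ 2 / n + (lam * d) ^ k * (d * S)) =
          (d : ℝ) ^ (B + 1) / d ^ 2 * (S ^ 2 / n + lam ^ k * (d * S)) := by
        have : (d : ℝ) ^ (B + 1) = d ^ (B - 1 - k) * d ^ k * d ^ 2 := by
          rw [← pow_add, ← pow_add]
          congr 1
          omega
        rw [this, mul_pow]
        field_simp
      rw [← e5]
      refine mul_le_mul_of_nonneg_left ?_ (by positivity)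
      refine e4.trans ?_
      have : (lam * d) ^ k * ∑ v, ph v ^ 2 ≤ (lam * d) ^ k * (d * S) :=
        mul_le_mul_of_nonneg_left hph2 (by positivity)
      have e6 : ∑ v, ph v = S := rfl
      rw [e6]
      linarith
    refine (Finset.sum_le_sum e2).trans ?_
    rw [← Finset.mul_sum]
    refine mul_le_mul_of_nonneg_left ?_ (by positivity)
    rw [Finset.sum_add_distrib, ← Finset.sum_mul]
    have e7 : ∑ k ∈ range B, lam ^ k ≤ 1 / (1 - lam) := by
      rw [geom_sum_eq (by linarith)]
      rw [← neg_div_neg_eq, neg_sub, neg_sub]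
      refine div_le_div_of_nonneg_right ?_ hl.le
      have : 0 ≤ lam ^ B := pow_nonneg h0 B
      linarith
    have e8 : (∑ k ∈ range B, lam ^ k) * (d * S) ≤ 1 / (1 - lam) * (d * S) :=
      mul_le_mul_of_nonneg_right e7 (by positivity)
    have e9 : 1 / (1 - lam) * (d * S) = d * S / (1 - lam) := by ring
    simp only [Finset.sum_const, Finset.card_range, nsmul_eq_mul]
    linarith
  -- induction on the length
  induction B with
  | zero => simp [hits]
  | succ B ih =>
    have s1 : ∀ v, LS d (B + 1) (fun l => (G.hits F v l) ^ 2) =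
        ∑ i, ((d : ℝ) ^ B * F v i + 2 * (F v i * LS d B (G.hits F (G.nb i v))) +
          LS d B (fun l => (G.hits F (G.nb i v) l) ^ 2)) := by
      intro v
      rw [LS_succ]
      refine Finset.sum_congr rfl fun i _ => ?_
      rw [← LS_const, ← LS_mul, ← LS_mul, ← LS_add_fun, ← LS_add_fun]
      congr 1
      funext l
      show (F v i + G.hits F (G.nb i v) l) ^ 2 = _
      have := hF v i
      nlinarith
    simp only [s1, Finset.sum_add_distrib]
    have s2 : ∑ v, ∑ i, (d : ℝ) ^ B * F v i = (d : ℝ) ^ B * S := by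
      simp only [← Finset.mul_sum, hS]
    have s3 : ∑ v, ∑ i, 2 * (F v i * LS d B (G.hits F (G.nb i v))) =
        2 * ∑ v, ∑ i, F v i * LS d B (G.hits F (G.nb i v)) := by
      simp only [← Finset.mul_sum]
    have s4 : ∑ v, ∑ i, LS d B (fun l => (G.hits F (G.nb i v) l) ^ 2) =
        d * ∑ v, LS d B (fun l => (G.hits F v l) ^ 2) := by
      rw [G.sum_nb_bk (fun v _ => LS d B (fun l => (G.hits F v l) ^ 2))]
      simp [Finset.mul_sum]
    rw [s2, s3, s4]
    have s5 := key B
    have s6 : (d : ℝ) * ∑ v, LS d B (fun l => (G.hits F v l) ^ 2) ≤ d * ((d : ℝ) ^ B *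
        (B * (S / d * (1 + 2 / (1 - lam))) + B ^ 2 * (S ^ 2 / (n * d ^ 2)))) :=
      mul_le_mul_of_nonneg_left ih hd0.le
    push_cast
    have s7 : (d : ℝ) ^ (B + 1) * (((B : ℝ) + 1) * (S / d * (1 + 2 / (1 - lam))) +
        ((B : ℝ) + 1) ^ 2 * (S ^ 2 / (n * d ^ 2))) =
        (d : ℝ) ^ B * S + 2 * ((d : ℝ) ^ (B + 1) / d ^ 2 * (B * (S ^ 2 / n) + d * S / (1 - lam))) +
        d * ((d : ℝ) ^ B * (B * (S / d * (1 + 2 / (1 - lam))) + B ^ 2 * (S ^ 2 / (n * d ^ 2)))) +
        (d : ℝ) ^ (B + 1) * (S ^ 2 / (n * d ^ 2)) := by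
      field_simp
      ring
    have s8 : 0 ≤ (d : ℝ) ^ (B + 1) * (S ^ 2 / (n * d ^ 2)) := by positivity
    rw [s7]
    linarith

end RG

/-! ### the first moment -/

/-- sum over all ways to split a list at a port -/
noncomputable def cnt {d : ℕ} (Q : List (Fin d) → Fin d → List (Fin d) → ℝ) :
    List (Fin d) → List (Fin d) → ℝ
  | _, [] => 0
  | p, i :: l => Q p i l + cnt Q (p ++ [i]) l

section cnt

variable {d : ℕ} {Q : List (Fin d) → Fin d → List (Fin d) → ℝ}

lemma cnt_nonneg (hQ : ∀ p i l, 0 ≤ Q p i l) (p l : List (Fin d)) : 0 ≤ cnt Q p l := by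
  induction l generalizing p with
  | nil => exact le_refl _
  | cons i l ih => exact add_nonneg (hQ _ _ _) (ih _)

lemma cnt_ne_zero (p l : List (Fin d)) (h : cnt Q p l ≠ 0) :
    ∃ l1 i l2, l = l1 ++ i :: l2 ∧ Q (p ++ l1) i l2 ≠ 0 := by
  induction l generalizing p with
  | nil => exact absurd rfl h
  | cons j l ih =>
    by_cases h1 : Q p j l = 0
    · have h2 : cnt Q (p ++ [j]) l ≠ 0 := by
        intro h3
        apply h
        show Q p j l + cnt Q (p ++ [j]) l = 0
        rw [h1, h3, add_zero]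
      obtain ⟨l1, i, l2, e, hq⟩ := ih _ h2
      refine ⟨j :: l1, i, l2, by rw [e]; rfl, ?_⟩
      rwa [List.append_assoc] at hq
    · exact ⟨[], j, l, rfl, by rwa [List.append_nil]⟩

lemma LS_cnt (T : ℕ) (p : List (Fin d)) :
    LS d T (cnt Q p) = ∑ k ∈ range T, LS d k (fun l1 => ∑ i, LS d (T - 1 - k)
      (fun l2 => Q (p ++ l1) i l2)) := by
  induction T generalizing p with
  | zero => simp [cnt]
  | succ T ih =>
    rw [LS_succ]
    have h1 : ∀ i, LS d T (fun l => cnt Q p (i :: l)) =
        LS d T (Q p i) + LS d T (cnt Q (p ++ [i])) := by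
      intro i
      rw [← LS_add_fun]
      rfl
    simp only [h1, Finset.sum_add_distrib, ih]
    rw [Finset.sum_range_succ', Finset.sum_comm, add_comm]
    congr 1
    · refine Finset.sum_congr rfl fun k hk => ?_
      rw [LS_succ]
      refine Finset.sum_congr rfl fun i _ => ?_
      congr 1
      funext l1
      have : T + 1 - 1 - (k + 1) = T - 1 - k := by omega
      rw [this]
      simp
    · simp

end cnt

/-- indicator of a proposition -/
noncomputable def ind (p : Prop) : ℝ := open Classical in if p then 1 else 0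

lemma ind_nonneg (p : Prop) : 0 ≤ ind p := by unfold ind; split_ifs <;> norm_num

lemma ind_le_one (p : Prop) : ind p ≤ 1 := by unfold ind; split_ifs <;> norm_num

lemma ind_true {p : Prop} (h : p) : ind p = 1 := by unfold ind; rw [if_pos h]

lemma ind_false {p : Prop} (h : ¬ p) : ind p = 0 := by unfold ind; rw [if_neg h]

lemma ind_ne_zero {p : Prop} (h : ind p ≠ 0) : p := by
  by_contra h1; exact h (ind_false h1)

lemma triangle_sum (h : ℕ) (c : ℕ → ℕ → ℝ) (hc : ∀ k m, 0 ≤ c k m) :
    ∑ k ∈ range (h + 1), ∑ m ∈ range (h + 1), c k m ≤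
      ∑ T ∈ range (2 * h + 1), ∑ k ∈ range (T + 1), c k (T - k) := by
  rw [Finset.sum_sigma', Finset.sum_sigma']
  have hinj : Set.InjOn (fun x : (_ : ℕ) × ℕ => (⟨x.1 + x.2, x.1⟩ : (_ : ℕ) × ℕ))
      ((range (h + 1)).sigma (fun _ => range (h + 1)) : Finset ((_ : ℕ) × ℕ)) := by
    rintro ⟨a, b⟩ _ ⟨a', b'⟩ _ hab
    simp only [Sigma.mk.injEq, heq_eq_eq] at hab
    obtain ⟨h1, h2⟩ := hab
    subst h2
    have : b = b' := by omega
    rw [this]
  calc ∑ x ∈ (range (h + 1)).sigma (fun _ => range (h + 1)), c x.1 x.2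
      = ∑ y ∈ ((range (h + 1)).sigma (fun _ => range (h + 1))).image
          (fun x : (_ : ℕ) × ℕ => (⟨x.1 + x.2, x.1⟩ : (_ : ℕ) × ℕ)), c y.2 (y.1 - y.2) := by
        rw [Finset.sum_image hinj]
        refine Finset.sum_congr rfl fun x _ => ?_
        simp only [Nat.add_sub_cancel_left]
    _ ≤ _ := by
        refine Finset.sum_le_sum_of_subset_of_nonneg ?_ (fun _ _ _ => hc _ _)
        intro y hy
        simp only [Finset.mem_image, Finset.mem_sigma, Finset.mem_range] at hy ⊢
        obtain ⟨x, ⟨hx1, hx2⟩, rfl⟩ := hy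
        constructor
        · show x.1 + x.2 < 2 * h + 1
          omega
        · show x.1 < x.1 + x.2 + 1
          omega

namespace RG

variable {V : Type} {d : ℕ} {A : Type} (G : RG V d A) [Fintype V]

/-- a step in `F` such that both end points of the walk agree with `t` on the step -/
noncomputable def goodStep (F : V → Fin d → ℝ) (s : V → List (Fin d) → A) (t : V → A) (v : V)
    (p : List (Fin d)) (i : Fin d) (l : List (Fin d)) : ℝ :=
  F (G.wend v p) i * ind (s v p = t (G.wend v p)) *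
    ind (s (G.wend (G.nb i (G.wend v p)) l) (G.rev l) = t (G.nb i (G.wend v p)))

/-- weight of the walks of length `k` from `u` whose end has the opinion `a` on `u` -/
noncomputable def opw (s : V → List (Fin d) → A) (k : ℕ) (a : A) (u : V) : ℝ :=
  LS d k (fun r => ind (s (G.wend u r) (G.rev r) = a))

lemma sum_goodStep (F : V → Fin d → ℝ) (s : V → List (Fin d) → A) (t : V → A) (k m : ℕ) :
    ∑ v, LS d k (fun l1 => ∑ i, LS d m (fun l2 => G.goodStep F s t v l1 i l2)) =
      ∑ u, ∑ i, F u i * G.opw s k (t u) u * G.opw s m (t (G.nb i u)) (G.nb i u) := by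
  have h1 : ∀ v l1, ∑ i, LS d m (fun l2 => G.goodStep F s t v l1 i l2) =
      ∑ i, F (G.wend v l1) i * ind (s v l1 = t (G.wend v l1)) *
        G.opw s m (t (G.nb i (G.wend v l1))) (G.nb i (G.wend v l1)) := by
    intro v l1
    refine Finset.sum_congr rfl fun i _ => ?_
    unfold goodStep opw
    rw [← LS_mul]
  simp only [h1]
  rw [← G.sum_rev k (fun v l1 => ∑ i, F (G.wend v l1) i * ind (s v l1 = t (G.wend v l1)) *
        G.opw s m (t (G.nb i (G.wend v l1))) (G.nb i (G.wend v l1)))]
  refine Finset.sum_congr rfl fun u _ => ?_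
  simp only [G.wend_rev]
  rw [LS_sum]
  refine Finset.sum_congr rfl fun i _ => ?_
  have : ∀ l, F u i * ind (s (G.wend u l) (G.rev l) = t u) * G.opw s m (t (G.nb i u)) (G.nb i u) =
      (F u i * G.opw s m (t (G.nb i u)) (G.nb i u)) * ind (s (G.wend u l) (G.rev l) = t u) := by
    intro l; ring
  simp only [this]
  rw [LS_mul]
  unfold opw
  ring

omit [Fintype V] in
/-- the opinions of all letters together -/
lemma sum_opw [Fintype A] (s : V → List (Fin d) → A) (k : ℕ) (u : V) :
    ∑ a, G.opw s k a u = (d : ℝ) ^ k := by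
  unfold opw
  rw [← LS_sum]
  have : ∀ r, ∑ a, ind (s (G.wend u r) (G.rev r) = a) = 1 := by
    intro r
    rw [Finset.sum_eq_single (s (G.wend u r) (G.rev r))]
    · exact ind_true rfl
    · intro b _ hb
      exact ind_false (Ne.symm hb)
    · intro hb
      exact absurd (Finset.mem_univ _) hb
  simp only [this]
  rw [LS_const, mul_one]

omit [Fintype V] in
lemma opw_nonneg (s : V → List (Fin d) → A) (k : ℕ) (a : A) (u : V) : 0 ≤ G.opw s k a u :=
  LS_nonneg fun _ => ind_nonneg _

omit [Fintype V] in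
/-- there is a letter that is the most popular opinion on `u` -/
lemma exists_popular [Fintype A] [Nonempty A] (s : V → List (Fin d) → A) (h : ℕ) (u : V) :
    ∃ a, ((h : ℝ) + 1) * (d : ℝ) ^ h / Fintype.card A ≤
      ∑ k ∈ range (h + 1), (d : ℝ) ^ (h - k) * G.opw s k a u := by
  by_contra hcon
  push Not at hcon
  have hA : (0 : ℝ) < Fintype.card A := by exact_mod_cast Fintype.card_pos
  have h1 : ∑ a, ∑ k ∈ range (h + 1), (d : ℝ) ^ (h - k) * G.opw s k a u <
      ∑ _a : A, ((h : ℝ) + 1) * (d : ℝ) ^ h / Fintype.card A :=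
    Finset.sum_lt_sum_of_nonempty Finset.univ_nonempty fun a _ => hcon a
  rw [Finset.sum_comm] at h1
  simp only [← Finset.mul_sum, G.sum_opw] at h1
  have h2 : ∑ k ∈ range (h + 1), (d : ℝ) ^ (h - k) * (d : ℝ) ^ k = ((h : ℝ) + 1) * (d : ℝ) ^ h := by
    have : ∀ k ∈ range (h + 1), (d : ℝ) ^ (h - k) * (d : ℝ) ^ k = (d : ℝ) ^ h := by
      intro k hk
      rw [← pow_add, Nat.sub_add_cancel (by have := Finset.mem_range.1 hk; omega)]
    rw [Finset.sum_congr rfl this]
    simp
  rw [h2] at h1
  simp only [Finset.sum_const, Finset.card_univ, nsmul_eq_mul] at h1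
  rw [mul_div_cancel₀ _ hA.ne'] at h1
  exact lt_irrefl _ h1

omit [Fintype V] in
lemma hits_take {F : V → Fin d → ℝ} (hF : ∀ v i, 0 ≤ F v i) (v : V) (l : List (Fin d)) (T : ℕ) :
    G.hits F v (l.take T) ≤ G.hits F v l := by
  induction l generalizing v T with
  | nil => simp
  | cons i l ih =>
    cases T with
    | zero =>
      rw [List.take_zero]
      exact G.hits_nonneg hF v _
    | succ T =>
      rw [List.take_succ_cons]
      exact add_le_add le_rfl (ih _ _)

omit [Fintype V] in
lemma goodStep_nonneg {F : V → Fin d → ℝ} (hF : ∀ v i, 0 ≤ F v i) (s : V → List (Fin d) → A)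
    (t : V → A) (v : V) (p : List (Fin d)) (i : Fin d) (l : List (Fin d)) :
    0 ≤ G.goodStep F s t v p i l :=
  mul_nonneg (mul_nonneg (hF _ _) (ind_nonneg _)) (ind_nonneg _)

omit [Fintype V] in
lemma goodStep_le {F : V → Fin d → ℝ} (hF : ∀ v i, 0 ≤ F v i) (s : V → List (Fin d) → A)
    (t : V → A) (v : V) (p : List (Fin d)) (i : Fin d) (l : List (Fin d)) :
    G.goodStep F s t v p i l ≤ F (G.wend v p) i := by
  unfold goodStep
  have h1 := ind_le_one (s v p = t (G.wend v p))
  have h2 := ind_le_one (s (G.wend (G.nb i (G.wend v p)) l) (G.rev l) = t (G.nb i (G.wend v p)))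
  have h3 := ind_nonneg (s v p = t (G.wend v p))
  have h4 := ind_nonneg (s (G.wend (G.nb i (G.wend v p)) l) (G.rev l) = t (G.nb i (G.wend v p)))
  have h5 := hF (G.wend v p) i
  calc F (G.wend v p) i * ind (s v p = t (G.wend v p)) *
        ind (s (G.wend (G.nb i (G.wend v p)) l) (G.rev l) = t (G.nb i (G.wend v p)))
      ≤ F (G.wend v p) i * 1 * 1 :=
        mul_le_mul (mul_le_mul_of_nonneg_left h1 h5) h2 h4 (by linarith)
    _ = _ := by ring

omit [Fintype V] in
lemma cnt_le_hits {F : V → Fin d → ℝ} (hF : ∀ v i, 0 ≤ F v i) (s : V → List (Fin d) → A)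
    (t : V → A) (v : V) (p l : List (Fin d)) :
    cnt (G.goodStep F s t v) p l ≤ G.hits F (G.wend v p) l := by
  induction l generalizing p with
  | nil => exact le_refl _
  | cons i l ih =>
    have h1 := ih (p ++ [i])
    rw [G.wend_append] at h1
    exact add_le_add (G.goodStep_le hF s t v p i l) h1

/-- **First moment.** -/
lemma first_moment [Fintype A] [Nonempty A] (F : V → Fin d → ℝ) (hF : ∀ v i, 0 ≤ F v i)
    (s : V → List (Fin d) → A) (t : V → A) (h : ℕ)
    (ht : ∀ u, ((h : ℝ) + 1) * (d : ℝ) ^ h / Fintype.card A ≤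
      ∑ k ∈ range (h + 1), (d : ℝ) ^ (h - k) * G.opw s k (t u) u) :
    (∑ v, ∑ i, F v i) * (((h : ℝ) + 1) * (d : ℝ) ^ h / Fintype.card A) ^ 2 ≤
      ∑ v, ∑ T ∈ range (2 * h + 1), LS d (2 * h + 1)
        (fun l => cnt (G.goodStep F s t v) [] (l.take (T + 1))) := by
  set X : ℕ → ℕ → ℝ := fun k m => ∑ u, ∑ i, F u i * G.opw s k (t u) u *
    G.opw s m (t (G.nb i u)) (G.nb i u) with hX
  have hX0 : ∀ k m, 0 ≤ X k m := fun k m => Finset.sum_nonneg fun u _ => Finset.sum_nonneg
    fun i _ => mul_nonneg (mul_nonneg (hF _ _) (G.opw_nonneg _ _ _ _)) (G.opw_nonneg _ _ _ _)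
  have e1 : ∑ v, ∑ T ∈ range (2 * h + 1), LS d (2 * h + 1)
        (fun l => cnt (G.goodStep F s t v) [] (l.take (T + 1))) =
      ∑ T ∈ range (2 * h + 1), ∑ k ∈ range (T + 1), (d : ℝ) ^ (2 * h - T) * X k (T - k) := by
    rw [Finset.sum_comm]
    refine Finset.sum_congr rfl fun T hT => ?_
    have hT' : T + 1 ≤ 2 * h + 1 := by have := Finset.mem_range.1 hT; omega
    have e2 : ∀ v, LS d (2 * h + 1) (fun l => cnt (G.goodStep F s t v) [] (l.take (T + 1))) =
        ∑ k ∈ range (T + 1), (d : ℝ) ^ (2 * h - T) * LS d k (fun l1 => ∑ i, LS d (T - k)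
          (fun l2 => G.goodStep F s t v l1 i l2)) := by
      intro v
      rw [LS_take hT' (fun l => cnt (G.goodStep F s t v) [] l), LS_cnt, Finset.mul_sum]
      refine Finset.sum_congr rfl fun k hk => ?_
      have e3 : 2 * h + 1 - (T + 1) = 2 * h - T := by omega
      have e4 : T + 1 - 1 - k = T - k := by omega
      rw [e3, e4]
      rfl
    simp only [e2]
    rw [Finset.sum_comm]
    refine Finset.sum_congr rfl fun k hk => ?_
    rw [← Finset.mul_sum, G.sum_goodStep]
  rw [e1]
  have e5 : ∑ T ∈ range (2 * h + 1), ∑ k ∈ range (T + 1), (d : ℝ) ^ (2 * h - T) * X k (T - k) =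
      ∑ T ∈ range (2 * h + 1), ∑ k ∈ range (T + 1),
        (fun k m => (d : ℝ) ^ (2 * h - (k + m)) * X k m) k (T - k) := by
    refine Finset.sum_congr rfl fun T _ => Finset.sum_congr rfl fun k hk => ?_
    have : k + (T - k) = T := by have := Finset.mem_range.1 hk; omega
    simp only [this]
  rw [e5]
  refine le_trans ?_ (triangle_sum h (fun k m => (d : ℝ) ^ (2 * h - (k + m)) * X k m)
    (fun k m => mul_nonneg (by positivity) (hX0 k m)))
  have e6 : ∑ k ∈ range (h + 1), ∑ m ∈ range (h + 1), (d : ℝ) ^ (2 * h - (k + m)) * X k m =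
      ∑ u, ∑ i, F u i * (∑ k ∈ range (h + 1), (d : ℝ) ^ (h - k) * G.opw s k (t u) u) *
        (∑ m ∈ range (h + 1), (d : ℝ) ^ (h - m) * G.opw s m (t (G.nb i u)) (G.nb i u)) := by
    have e7 : ∀ k ∈ range (h + 1), ∀ m ∈ range (h + 1),
        (d : ℝ) ^ (2 * h - (k + m)) * X k m = ∑ u, ∑ i, F u i * ((d : ℝ) ^ (h - k) *
          G.opw s k (t u) u) * ((d : ℝ) ^ (h - m) * G.opw s m (t (G.nb i u)) (G.nb i u)) := by
      intro k hk m hm
      have h1 := Finset.mem_range.1 hk
      have h2 := Finset.mem_range.1 hm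
      have h3 : 2 * h - (k + m) = (h - k) + (h - m) := by omega
      simp only [hX, Finset.mul_sum]
      refine Finset.sum_congr rfl fun u _ => Finset.sum_congr rfl fun i _ => ?_
      rw [h3, pow_add]
      ring
    rw [Finset.sum_congr rfl fun k hk => Finset.sum_congr rfl (e7 k hk)]
    rw [Finset.sum_congr rfl fun k _ => Finset.sum_comm]
    rw [Finset.sum_comm]
    refine Finset.sum_congr rfl fun u _ => ?_
    rw [Finset.sum_congr rfl fun k _ => Finset.sum_comm]
    rw [Finset.sum_comm]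
    refine Finset.sum_congr rfl fun i _ => ?_
    rw [mul_assoc, Finset.sum_mul_sum, Finset.mul_sum]
    refine Finset.sum_congr rfl fun k _ => ?_
    rw [Finset.mul_sum]
    refine Finset.sum_congr rfl fun m _ => ?_
    ring
  rw [e6, Finset.sum_mul]
  refine Finset.sum_le_sum fun u _ => ?_
  rw [Finset.sum_mul]
  refine Finset.sum_le_sum fun i _ => ?_
  have hp : 0 ≤ ((h : ℝ) + 1) * (d : ℝ) ^ h / Fintype.card A := by positivity
  have f1 := ht u
  have f2 := ht (G.nb i u)
  rw [sq, mul_assoc]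
  refine mul_le_mul_of_nonneg_left ?_ (hF u i)
  exact mul_le_mul f1 f2 hp (hp.trans f1)

end RG

/-! ### conclusion -/

lemma countP_eq_sum {α : Type} (p : α → Bool) (L : List α) :
    ((L.countP p : ℕ) : ℝ) = (L.map (fun l => if p l = true then (1 : ℝ) else 0)).sum := by
  induction L with
  | nil => simp
  | cons a L ih =>
    rw [List.countP_cons, List.map_cons, List.sum_cons, ← ih]
    push_cast
    split_ifs <;> ring

lemma list_range_sum (n : ℕ) (f : ℕ → ℝ) : ((List.range n).map f).sum = ∑ i ∈ range n, f i := by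
  induction n with
  | zero => simp
  | succ n ih => rw [List.range_succ, List.map_append, List.sum_append, ih,
      Finset.sum_range_succ]; simp

lemma countP_walks (d h : ℕ) (p : List (Fin d) → Bool) :
    (((walks d h).countP p : ℕ) : ℝ) = ∑ T ∈ range (2 * h + 1), LS d (2 * h + 1)
      (fun l => if p (l.take (T + 1)) = true then (1 : ℝ) else 0) := by
  rw [countP_eq_sum, walks, sum_map_flatMap, list_range_sum]
  refine Finset.sum_congr rfl fun T _ => ?_
  rw [List.map_map]
  rfl

lemma walks_length' (d h : ℕ) :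
    ((walks d h).length : ℝ) = (2 * h + 1) * (d : ℝ) ^ (2 * h + 1) := by
  have h1 := countP_walks d h (fun _ => true)
  rw [List.countP_true] at h1
  rw [h1]
  simp only [if_true, LS_const, Finset.sum_const, Finset.card_range, nsmul_eq_mul]
  push_cast
  ring

open Classical in
theorem power_sound {V : Type} [Fintype V] [Nonempty V] {d : ℕ} (hd : 0 < d) {A : Type} [Finite A]
    [Nonempty A] (G : RG V d A) {lam e : ℝ} (h0 : 0 ≤ lam) (h1 : lam < 1) (hs : G.Spec lam)
    (he : 0 ≤ e) (hg : G.Gap e) (h : ℕ) (s : V → List (Fin d) → A) :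
    cpow A lam * min ((h + 1) * e) 1 * (Fintype.card V * (walks d h).length) ≤
      ∑ v, (((walks d h).countP (fun l => decide (¬ G.Passes (s v) (s (G.wend v l)) v l)) : ℕ) : ℝ)
    := by
  let _ : Fintype A := Fintype.ofFinite A
  choose t ht using G.exists_popular s h
  -- the violated ports
  set F : V → Fin d → ℝ := fun v i => if G.con i v (t v) (t (G.nb i v)) = false then 1 else 0
    with hF
  have hF0 : ∀ v i, 0 ≤ F v i := by
    intro v i; simp only [hF]; split_ifs <;> norm_num
  have hFsq : ∀ v i, F v i ^ 2 = F v i := by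
    intro v i; simp only [hF]; split_ifs <;> norm_num
  have hFsym : ∀ v i, F (G.nb i v) (G.bk i) = F v i := by
    intro v i
    simp only [hF, G.nb_bk, G.con_bk]
  have hS : ∑ v, ∑ i, F v i = G.viol t := by
    unfold RG.viol
    rw [Finset.card_filter, Fintype.sum_prod_type]
    push_cast
    rfl
  set n : ℝ := (Fintype.card V : ℝ) with hn
  have hn0 : 0 < n := by rw [hn]; exact_mod_cast Fintype.card_pos
  have hd0 : (0 : ℝ) < d := by exact_mod_cast hd
  have ha0 : (0 : ℝ) < (Fintype.card A : ℝ) := by exact_mod_cast Fintype.card_pos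
  have hl : 0 < 1 - lam := by linarith
  set S := ∑ v, ∑ i, F v i with hSdef
  have hge : e * (n * d) ≤ S := by rw [hS]; exact hg t
  have hS0 : 0 ≤ S := Finset.sum_nonneg fun v _ => Finset.sum_nonneg fun i _ => hF0 v i
  set B : ℕ := 2 * h + 1 with hB
  set R := ∑ v, (((walks d h).countP
    (fun l => decide (¬ G.Passes (s v) (s (G.wend v l)) v l)) : ℕ) : ℝ) with hR
  have hR0 : 0 ≤ R := Finset.sum_nonneg fun v _ => Nat.cast_nonneg _
  rcases hS0.eq_or_lt with hSz | hSpos
  · have : e ≤ 0 := by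
      by_contra hcon
      push Not at hcon
      have : 0 < e * (n * d) := by positivity
      linarith
    have he' : e = 0 := le_antisymm this he
    rw [he']
    simpa using hR0
  -- first and second moment
  have hfm := G.first_moment F hF0 s t h ht
  rw [← hSdef] at hfm
  have hsm := G.second_moment hd h0 h1 hs F hF0 hFsq hFsym B
  rw [← hSdef, ← hn] at hsm
  set Φ := ∑ v, LS d B (fun l => (G.hits F v l) ^ 2) with hΦ
  set W0 := S * (((h : ℝ) + 1) * (d : ℝ) ^ h / Fintype.card A) ^ 2 with hW0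
  set Φ0 := (d : ℝ) ^ B * (B * (S / d * (1 + 2 / (1 - lam))) + B ^ 2 * (S ^ 2 / (n * d ^ 2)))
    with hΦ0
  have hB0 : (0 : ℝ) < B := by rw [hB]; positivity
  have hW0pos : 0 < W0 := by positivity
  have hΦ0pos : 0 < Φ0 := by positivity
  -- the rejection count
  have hR' : R = ∑ v, ∑ T ∈ range (2 * h + 1), LS d (2 * h + 1)
      (fun l => if (decide (¬ G.Passes (s v) (s (G.wend v (l.take (T + 1)))) v (l.take (T + 1))))
        = true then (1 : ℝ) else 0) := by
    rw [hR]
    exact Finset.sum_congr rfl fun v _ => countP_walks d h _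
  -- pointwise inequality
  have hpt : ∀ c : ℝ, 0 < c → ∀ (v : V) (T : ℕ) (l : List (Fin d)),
      cnt (G.goodStep F s t v) [] (l.take (T + 1)) ≤ 1 / (2 * c) * (G.hits F v l) ^ 2 +
        c / 2 * (if (decide (¬ G.Passes (s v) (s (G.wend v (l.take (T + 1)))) v
          (l.take (T + 1)))) = true then (1 : ℝ) else 0) := by
    intro c hc v T l
    set N := cnt (G.goodStep F s t v) [] (l.take (T + 1)) with hN
    have hN0 : 0 ≤ N := cnt_nonneg (fun p i m => G.goodStep_nonneg hF0 s t v p i m) _ _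
    have hNh : N ≤ G.hits F v l := by
      refine (G.cnt_le_hits hF0 s t v [] (l.take (T + 1))).trans ?_
      exact G.hits_take hF0 v l (T + 1)
    have hN2 : N ^ 2 ≤ (G.hits F v l) ^ 2 := pow_le_pow_left₀ hN0 hNh 2
    by_cases hz : N = 0
    · rw [hz]
      have a1 : 0 ≤ 1 / (2 * c) * (G.hits F v l) ^ 2 := by positivity
      have a2 : 0 ≤ c / 2 * (if (decide (¬ G.Passes (s v) (s (G.wend v (l.take (T + 1)))) v
          (l.take (T + 1)))) = true then (1 : ℝ) else 0) := by
        split_ifs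
        · positivity
        · simp
      linarith
    · obtain ⟨l1, i, l2, e1, hq⟩ := cnt_ne_zero _ _ hz
      rw [List.nil_append] at hq
      have hnp : ¬ G.Passes (s v) (s (G.wend v (l.take (T + 1)))) v (l.take (T + 1)) := by
        intro hp
        have h3 := hp l1 i l2 e1
        unfold RG.goodStep at hq
        have q1 := left_ne_zero_of_mul (left_ne_zero_of_mul hq)
        have q2 := ind_ne_zero (right_ne_zero_of_mul (left_ne_zero_of_mul hq))
        have q3 := ind_ne_zero (right_ne_zero_of_mul hq)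
        rw [e1, G.wend_append, G.wend_cons, q2, q3] at h3
        apply q1
        simp only [hF]
        rw [if_neg]
        rw [h3]
        simp
      rw [if_pos (by simpa using hnp)]
      have a3 : N ≤ 1 / (2 * c) * N ^ 2 + c / 2 := by
        have : 0 ≤ (N - c) ^ 2 / (2 * c) := by positivity
        have e2 : 1 / (2 * c) * N ^ 2 + c / 2 - N = (N - c) ^ 2 / (2 * c) := by
          field_simp
          ring
        linarith
      have a4 : 1 / (2 * c) * N ^ 2 ≤ 1 / (2 * c) * (G.hits F v l) ^ 2 :=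
        mul_le_mul_of_nonneg_left hN2 (by positivity)
      linarith
  -- summation
  have hsum : ∀ c : ℝ, 0 < c → W0 ≤ 1 / (2 * c) * (B * Φ) + c / 2 * R := by
    intro c hc
    refine hfm.trans ?_
    have b1 : ∑ v, ∑ T ∈ range (2 * h + 1), LS d (2 * h + 1)
        (fun l => cnt (G.goodStep F s t v) [] (l.take (T + 1))) ≤
        ∑ v, ∑ T ∈ range (2 * h + 1), (1 / (2 * c) * LS d (2 * h + 1)
          (fun l => (G.hits F v l) ^ 2) + c / 2 * LS d (2 * h + 1)
          (fun l => if (decide (¬ G.Passes (s v) (s (G.wend v (l.take (T + 1)))) v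
            (l.take (T + 1)))) = true then (1 : ℝ) else 0)) := by
      refine Finset.sum_le_sum fun v _ => Finset.sum_le_sum fun T _ => ?_
      rw [← LS_mul, ← LS_mul, ← LS_add_fun]
      exact LS_mono fun l _ => hpt c hc v T l
    refine b1.trans (le_of_eq ?_)
    simp only [Finset.sum_add_distrib]
    congr 1
    · simp only [Finset.sum_const, Finset.card_range, nsmul_eq_mul, hΦ, Finset.mul_sum, hB]
      refine Finset.sum_congr rfl fun v _ => ?_
      ring
    · rw [hR']
      simp only [Finset.mul_sum]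
  have hmain : W0 ^ 2 / (B * Φ0) ≤ R := by
    have hc : 0 < B * Φ0 / W0 := by positivity
    have := hsum _ hc
    have b2 : 1 / (2 * (B * Φ0 / W0)) * (B * Φ) ≤ 1 / (2 * (B * Φ0 / W0)) * (B * Φ0) :=
      mul_le_mul_of_nonneg_left (mul_le_mul_of_nonneg_left hsm hB0.le) (by positivity)
    have b3 : 1 / (2 * (B * Φ0 / W0)) * (B * Φ0) = W0 / 2 := by
      field_simp
    have b4 : W0 / 2 ≤ B * Φ0 / W0 / 2 * R := by linarith
    rw [div_le_iff₀ (by positivity)]
    have b5 : W0 * (W0 / 2) ≤ W0 * (B * Φ0 / W0 / 2 * R) :=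
      mul_le_mul_of_nonneg_left b4 hW0pos.le
    have b6 : W0 * (B * Φ0 / W0 / 2 * R) = B * Φ0 / 2 * R := by field_simp
    nlinarith
  refine le_trans ?_ hmain
  -- the final computation
  set mu := S / (n * d) with hmu
  have hmu0 : 0 < mu := by positivity
  have hSmu : S = mu * (n * d) := by rw [hmu]; field_simp
  have hmue : e ≤ mu := by rw [hmu, le_div_iff₀ (by positivity)]; exact hge
  set a : ℝ := (Fintype.card A : ℝ) with ha
  set K := 1 + 2 / (1 - lam) with hK
  have hK0 : 0 < K := by positivity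
  set D : ℝ := (d : ℝ) ^ B with hD
  have hD0 : 0 < D := by positivity
  set H : ℝ := (h : ℝ) + 1 with hH
  have hH0 : 0 < H := by positivity
  have hBH : (B : ℝ) ≤ 2 * H := by rw [hB, hH]; push_cast; linarith
  have hW : W0 ^ 2 / (B * Φ0) = mu * n * H ^ 4 * D / (a ^ 4 * B ^ 2 * (K + B * mu)) := by
    have hdd : ((d : ℝ) ^ h) ^ 4 * (d : ℝ) ^ 2 = D ^ 2 := by
      rw [hD, hB, ← pow_mul, ← pow_mul, ← pow_add]
      congr 1
      ring
    have e1 : W0 ^ 2 = mu ^ 2 * n ^ 2 * H ^ 4 * D ^ 2 / a ^ 4 := by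
      rw [hW0, hSmu, ← hdd]
      field_simp
    have e2 : (B : ℝ) * Φ0 = D * B ^ 2 * n * mu * (K + B * mu) := by
      rw [hΦ0, hSmu]
      field_simp
    rw [e1, e2]
    field_simp
  have hcp : cpow A lam = 1 / (8 * a ^ 4 * (K + 2)) := by
    unfold cpow
    rw [Nat.card_eq_fintype_card, ← ha, hK]
    congr 2
    ring
  rw [hW, walks_length', hcp]
  have hBcast : (2 * (h : ℝ) + 1) = B := by rw [hB]; push_cast; ring
  rw [hBcast]
  set q := min (H * e) 1 with hq
  have hq0 : 0 ≤ q := le_min (by positivity) zero_le_one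
  have hq1 : q ≤ 1 := min_le_right _ _
  have hq2 : q ≤ H * mu := (min_le_left _ _).trans (mul_le_mul_of_nonneg_left hmue hH0.le)
  have hfin : q * (K + 2 * (H * mu)) ≤ H * mu * (K + 2) := by
    nlinarith [mul_pos hH0 hmu0]
  have hB3 : (B : ℝ) ^ 3 ≤ 8 * H ^ 3 := by
    calc (B : ℝ) ^ 3 ≤ (2 * H) ^ 3 := pow_le_pow_left₀ hB0.le hBH 3
      _ = 8 * H ^ 3 := by ring
  have hKB : K + B * mu ≤ K + 2 * (H * mu) := by nlinarith
  have hstep : q * B ^ 3 * (K + B * mu) ≤ 8 * H ^ 4 * mu * (K + 2) := by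
    calc q * B ^ 3 * (K + B * mu) ≤ q * (8 * H ^ 3) * (K + 2 * (H * mu)) := by
          apply mul_le_mul (mul_le_mul_of_nonneg_left hB3 hq0) hKB (by positivity) (by positivity)
      _ = 8 * H ^ 3 * (q * (K + 2 * (H * mu))) := by ring
      _ ≤ 8 * H ^ 3 * (H * mu * (K + 2)) := mul_le_mul_of_nonneg_left hfin (by positivity)
      _ = _ := by ring
  rw [show 1 / (8 * a ^ 4 * (K + 2)) * q * (n * (B * D)) =
    (q * n * B * D) / (8 * a ^ 4 * (K + 2)) by ring]
  rw [div_le_div_iff₀ (by positivity) (by positivity)]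
  calc q * n * B * D * (a ^ 4 * B ^ 2 * (K + B * mu))
      = (n * D * a ^ 4) * (q * B ^ 3 * (K + B * mu)) := by ring
    _ ≤ (n * D * a ^ 4) * (8 * H ^ 4 * mu * (K + 2)) :=
      mul_le_mul_of_nonneg_left hstep (by positivity)
    _ = _ := by ring

end Pool.Agent.Lib.PCP
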