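import Pool.Agent.Lib.PCP.MGG

/-!
# The PCP theorem: the prepared graph
-/

set_option autoImplicit false

namespace Pool.Agent.Lib.PCP

open Pool.Agent.Lib.helper60
open Pool.Agent.H66 (Cl Sat3)
open Finset (range)

/-! ### lists -/

lemma prepG_filter_range_get (p : ℕ → Bool) (n : ℕ) {e : ℕ} (he : e < n) (hp : p e = true) :
    ((List.range n).filter p)[((List.range e).filter p).length]? = some e := by
  induction n with
  | zero => omega
  | succ n ih =>
    rw [List.range_succ, List.filter_append]
    rcases Nat.lt_succ_iff_lt_or_eq.1 he with h | h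
    · have h1 := ih h
      have h2 : ((List.range e).filter p).length < ((List.range n).filter p).length := by
        by_contra hcon
        rw [List.getElem?_eq_none (not_lt.1 hcon)] at h1
        exact absurd h1 (by simp)
      rw [List.getElem?_append_left h2, h1]
    · subst h
      rw [List.getElem?_append_right le_rfl, Nat.sub_self]
      simp [hp]

lemma prepG_filter_range_exists (p : ℕ → Bool) (n i : ℕ)
    (hi : i < ((List.range n).filter p).length) :
    ∃ e, e < n ∧ p e = true ∧ ((List.range e).filter p).length = i := by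
  induction n with
  | zero => simp at hi
  | succ n ih =>
    rw [List.range_succ, List.filter_append, List.length_append] at hi
    rcases lt_or_ge i ((List.range n).filter p).length with h | h
    · obtain ⟨e, h1, h2, h3⟩ := ih h
      exact ⟨e, by omega, h2, h3⟩
    · by_cases hp : p n = true
      · refine ⟨n, by omega, hp, ?_⟩
        simp only [List.filter_cons, hp, if_true, List.filter_nil, List.length_cons,
          List.length_nil] at hi
        omega
      · simp only [List.filter_cons, hp, List.filter_nil] at hi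
        simp at hi
        omega

lemma prepG_sum_filter (f : ℕ → ℕ) (n : ℕ) (L : List ℕ) (h : ∀ e ∈ L, f e < n) :
    ∑ x ∈ range n, (L.filter (fun e => decide (f e = x))).length = L.length := by
  induction L with
  | nil => simp
  | cons e L ih =>
    have h1 := ih fun e' he' => h e' (List.mem_cons_of_mem _ he')
    have h2 : ∀ x, ((e :: L).filter (fun e => decide (f e = x))).length =
        (if x = f e then 1 else 0) + (L.filter (fun e => decide (f e = x))).length := by
      intro x
      rw [List.filter_cons]
      by_cases hx : f e = x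
      · simp only [hx, decide_true, if_true, List.length_cons]
        omega
      · have hx' : ¬ x = f e := fun h => hx h.symm
        simp only [hx, decide_false, if_neg hx']
        simp
    simp only [h2]
    rw [Finset.sum_add_distrib, h1, Finset.sum_ite_eq' (range n) (f e) (fun _ => 1),
      if_pos (Finset.mem_range.2 (h e List.mem_cons_self)), List.length_cons]
    omega

/-- names of the vertices of the clouds of sizes `g` -/
def prepG_names (g : ℕ → ℕ) (n : ℕ) : List (ℕ × ℕ) :=
  (List.range n).flatMap (fun x => (List.range (g x)).map (fun p => (x, p)))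

def prepG_base (g : ℕ → ℕ) (n : ℕ) : ℕ := ((List.range n).map g).sum

lemma prepG_base_succ (g : ℕ → ℕ) (n : ℕ) : prepG_base g (n + 1) = prepG_base g n + g n := by
  simp [prepG_base, List.range_succ]

lemma prepG_names_succ (g : ℕ → ℕ) (n : ℕ) : prepG_names g (n + 1) =
    prepG_names g n ++ (List.range (g n)).map (fun p => (n, p)) := by
  simp [prepG_names, List.range_succ]

lemma prepG_names_length (g : ℕ → ℕ) (n : ℕ) : (prepG_names g n).length = prepG_base g n := by
  induction n with
  | zero => rfl
  | succ n ih =>
    rw [prepG_names_succ, prepG_base_succ, List.length_append, ih]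
    simp

lemma prepG_names_get (g : ℕ → ℕ) (n : ℕ) {x p : ℕ} (hx : x < n) (hp : p < g x) :
    prepG_base g x + p < prepG_base g n ∧
      (prepG_names g n)[prepG_base g x + p]? = some (x, p) := by
  induction n with
  | zero => omega
  | succ n ih =>
    rw [prepG_names_succ, prepG_base_succ]
    rcases Nat.lt_succ_iff_lt_or_eq.1 hx with h | h
    · obtain ⟨h1, h2⟩ := ih h
      refine ⟨by omega, ?_⟩
      rw [List.getElem?_append_left (by rw [prepG_names_length]; exact h1), h2]
    · subst h
      refine ⟨by omega, ?_⟩
      rw [List.getElem?_append_right (by rw [prepG_names_length]; omega), prepG_names_length,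
        Nat.add_sub_cancel_left, List.getElem?_map, List.getElem?_range hp]
      rfl

lemma prepG_names_surj (g : ℕ → ℕ) (n : ℕ) {v : ℕ} (hv : v < prepG_base g n) :
    ∃ x p, x < n ∧ p < g x ∧ v = prepG_base g x + p := by
  induction n with
  | zero => simp [prepG_base] at hv
  | succ n ih =>
    rw [prepG_base_succ] at hv
    rcases lt_or_ge v (prepG_base g n) with h | h
    · obtain ⟨x, p, h1, h2, h3⟩ := ih h
      exact ⟨x, p, by omega, h2, h3⟩
    · exact ⟨n, v - prepG_base g n, by omega, by omega, by omega⟩

lemma prepG_table_length {β : Type} (d n : ℕ) (f : ℕ → Fin d → β) :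
    ((List.range n).flatMap (fun v => (List.finRange d).map (f v))).length = n * d := by
  induction n with
  | zero => simp
  | succ n ih =>
    rw [List.range_succ, List.flatMap_append, List.length_append, ih]
    simp
    ring

lemma prepG_table_get {β : Type} (d n : ℕ) (f : ℕ → Fin d → β) {v : ℕ} (hv : v < n)
    (i : Fin d) :
    ((List.range n).flatMap (fun v => (List.finRange d).map (f v)))[v * d + i.val]? =
      some (f v i) := by
  induction n with
  | zero => omega
  | succ n ih =>
    rw [List.range_succ, List.flatMap_append]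
    rcases Nat.lt_succ_iff_lt_or_eq.1 hv with h | h
    · have h1 : v * d + i.val < n * d := by
        have : (v + 1) * d ≤ n * d := Nat.mul_le_mul_right _ h
        have := i.isLt
        nlinarith
      rw [List.getElem?_append_left (by rw [prepG_table_length]; exact h1), ih h]
    · subst h
      rw [List.getElem?_append_right (by rw [prepG_table_length]; omega), prepG_table_length,
        Nat.add_sub_cancel_left]
      simp

section

variable {A : Type} (I : Inst A)

lemma prepG_sqs_spec (k : ℕ) : k ≤ sqs k * sqs k ∧ ∀ s < sqs k, s * s < k := by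
  have hne : 0 < ((List.range (k + 1)).filter (fun s => decide (k ≤ s * s))).length := by
    rw [List.length_pos_iff_exists_mem]
    refine ⟨k, List.mem_filter.2 ⟨List.mem_range.2 (by omega), ?_⟩⟩
    simp only [decide_eq_true_eq]
    exact Nat.le_mul_self k
  obtain ⟨e, h1, h2, h3⟩ := prepG_filter_range_exists _ _ _ hne
  have h4 := prepG_filter_range_get (fun s => decide (k ≤ s * s)) _ h1 h2
  rw [h3] at h4
  have h5 : sqs k = e := by
    unfold sqs
    rw [List.headD_eq_head?_getD, List.head?_eq_getElem?, h4]
    rfl
  rw [h5]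
  refine ⟨by simpa using h2, fun s hs => ?_⟩
  by_contra hcon
  have h6 := prepG_filter_range_get (fun s => decide (k ≤ s * s)) e hs (by simpa using hcon)
  rw [List.length_eq_zero_iff.1 h3] at h6
  simp at h6

theorem sqs_le (k : ℕ) : k ≤ sqs k * sqs k := (prepG_sqs_spec k).1

theorem sqs_ge (k : ℕ) : sqs k * sqs k ≤ 4 * k := by
  obtain ⟨h1, h2⟩ := prepG_sqs_spec k
  rcases Nat.eq_zero_or_pos (sqs k) with h | h
  · rw [h]; omega
  · have h3 := h2 (sqs k - 1) (by omega)
    obtain ⟨s, hs⟩ : ∃ s, sqs k = s + 1 := ⟨sqs k - 1, by omega⟩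
    rw [hs, Nat.add_sub_cancel] at h3
    rw [hs]
    rcases Nat.eq_zero_or_pos s with h4 | h4
    · subst h4
      omega
    · nlinarith

theorem half_eq (e : ℕ) : half e = (e / 2, decide (e % 2 = 1)) := by
  induction e with
  | zero => rfl
  | succ e ih =>
    unfold half at ih ⊢
    rw [Function.iterate_succ_apply', ih]
    rcases Nat.mod_two_eq_zero_or_one e with h | h
    · have h1 : (e + 1) % 2 = 1 := by omega
      have h2 : (e + 1) / 2 = e / 2 := by omega
      simp [h, h1, h2]
    · have h1 : (e + 1) % 2 = 0 := by omega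
      have h2 : (e + 1) / 2 = e / 2 + 1 := by omega
      simp [h, h1, h2]

lemma prepG_cst_mem {j : ℕ} (hj : j < I.2.length) : cst I j ∈ I.2 := by
  unfold cst
  rw [List.getD_eq_getElem?_getD, List.getElem?_eq_getElem hj]
  exact List.getElem_mem hj

theorem slotVar_lt (hb : Bdd I) {e : ℕ} (he : e < 2 * I.2.length) : slotVar I e < I.1 := by
  have h1 : e / 2 < I.2.length := by omega
  have h2 := hb _ (prepG_cst_mem I h1)
  unfold slotVar
  rw [half_eq]
  cases decide (e % 2 = 1)
  · exact h2.1
  · exact h2.2

theorem sum_occ (hb : Bdd I) : ∑ x ∈ range I.1, (occ I x).length = 2 * I.2.length := by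
  have h := prepG_sum_filter (slotVar I) I.1 (List.range (2 * I.2.length))
    (fun e he => slotVar_lt I hb (List.mem_range.1 he))
  rw [List.length_range] at h
  exact h

/-- the vertex `(x, p)` has the number `base I x + p` -/
theorem names_get {x p : ℕ} (hx : x < I.1) (hp : p < csz I x * csz I x) :
    base I x + p < base I I.1 ∧ (names I).getD (base I x + p) (0, 0) = (x, p) := by
  obtain ⟨h1, h2⟩ := prepG_names_get (fun y => csz I y * csz I y) I.1 hx hp
  refine ⟨h1, ?_⟩
  rw [List.getD_eq_getElem?_getD]
  have h3 : (names I)[base I x + p]? = some (x, p) := h2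
  rw [h3]
  rfl

theorem names_surj {v : ℕ} (hv : v < base I I.1) :
    ∃ x p, x < I.1 ∧ p < csz I x * csz I x ∧ v = base I x + p :=
  prepG_names_surj (fun y => csz I y * csz I y) I.1 hv

lemma prepG_mate (e : ℕ) : mate e = if e % 2 = 1 then e - 1 else e + 1 := by
  unfold mate
  rw [half_eq]
  by_cases h : e % 2 = 1 <;> simp [h]

theorem mate_lt {e : ℕ} (he : e < 2 * I.2.length) : mate e < 2 * I.2.length := by
  rw [prepG_mate]
  split_ifs with h <;> omega

theorem mate_mate (e : ℕ) : mate (mate e) = e := by
  rw [prepG_mate e]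
  split_ifs with h
  · rw [prepG_mate, if_neg (by omega)]
    omega
  · rw [prepG_mate, if_pos (by omega)]
    omega

lemma prepG_occ_get {e : ℕ} (he : e < 2 * I.2.length) :
    (occ I (slotVar I e))[rank I e]? = some e :=
  prepG_filter_range_get (fun e' => decide (slotVar I e' = slotVar I e)) _ he (by simp)

theorem rank_lt {e : ℕ} (he : e < 2 * I.2.length) :
    rank I e < (occ I (slotVar I e)).length := by
  have h := prepG_occ_get I he
  by_contra hcon
  rw [List.getElem?_eq_none (not_lt.1 hcon)] at h
  exact absurd h (by simp)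

theorem occ_rank {e : ℕ} (he : e < 2 * I.2.length) :
    (occ I (slotVar I e)).getD (rank I e) 0 = e := by
  rw [List.getD_eq_getElem?_getD, prepG_occ_get I he]
  rfl

theorem occ_get {x p : ℕ} (hp : p < (occ I x).length) :
    (occ I x).getD p 0 < 2 * I.2.length ∧ slotVar I ((occ I x).getD p 0) = x ∧
      rank I ((occ I x).getD p 0) = p := by
  obtain ⟨e, h1, h2, h3⟩ := prepG_filter_range_exists _ _ _ hp
  have h2' : slotVar I e = x := by simpa using h2
  subst h2'
  have h4 : rank I e = p := h3
  subst h4
  rw [occ_rank I h1]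
  exact ⟨h1, rfl, rfl⟩

lemma prepG_slotCon_mate (e : ℕ) (a b : A) : slotCon I (mate e) b a = slotCon I e a b := by
  unfold slotCon
  rw [half_eq, half_eq, prepG_mate]
  by_cases h : e % 2 = 1
  · have h1 : (e - 1) % 2 = 0 := by omega
    have h2 : (e - 1) / 2 = e / 2 := by omega
    simp [h, h1, h2]
  · have h0 : e % 2 = 0 := by omega
    have h1 : (e + 1) % 2 = 1 := by omega
    have h2 : (e + 1) / 2 = e / 2 := by omega
    simp [h0, h1, h2]

/-! ### the ports -/

lemma prepG_bk17_ge {i : Fin 17} (h : 9 ≤ i.val) : ∃ h' : 9 ≤ (bk17 i).val,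
    (⟨(bk17 i).val - 9, by omega⟩ : Fin 8) = bk8 ⟨i.val - 9, by omega⟩ := by
  revert h
  fin_cases i <;> intro h <;> simp at h <;> exact ⟨by decide, rfl⟩

lemma prepG_bk17_lt {i : Fin 17} (h : i.val < 8) : ∃ h' : (bk17 i).val < 8,
    (⟨(bk17 i).val, h'⟩ : Fin 8) = bk8 ⟨i.val, h⟩ := by
  revert h
  fin_cases i <;> intro h <;> simp at h <;> exact ⟨by decide, rfl⟩

lemma prepG_bk17_bk17 (i : Fin 17) : bk17 (bk17 i) = i := by
  revert i
  decide

lemma prepG_bk17_lt9 {i : Fin 17} (h : ¬ 9 ≤ i.val) : ¬ 9 ≤ (bk17 i).val := by
  revert h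
  revert i
  decide

lemma prepG_pent_ge [DecidableEq A] (i : Fin 17) (v : ℕ) (h : 9 ≤ i.val) :
    pent I i v = (mgg (side I) v ⟨i.val - 9, by omega⟩, fun _ _ => true) := by
  unfold pent
  rw [dif_pos h]

lemma prepG_pent_out [DecidableEq A] (i : Fin 17) (v : ℕ) (h : ¬ 9 ≤ i.val)
    (hv : base I I.1 ≤ v) : pent I i v = (v, fun _ _ => true) := by
  unfold pent
  rw [dif_neg h, if_pos hv]

lemma prepG_pent_lt [DecidableEq A] (i : Fin 17) {x p : ℕ} (hx : x < I.1)
    (hp : p < csz I x * csz I x) (h : i.val < 8) :
    pent I i (base I x + p) = (base I x + mgg (csz I x) p ⟨i.val, h⟩, fun a b => decide (a = b)) := by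
  obtain ⟨h1, h2⟩ := names_get I hx hp
  unfold pent
  rw [dif_neg (by omega), if_neg (not_le.2 h1)]
  simp only [h2]
  rw [dif_pos h]

lemma prepG_pent_free [DecidableEq A] (i : Fin 17) {x p : ℕ} (hx : x < I.1)
    (hp : p < csz I x * csz I x) (h : i.val = 8) (ho : (occ I x).length ≤ p) :
    pent I i (base I x + p) = (base I x + p, fun _ _ => true) := by
  obtain ⟨h1, h2⟩ := names_get I hx hp
  unfold pent
  rw [dif_neg (by omega), if_neg (not_le.2 h1)]
  simp only [h2]
  rw [dif_neg (by omega), if_pos ho]

lemma prepG_csz (x : ℕ) : (occ I x).length ≤ csz I x * csz I x := sqs_le _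

lemma prepG_pent_slot [DecidableEq A] (hb : Bdd I) (i : Fin 17) (h : i.val = 8) {e : ℕ}
    (he : e < 2 * I.2.length) :
    pent I i (base I (slotVar I e) + rank I e) =
      (base I (slotVar I (mate e)) + rank I (mate e), slotCon I e) := by
  have hx := slotVar_lt I hb he
  have hr := rank_lt I he
  have hp : rank I e < csz I (slotVar I e) * csz I (slotVar I e) :=
    lt_of_lt_of_le hr (prepG_csz I _)
  obtain ⟨h1, h2⟩ := names_get I hx hp
  unfold pent
  rw [dif_neg (by omega), if_neg (not_le.2 h1)]
  simp only [h2]
  rw [dif_neg (by omega), if_neg (not_le.2 hr)]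
  simp only [occ_rank I he]

/-- the four cases for a port and a vertex -/
lemma prepG_pent_spec [DecidableEq A] (hb : Bdd I) (i : Fin 17) (v : ℕ)
    (hv : v < side I * side I) :
    (pent I i v).1 < side I * side I ∧ (pent I (bk17 i) (pent I i v).1).1 = v ∧
      ∀ a b, (pent I (bk17 i) (pent I i v).1).2 b a = (pent I i v).2 a b := by
  have hN : base I I.1 ≤ side I * side I := sqs_le _
  by_cases h9 : 9 ≤ i.val
  · obtain ⟨h9', hbk⟩ := prepG_bk17_ge h9
    rw [prepG_pent_ge I i v h9, prepG_pent_ge I (bk17 i) _ h9', hbk]
    exact ⟨mgg_lt hv _, mgg_bk hv _, fun _ _ => rfl⟩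
  · have h9' := prepG_bk17_lt9 h9
    rcases le_or_gt (base I I.1) v with hv' | hv'
    · rw [prepG_pent_out I i v h9 hv']
      simp only
      rw [prepG_pent_out I (bk17 i) v h9' hv']
      exact ⟨hv, rfl, fun _ _ => rfl⟩
    · obtain ⟨x, p, hx, hp, rfl⟩ := names_surj I hv'
      by_cases h8 : i.val < 8
      · obtain ⟨h8', hbk⟩ := prepG_bk17_lt h8
        rw [prepG_pent_lt I i hx hp h8]
        simp only
        have hp' := mgg_lt hp (⟨i.val, h8⟩ : Fin 8)
        rw [prepG_pent_lt I (bk17 i) hx hp' h8', hbk]
        refine ⟨lt_of_lt_of_le (names_get I hx hp').1 hN, ?_, fun a b => ?_⟩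
        · simp only
          rw [mgg_bk hp]
        · simp only [eq_comm]
      · have h8' : i.val = 8 := by omega
        have h8'' : (bk17 i).val = 8 := by
          have : i = 8 := Fin.ext h8'
          subst this
          rfl
        rcases le_or_gt (occ I x).length p with ho | ho
        · rw [prepG_pent_free I i hx hp h8' ho]
          simp only
          rw [prepG_pent_free I (bk17 i) hx hp h8'' ho]
          exact ⟨hv, rfl, fun _ _ => rfl⟩
        · obtain ⟨g1, g2, g3⟩ := occ_get I ho
          generalize (occ I x).getD p 0 = e at g1 g2 g3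
          have hm := mate_lt I g1
          subst g2
          subst g3
          rw [prepG_pent_slot I hb i h8' g1]
          simp only
          rw [prepG_pent_slot I hb (bk17 i) h8'' hm, mate_mate]
          refine ⟨lt_of_lt_of_le (names_get I (slotVar_lt I hb hm)
            (lt_of_lt_of_le (rank_lt I hm) (prepG_csz I _))).1 hN, rfl, fun a b => ?_⟩
          exact prepG_slotCon_mate I e a b

/-- the prepared graph -/
theorem prep_graph [DecidableEq A] (hb : Bdd I) : ∃ G : RG (Fin (side I * side I)) 17 A,
    G.bk = bk17 ∧ (∀ i v, ((G.nb i v).val, G.con i v) = pent I i v.val) ∧ Repr (prep I) G := by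
  let G : RG (Fin (side I * side I)) 17 A :=
    { nb := fun i v => ⟨(pent I i v.val).1, (prepG_pent_spec I hb i v.val v.isLt).1⟩
      bk := bk17
      con := fun i v => (pent I i v.val).2
      bk_bk := prepG_bk17_bk17
      nb_bk := fun i v => Fin.ext (prepG_pent_spec I hb i v.val v.isLt).2.1
      con_bk := fun i v a b => (prepG_pent_spec I hb i v.val v.isLt).2.2 a b }
  refine ⟨G, rfl, fun i v => rfl, rfl, fun v i => ?_⟩
  exact prepG_table_get 17 (side I * side I) (fun v i => pent I i v) v.isLt i

end

end Pool.Agent.Lib.PCP
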