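import Pool.Agent.Lib.PCP.Defs

/-!
# The PCP theorem: the tester for one constraint
-/

set_option autoImplicit false

namespace Pool.Agent.Lib.PCP

open Pool.Agent.Lib.helper60
open Pool.Agent.H66 (Cl Sat3)
open Finset (range)

/-- the value of the position `q` when the three tables are `a`, `b`, `p` -/
def tval {A : Type} (a b : (A → Bool) → Bool) (p : (A × A → Bool) → Bool) : Loc A → Bool :=
  Sum.elim a (Sum.elim b p)

theorem tester_complete {A : Type} (C : Con A) (x y : A) (hC : C x y = true) (r : Rnd A)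
    (k : Fin 6) :
    prd k (fun i => tval (fun t => t x) (fun t => t y) (fun g => g (x, y)) (qry C r k i)) = true
    := by
  obtain ⟨f, g, h, t⟩ := r
  fin_cases k
  · simp [prd, tval, qry]
  · simp [prd, tval, qry]
  · simp [prd, tval, qry]
  · simp [prd, tval, qry, hC]
  · simp [prd, tval, qry]
  · simp [prd, tval, qry]

/-! ### signs and characters -/

/-- sign of a bit -/
def tstSg (b : Bool) : ℝ := if b then -1 else 1

theorem tstSg_xor (a b : Bool) : tstSg (xor a b) = tstSg a * tstSg b := by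
  cases a <;> cases b <;> simp [tstSg]

theorem tstSg_inj {a b : Bool} (h : tstSg a = tstSg b) : a = b := by
  cases a <;> cases b <;> simp [tstSg] at h ⊢ <;> norm_num at h

theorem tstSg_sq (a : Bool) : tstSg a * tstSg a = 1 := by
  cases a <;> simp [tstSg]

section chi

variable {X : Type} [Fintype X]

/-- the parity of `T ∩ f` -/
noncomputable def tstDot (T f : X → Bool) : Bool :=
  decide (∏ x, tstSg (T x && f x) = -1)

theorem tst_prod_pm (u : X → Bool) : ∏ x, tstSg (u x) = 1 ∨ ∏ x, tstSg (u x) = -1 := by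
  classical
  have : ∀ s : Finset X, ∏ x ∈ s, tstSg (u x) = 1 ∨ ∏ x ∈ s, tstSg (u x) = -1 := by
    intro s
    induction s using Finset.induction_on with
    | empty => left; simp
    | insert a s ha ih =>
      rw [Finset.prod_insert ha]
      rcases ih with h | h <;> rw [h] <;> cases u a <;> simp [tstSg]
  exact this _

theorem tstSg_dot (T f : X → Bool) : tstSg (tstDot T f) = ∏ x, tstSg (T x && f x) := by
  unfold tstDot
  rcases tst_prod_pm (fun x => T x && f x) with h | h
  · rw [h]; simp [tstSg]; norm_num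
  · rw [h]; simp [tstSg]

theorem tstDot_xor (T f g : X → Bool) :
    tstDot T (fun x => xor (f x) (g x)) = xor (tstDot T f) (tstDot T g) := by
  apply tstSg_inj
  rw [tstSg_xor, tstSg_dot, tstSg_dot, tstSg_dot, ← Finset.prod_mul_distrib]
  refine Finset.prod_congr rfl fun x _ => ?_
  rw [← tstSg_xor]
  congr 1
  cases T x <;> cases f x <;> cases g x <;> rfl

theorem tstDot_single [DecidableEq X] (T : X → Bool) (s : X) :
    tstDot T (fun x => decide (x = s)) = T s := by
  apply tstSg_inj
  rw [tstSg_dot, Finset.prod_eq_single s]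
  · simp
  · intro b _ hb
    simp [hb, tstSg]
  · simp

theorem tstDot_false (T : X → Bool) : tstDot T (fun _ => false) = false := by
  apply tstSg_inj
  rw [tstSg_dot]
  simp [tstSg]

theorem tstDot_zero (f : X → Bool) : tstDot (fun _ => false) f = false := by
  apply tstSg_inj
  rw [tstSg_dot]
  simp [tstSg]

/-- orthogonality of the characters -/
theorem tst_orth [DecidableEq X] (f : X → Bool) :
    ∑ T : X → Bool, tstSg (tstDot T f) =
      if f = fun _ => false then (Fintype.card (X → Bool) : ℝ) else 0 := by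
  simp only [tstSg_dot]
  have h := Finset.prod_univ_sum (fun _ : X => (Finset.univ : Finset Bool))
    (fun x b => tstSg (b && f x))
  rw [Fintype.piFinset_univ] at h
  rw [← h]
  split_ifs with hf
  · subst hf
    simp [tstSg]
  · obtain ⟨x, hx⟩ : ∃ x, f x = true := by
      by_contra hcon
      push Not at hcon
      exact hf (funext fun x => by simpa using hcon x)
    apply Finset.prod_eq_zero (Finset.mem_univ x)
    simp [hx, tstSg]

/-- sum of two functions -/
def tstXr (f g : X → Bool) : X → Bool := fun x => xor (f x) (g x)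

omit [Fintype X] in
theorem tstXr_eq_false {f g : X → Bool} : tstXr f g = (fun _ => false) ↔ g = f := by
  constructor
  · intro h
    funext x
    have := congrFun h x
    simp only [tstXr] at this
    revert this
    cases f x <;> cases g x <;> simp
  · rintro rfl
    funext x
    simp [tstXr]

theorem tst_orth2 [DecidableEq X] (f : X → Bool) (Φ : (X → Bool) → ℝ) :
    ∑ g, Φ g * ∑ T : X → Bool, tstSg (tstDot T (tstXr f g)) =
      (Fintype.card (X → Bool) : ℝ) * Φ f := by
  simp only [tst_orth, tstXr_eq_false]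
  rw [Finset.sum_eq_single f]
  · simp [mul_comm]
  · intro b _ hb
    simp [hb]
  · simp

/-- Fourier coefficient -/
noncomputable def tstF [DecidableEq X] (p : (X → Bool) → Bool) (T : X → Bool) : ℝ :=
  ∑ f, tstSg (p f) * tstSg (tstDot T f)

theorem tst_parseval [DecidableEq X] (p : (X → Bool) → Bool) :
    ∑ T, tstF p T ^ 2 = (Fintype.card (X → Bool) : ℝ) ^ 2 := by
  have h1 : ∀ T, tstF p T ^ 2 = ∑ f, tstSg (p f) * ∑ g, tstSg (p g) *
      tstSg (tstDot T (tstXr f g)) := by
    intro T
    unfold tstF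
    rw [sq, Finset.sum_mul]
    refine Finset.sum_congr rfl fun f _ => ?_
    rw [Finset.mul_sum, Finset.mul_sum]
    refine Finset.sum_congr rfl fun g _ => ?_
    have : tstDot T (tstXr f g) = xor (tstDot T f) (tstDot T g) := tstDot_xor T f g
    rw [this, tstSg_xor]
    ring
  simp only [h1]
  rw [Finset.sum_comm]
  have h2 : ∀ f, ∑ T, tstSg (p f) * ∑ g, tstSg (p g) * tstSg (tstDot T (tstXr f g)) =
      (Fintype.card (X → Bool) : ℝ) := by
    intro f
    rw [← Finset.mul_sum, Finset.sum_comm]
    simp only [← Finset.mul_sum]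
    rw [tst_orth2 f (fun g => tstSg (p g))]
    have := tstSg_sq (p f)
    linear_combination (Fintype.card (X → Bool) : ℝ) * this
  simp only [h2]
  simp [sq]

theorem tst_cube [DecidableEq X] (p : (X → Bool) → Bool) :
    ∑ T, tstF p T ^ 3 = (Fintype.card (X → Bool) : ℝ) *
      ∑ f, ∑ g, tstSg (p f) * tstSg (p g) * tstSg (p (tstXr f g)) := by
  have h1 : ∀ T, tstF p T ^ 3 = ∑ f, ∑ g, tstSg (p f) * tstSg (p g) * ∑ h, tstSg (p h) *
      tstSg (tstDot T (tstXr (tstXr f g) h)) := by
    intro T
    unfold tstF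
    rw [pow_succ, sq, Finset.sum_mul_sum, Finset.sum_mul]
    refine Finset.sum_congr rfl fun f _ => ?_
    rw [Finset.sum_mul]
    refine Finset.sum_congr rfl fun g _ => ?_
    rw [Finset.mul_sum, Finset.mul_sum]
    refine Finset.sum_congr rfl fun h _ => ?_
    have e1 : tstDot T (tstXr (tstXr f g) h) = xor (tstDot T (tstXr f g)) (tstDot T h) :=
      tstDot_xor T _ h
    have e2 : tstDot T (tstXr f g) = xor (tstDot T f) (tstDot T g) := tstDot_xor T f g
    rw [e1, e2, tstSg_xor, tstSg_xor]
    ring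
  simp only [h1]
  rw [Finset.sum_comm, Finset.mul_sum]
  refine Finset.sum_congr rfl fun f _ => ?_
  rw [Finset.sum_comm, Finset.mul_sum]
  refine Finset.sum_congr rfl fun g _ => ?_
  rw [← Finset.mul_sum, Finset.sum_comm]
  simp only [← Finset.mul_sum]
  rw [tst_orth2 (tstXr f g) (fun h => tstSg (p h))]
  ring

/-- sum of signs against the number of disagreements -/
theorem tst_sum_sg {Ω : Type} [Fintype Ω] (u v : Ω → Bool) :
    ∑ r, tstSg (u r) * tstSg (v r) =
      (Fintype.card Ω : ℝ) - 2 * ((Finset.univ.filter (fun r => u r ≠ v r)).card : ℝ) := by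
  have : ∀ r, tstSg (u r) * tstSg (v r) = 1 - 2 * (if u r ≠ v r then (1 : ℝ) else 0) := by
    intro r
    cases u r <;> cases v r <;> simp [tstSg] <;> norm_num
  simp only [this]
  rw [Finset.sum_sub_distrib, ← Finset.mul_sum, Finset.sum_boole]
  simp

theorem tst_blr [DecidableEq X] (p : (X → Bool) → Bool)
    (hp : 40 * (Finset.univ.filter (fun r : (X → Bool) × (X → Bool) =>
      xor (p r.1) (p r.2) ≠ p (tstXr r.1 r.2))).card <
        Fintype.card (X → Bool) * Fintype.card (X → Bool)) :
    ∃ T : X → Bool, 40 * (Finset.univ.filter (fun f => p f ≠ tstDot T f)).card <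
      Fintype.card (X → Bool) := by
  have hn : (0 : ℝ) < (Fintype.card (X → Bool) : ℝ) := by exact_mod_cast Fintype.card_pos
  have h3 : (40 : ℝ) * ((Finset.univ.filter (fun r : (X → Bool) × (X → Bool) =>
      xor (p r.1) (p r.2) ≠ p (tstXr r.1 r.2))).card : ℝ) <
      (Fintype.card (X → Bool) : ℝ) * (Fintype.card (X → Bool) : ℝ) := by
    exact_mod_cast hp
  set n : ℝ := (Fintype.card (X → Bool) : ℝ) with hnn
  have h1 : ∑ f, ∑ g, tstSg (p f) * tstSg (p g) * tstSg (p (tstXr f g)) > 19 / 20 * n ^ 2 := by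
    have h2 := tst_sum_sg (fun r : (X → Bool) × (X → Bool) => xor (p r.1) (p r.2))
      (fun r => p (tstXr r.1 r.2))
    rw [Fintype.sum_prod_type, Fintype.card_prod] at h2
    simp only [tstSg_xor] at h2
    rw [h2]
    push_cast
    nlinarith
  have h4 : ∃ T, tstF p T > 19 / 20 * n := by
    by_contra hcon
    push Not at hcon
    have h5 : ∑ T, tstF p T ^ 3 ≤ ∑ T, 19 / 20 * n * tstF p T ^ 2 := by
      refine Finset.sum_le_sum fun T _ => ?_
      rw [pow_succ' (tstF p T) 2]
      exact mul_le_mul_of_nonneg_right (hcon T) (sq_nonneg _)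
    rw [← Finset.mul_sum, tst_parseval, tst_cube] at h5
    have h6 : n * (19 / 20 * n ^ 2) < n *
        ∑ f, ∑ g, tstSg (p f) * tstSg (p g) * tstSg (p (tstXr f g)) :=
      mul_lt_mul_of_pos_left h1 hn
    rw [← hnn] at h5
    nlinarith
  obtain ⟨T, hT⟩ := h4
  refine ⟨T, ?_⟩
  have h7 := tst_sum_sg p (fun f => tstDot T f)
  have h8 : tstF p T = ∑ f, tstSg (p f) * tstSg (tstDot T f) := rfl
  rw [h8, h7, ← hnn] at hT
  have : (40 : ℝ) * ((Finset.univ.filter (fun f => p f ≠ tstDot T f)).card : ℝ) < n := by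
    linarith
  rw [hnn] at this
  exact_mod_cast this

/-- the tests of products force singletons -/
theorem tst_single_of_bilin [DecidableEq X] (T : X → Bool)
    (h : 4 * (Finset.univ.filter (fun r : (X → Bool) × (X → Bool) =>
      xor (tstDot T (fun x => r.1 x && r.2 x)) (tstDot T r.1 && tstDot T r.2) = true)).card <
        Fintype.card ((X → Bool) × (X → Bool))) {s s' : X} (hs : T s = true) (hs' : T s' = true) :
    s = s' := by
  by_contra hne
  set Ω := (X → Bool) × (X → Bool) with hΩ
  let e : X → X → Bool := fun s x => decide (x = s)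
  let B : Ω → Bool := fun r => xor (tstDot T (fun x => r.1 x && r.2 x))
    (tstDot T r.1 && tstDot T r.2)
  let ι : Bool → ℕ := fun b => if b = true then 1 else 0
  have hinv : ∀ a f : X → Bool, tstXr (tstXr f a) a = f := by
    intro a f
    funext x
    simp [tstXr]
  let sh : (X → Bool) → ((X → Bool) ≃ (X → Bool)) := fun a =>
    ⟨fun f => tstXr f a, fun f => tstXr f a, hinv a, hinv a⟩
  have hsum : ∀ E : Ω ≃ Ω, ∑ r, ι (B (E r)) = (Finset.univ.filter (fun r => B r = true)).card := by
    intro E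
    rw [Equiv.sum_comp E (fun r => ι (B r))]
    rw [Finset.card_filter]
  have h4 : ∀ r : Ω, 1 ≤ ι (B r) + ι (B (tstXr r.1 (e s), r.2)) + ι (B (r.1, tstXr r.2 (e s'))) +
      ι (B (tstXr r.1 (e s), tstXr r.2 (e s'))) := by
    rintro ⟨f, g⟩
    have e1 : tstDot T (tstXr f (e s)) = xor (tstDot T f) true := by
      have := tstDot_xor T f (e s)
      rw [show tstDot T (e s) = T s from tstDot_single T s, hs] at this
      exact this
    have e2 : tstDot T (tstXr g (e s')) = xor (tstDot T g) true := by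
      have := tstDot_xor T g (e s')
      rw [show tstDot T (e s') = T s' from tstDot_single T s', hs'] at this
      exact this
    have e3 : tstDot T (fun x => tstXr f (e s) x && g x) =
        xor (tstDot T (fun x => f x && g x)) (tstDot T (fun x => e s x && g x)) := by
      rw [← tstDot_xor]
      congr 1
      funext x
      simp only [tstXr]
      cases f x <;> cases g x <;> cases e s x <;> rfl
    have e4 : tstDot T (fun x => f x && tstXr g (e s') x) =
        xor (tstDot T (fun x => f x && g x)) (tstDot T (fun x => f x && e s' x)) := by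
      rw [← tstDot_xor]
      congr 1
      funext x
      simp only [tstXr]
      cases f x <;> cases g x <;> cases e s' x <;> rfl
    have e5 : tstDot T (fun x => tstXr f (e s) x && tstXr g (e s') x) =
        xor (xor (tstDot T (fun x => f x && g x)) (tstDot T (fun x => e s x && g x)))
          (tstDot T (fun x => f x && e s' x)) := by
      rw [← tstDot_xor, ← tstDot_xor]
      congr 1
      funext x
      simp only [tstXr, e]
      by_cases hx : x = s
      · have : x ≠ s' := fun h => hne (hx.symm.trans h)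
        simp [this]
        cases f x <;> cases g x <;> cases (decide (x = s)) <;> rfl
      · simp [hx]
        cases f x <;> cases g x <;> cases (decide (x = s')) <;> rfl
    simp only [B, e1, e2, e3, e4, e5]
    generalize tstDot T (fun x => f x && g x) = a
    generalize tstDot T (fun x => e s x && g x) = b
    generalize tstDot T (fun x => f x && e s' x) = c
    generalize tstDot T f = u
    generalize tstDot T g = v
    revert a b c u v
    decide
  have h5 : Fintype.card Ω ≤ 4 * (Finset.univ.filter (fun r : Ω => B r = true)).card := by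
    calc Fintype.card Ω = ∑ _r : Ω, 1 := by simp
      _ ≤ ∑ r : Ω, (ι (B r) + ι (B (tstXr r.1 (e s), r.2)) + ι (B (r.1, tstXr r.2 (e s'))) +
          ι (B (tstXr r.1 (e s), tstXr r.2 (e s')))) := Finset.sum_le_sum fun r _ => h4 r
      _ = 4 * (Finset.univ.filter (fun r : Ω => B r = true)).card := by
        rw [Finset.sum_add_distrib, Finset.sum_add_distrib, Finset.sum_add_distrib]
        have a1 := hsum (Equiv.refl Ω)
        have a2 := hsum (Equiv.prodCongr (sh (e s)) (Equiv.refl _))
        have a3 := hsum (Equiv.prodCongr (Equiv.refl _) (sh (e s')))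
        have a4 := hsum (Equiv.prodCongr (sh (e s)) (sh (e s')))
        have b1 : ∑ r : Ω, ι (B r) = (Finset.univ.filter (fun r : Ω => B r = true)).card := a1
        have b2 : ∑ r : Ω, ι (B (tstXr r.1 (e s), r.2)) =
          (Finset.univ.filter (fun r : Ω => B r = true)).card := a2
        have b3 : ∑ r : Ω, ι (B (r.1, tstXr r.2 (e s'))) =
          (Finset.univ.filter (fun r : Ω => B r = true)).card := a3
        have b4 : ∑ r : Ω, ι (B (tstXr r.1 (e s), tstXr r.2 (e s'))) =
          (Finset.univ.filter (fun r : Ω => B r = true)).card := a4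
        rw [b1, b2, b3, b4]
        ring
  exact absurd h (not_lt.2 h5)

end chi

/-! ### counting -/

/-- number of outcomes with a property -/
noncomputable def tstN {Ω : Type} (P : Ω → Prop) : ℕ := Nat.card {r : Ω // P r}

theorem tstN_eq {Ω : Type} [Fintype Ω] (P : Ω → Prop) [DecidablePred P] :
    tstN P = (Finset.univ.filter P).card := by
  unfold tstN
  rw [Nat.card_eq_fintype_card, Fintype.card_subtype]

theorem tstN_congr {Ω : Type} {P Q : Ω → Prop} (h : ∀ r, P r ↔ Q r) : tstN P = tstN Q := by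
  have : P = Q := funext fun r => propext (h r)
  rw [this]

theorem tstN_mono {Ω : Type} [Finite Ω] {P Q : Ω → Prop} (h : ∀ r, P r → Q r) :
    tstN P ≤ tstN Q := by
  unfold tstN
  exact Nat.card_le_card_of_injective (fun r : {r : Ω // P r} => (⟨r.1, h r.1 r.2⟩ : {r : Ω // Q r}))
    (fun r r' he => Subtype.ext (by simpa using he))

theorem tstN_or {Ω : Type} [Finite Ω] (P Q : Ω → Prop) :
    tstN (fun r => P r ∨ Q r) ≤ tstN P + tstN Q := by
  classical
  have := Fintype.ofFinite Ω
  rw [tstN_eq, tstN_eq, tstN_eq, Finset.filter_or]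
  exact Finset.card_union_le _ _

section cnt

variable {Ω Ω' Ω'' : Type} [Finite Ω] [Finite Ω'] [Finite Ω'']

theorem tst_bal_eq (e : Ω ≃ Ω' × Ω'') (Q : Ω' → Prop) :
    tstN (fun r => Q (e r).1) = tstN Q * Nat.card Ω'' := by
  unfold tstN
  rw [← Nat.card_prod]
  exact Nat.card_congr
    ⟨fun r => (⟨(e r.1).1, r.2⟩, (e r.1).2), fun b => ⟨e.symm (b.1.1, b.2), by
        show Q (e (e.symm (b.1.1, b.2))).1
        rw [Equiv.apply_symm_apply]; exact b.1.2⟩,
      fun r => by apply Subtype.ext; simp, fun b => by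
        apply Prod.ext
        · apply Subtype.ext; simp
        · simp⟩

theorem tst_bal [Nonempty Ω''] (e : Ω ≃ Ω' × Ω'') (Q : Ω' → Prop)
    (h : 40 * tstN Q < Nat.card Ω') :
    40 * tstN (fun r => Q (e r).1) < Nat.card Ω := by
  rw [tst_bal_eq, Nat.card_congr e, Nat.card_prod, ← mul_assoc]
  exact Nat.mul_lt_mul_of_pos_right h Nat.card_pos

theorem tst_bal' (e : Ω ≃ Ω' × Ω'') (Q : Ω' → Prop) (m k : ℕ)
    (h : m * tstN (fun r => Q (e r).1) < k * Nat.card Ω) :
    m * tstN Q < k * Nat.card Ω' := by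
  rw [tst_bal_eq, Nat.card_congr e, Nat.card_prod, ← mul_assoc, ← mul_assoc] at h
  exact lt_of_mul_lt_mul_right h (Nat.zero_le _)

end cnt

/-! ### decoding -/

theorem tst_half {A : Type} [Fintype A] [DecidableEq A] {x x' : A} (h : x ≠ x') :
    2 * tstN (fun t : A → Bool => t x ≠ t x') = Nat.card (A → Bool) := by
  have h1 : tstN (fun t : A → Bool => t x ≠ t x') = tstN (fun t : A → Bool => ¬ t x ≠ t x') := by
    have hinv : ∀ t : A → Bool, tstXr (tstXr t (fun y => decide (y = x))) (fun y => decide (y = x))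
        = t := by
      intro t
      funext y
      simp [tstXr]
    have hx' : ∀ t : A → Bool, tstXr t (fun y => decide (y = x)) x' = t x' := by
      intro t
      simp [tstXr, h.symm]
    have hx : ∀ t : A → Bool, tstXr t (fun y => decide (y = x)) x = !(t x) := by
      intro t
      simp [tstXr]
    refine Nat.card_congr ⟨fun t => ⟨tstXr t.1 (fun y => decide (y = x)), ?_⟩,
      fun t => ⟨tstXr t.1 (fun y => decide (y = x)), ?_⟩, fun t => Subtype.ext (hinv t.1),
      fun t => Subtype.ext (hinv t.1)⟩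
    · have h3 : t.1 x ≠ t.1 x' := t.2
      show ¬ (tstXr t.1 (fun y => decide (y = x)) x ≠ tstXr t.1 (fun y => decide (y = x)) x')
      rw [hx, hx']
      revert h3
      cases t.1 x <;> cases t.1 x' <;> simp
    · have h3 : ¬ (t.1 x ≠ t.1 x') := t.2
      show tstXr t.1 (fun y => decide (y = x)) x ≠ tstXr t.1 (fun y => decide (y = x)) x'
      rw [hx, hx']
      revert h3
      cases t.1 x <;> cases t.1 x' <;> simp
  have h2 := Finset.card_filter_add_card_filter_not (s := (Finset.univ : Finset (A → Bool)))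
    (fun t : A → Bool => t x ≠ t x')
  rw [Finset.card_univ, ← tstN_eq, ← tstN_eq, ← Nat.card_eq_fintype_card] at h2
  omega

theorem tst_dec_unique {A : Type} [Fintype A] [DecidableEq A] (a : (A → Bool) → Bool) {x x' : A}
    (hx : 4 * tstN (fun t : A → Bool => a t ≠ t x) < Nat.card (A → Bool))
    (hx' : 4 * tstN (fun t : A → Bool => a t ≠ t x') < Nat.card (A → Bool)) : x = x' := by
  by_contra hne
  have h1 := tst_half hne
  have h2 : tstN (fun t : A → Bool => t x ≠ t x') ≤
      tstN (fun t : A → Bool => a t ≠ t x) + tstN (fun t : A → Bool => a t ≠ t x') := by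
    refine le_trans (tstN_mono ?_) (tstN_or _ _)
    intro t ht
    by_contra hcon
    push Not at hcon
    exact ht (hcon.1.symm.trans hcon.2)
  omega

theorem tst_xr_xr {X : Type} (a f : X → Bool) : tstXr a (tstXr a f) = f := by
  funext x
  simp [tstXr]

theorem tst_xr_xr' {X : Type} (a f : X → Bool) : tstXr (tstXr f a) a = f := by
  funext x
  simp [tstXr]

/-- the random choices -/
abbrev TstR (F G : Type) := F × F × F × G

/-- the tests of products force singletons, from the rejection probabilities -/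
theorem tst_core {X Y : Type} [Fintype X] [DecidableEq X] [Finite Y] [Nonempty Y]
    (p : (X → Bool) → Bool)
    (h0 : 40 * tstN (fun r : TstR (X → Bool) Y => xor (p r.1) (p r.2.1) ≠ p (tstXr r.1 r.2.1)) <
      Nat.card (TstR (X → Bool) Y))
    (h1 : 40 * tstN (fun r : TstR (X → Bool) Y => (p r.1 && p r.2.1) ≠
        xor (p (tstXr (fun x => r.1 x && r.2.1 x) r.2.2.1)) (p r.2.2.1)) <
      Nat.card (TstR (X → Bool) Y))
    (h2 : 40 * tstN (fun r : TstR (X → Bool) Y => xor (p r.1) (p (fun x => !(r.1 x))) ≠ true) <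
      Nat.card (TstR (X → Bool) Y)) :
    ∃ s : X, 40 * tstN (fun f => p f ≠ f s) < Nat.card (X → Bool) := by
  classical
  -- linearity
  let e0 : TstR (X → Bool) Y ≃ ((X → Bool) × (X → Bool)) × ((X → Bool) × Y) :=
    ⟨fun r => ((r.1, r.2.1), r.2.2), fun r => (r.1.1, r.1.2, r.2), fun _ => rfl, fun _ => rfl⟩
  have g0 := tst_bal' e0 (fun r : (X → Bool) × (X → Bool) => xor (p r.1) (p r.2) ≠
    p (tstXr r.1 r.2)) 40 1 (by rw [one_mul]; exact h0)
  rw [one_mul, Nat.card_prod, Nat.card_eq_fintype_card, tstN_eq] at g0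
  obtain ⟨T, hT⟩ := tst_blr p g0
  rw [← tstN_eq, ← Nat.card_eq_fintype_card] at hT
  -- the marginals
  have mar : ∀ (Z : Type) [Finite Z] [Nonempty Z] (e : TstR (X → Bool) Y ≃ (X → Bool) × Z),
      40 * tstN (fun r => p (e r).1 ≠ tstDot T (e r).1) < Nat.card (TstR (X → Bool) Y) := by
    intro Z _ _ e
    exact tst_bal e (fun f => p f ≠ tstDot T f) hT
  have m1 : 40 * tstN (fun r : TstR (X → Bool) Y => p r.1 ≠ tstDot T r.1) <
      Nat.card (TstR (X → Bool) Y) := mar ((X → Bool) × (X → Bool) × Y) (Equiv.refl _)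
  have m2 : 40 * tstN (fun r : TstR (X → Bool) Y => p r.2.1 ≠ tstDot T r.2.1) <
      Nat.card (TstR (X → Bool) Y) := mar ((X → Bool) × (X → Bool) × Y)
    ⟨fun r => (r.2.1, r.1, r.2.2.1, r.2.2.2), fun r => (r.2.1, r.1, r.2.2.1, r.2.2.2),
      fun _ => rfl, fun _ => rfl⟩
  have m3 : 40 * tstN (fun r : TstR (X → Bool) Y => p r.2.2.1 ≠ tstDot T r.2.2.1) <
      Nat.card (TstR (X → Bool) Y) := mar ((X → Bool) × (X → Bool) × Y)
    ⟨fun r => (r.2.2.1, r.1, r.2.1, r.2.2.2), fun r => (r.2.1, r.2.2.1, r.1, r.2.2.2),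
      fun _ => rfl, fun _ => rfl⟩
  have m4 : 40 * tstN (fun r : TstR (X → Bool) Y =>
      p (tstXr (fun x => r.1 x && r.2.1 x) r.2.2.1) ≠
        tstDot T (tstXr (fun x => r.1 x && r.2.1 x) r.2.2.1)) <
      Nat.card (TstR (X → Bool) Y) := mar ((X → Bool) × (X → Bool) × Y)
    ⟨fun r => (tstXr (fun x => r.1 x && r.2.1 x) r.2.2.1, r.1, r.2.1, r.2.2.2),
      fun r => (r.2.1, r.2.2.1, tstXr (fun x => r.2.1 x && r.2.2.1 x) r.1, r.2.2.2),
      fun r => by simp [tst_xr_xr], fun r => by simp [tst_xr_xr]⟩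
  have m5 : 40 * tstN (fun r : TstR (X → Bool) Y =>
      p (fun x => !(r.1 x)) ≠ tstDot T (fun x => !(r.1 x))) <
      Nat.card (TstR (X → Bool) Y) := mar ((X → Bool) × (X → Bool) × Y)
    ⟨fun r => (fun x => !(r.1 x), r.2), fun r => (fun x => !(r.1 x), r.2),
      fun r => by simp, fun r => by simp⟩
  have hpos : 0 < Nat.card (TstR (X → Bool) Y) := Nat.card_pos
  -- at most one element
  have hone : ∀ s s' : X, T s = true → T s' = true → s = s' := by
    intro s s' hs hs'
    refine tst_single_of_bilin T ?_ hs hs'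
    rw [← tstN_eq, ← Nat.card_eq_fintype_card]
    have hu : tstN (fun r : TstR (X → Bool) Y => xor (tstDot T (fun x => r.1 x && r.2.1 x))
        (tstDot T r.1 && tstDot T r.2.1) = true) ≤
        tstN (fun r : TstR (X → Bool) Y => (p r.1 && p r.2.1) ≠
          xor (p (tstXr (fun x => r.1 x && r.2.1 x) r.2.2.1)) (p r.2.2.1)) +
        (tstN (fun r : TstR (X → Bool) Y => p r.1 ≠ tstDot T r.1) +
        (tstN (fun r : TstR (X → Bool) Y => p r.2.1 ≠ tstDot T r.2.1) +
        (tstN (fun r : TstR (X → Bool) Y => p r.2.2.1 ≠ tstDot T r.2.2.1) +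
        tstN (fun r : TstR (X → Bool) Y => p (tstXr (fun x => r.1 x && r.2.1 x) r.2.2.1) ≠
          tstDot T (tstXr (fun x => r.1 x && r.2.1 x) r.2.2.1))))) := by
      refine le_trans (tstN_mono ?_) (le_trans (tstN_or _ _) (Nat.add_le_add_left
        (le_trans (tstN_or _ _) (Nat.add_le_add_left (le_trans (tstN_or _ _)
          (Nat.add_le_add_left (tstN_or _ _) _)) _)) _))
      rintro ⟨f, g, h, t⟩ hr
      by_contra hcon
      push Not at hcon
      obtain ⟨c0, c1, c2, c3, c4⟩ := hcon
      have c5 : tstDot T (tstXr (fun x => f x && g x) h) =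
        xor (tstDot T (fun x => f x && g x)) (tstDot T h) := tstDot_xor _ _ _
      simp only at hr c0 c1 c2 c3 c4
      rw [c1, c2, c3, c4, c5] at c0
      revert hr c0
      generalize tstDot T (fun x => f x && g x) = a
      generalize tstDot T f = b
      generalize tstDot T g = c
      generalize tstDot T h = d
      revert a b c d
      decide
    have hb := tst_bal' e0 (fun r : (X → Bool) × (X → Bool) =>
      xor (tstDot T (fun x => r.1 x && r.2 x)) (tstDot T r.1 && tstDot T r.2) = true) 4 1 (by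
        rw [one_mul]
        refine lt_of_le_of_lt (Nat.mul_le_mul_left 4 hu) ?_
        omega)
    rw [one_mul] at hb
    exact hb
  -- exactly one element
  obtain ⟨f, d0, d1, d2⟩ : ∃ f : X → Bool, xor (p f) (p (fun x => !(f x))) = true ∧
      p f = tstDot T f ∧ p (fun x => !(f x)) = tstDot T (fun x => !(f x)) := by
    by_contra hcon
    push Not at hcon
    have h3 : Nat.card (TstR (X → Bool) Y) ≤
        tstN (fun r : TstR (X → Bool) Y => xor (p r.1) (p (fun x => !(r.1 x))) ≠ true) +
        (tstN (fun r : TstR (X → Bool) Y => p r.1 ≠ tstDot T r.1) +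
        tstN (fun r : TstR (X → Bool) Y => p (fun x => !(r.1 x)) ≠
          tstDot T (fun x => !(r.1 x)))) := by
      have e1 : Nat.card (TstR (X → Bool) Y) = tstN (fun _ : TstR (X → Bool) Y => True) := by
        unfold tstN
        exact Nat.card_congr (Equiv.subtypeUnivEquiv (fun _ => trivial)).symm
      rw [e1]
      refine le_trans (tstN_mono ?_) (le_trans (tstN_or _ _) (Nat.add_le_add_left
        (tstN_or _ _) _))
      intro r _
      by_contra hc
      push Not at hc
      exact hcon r.1 hc.1 hc.2.1 hc.2.2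
    omega
  have hex : ∃ s, T s = true := by
    by_contra hcon
    push Not at hcon
    have hT0 : T = fun _ => false := funext fun x => by simpa using hcon x
    rw [d1, d2, hT0, tstDot_zero, tstDot_zero] at d0
    exact absurd d0 (by decide)
  obtain ⟨s, hs⟩ := hex
  refine ⟨s, ?_⟩
  have hTs : ∀ f, tstDot T f = f s := by
    intro f
    apply tstSg_inj
    rw [tstSg_dot, Finset.prod_eq_single s]
    · rw [hs, Bool.true_and]
    · intro b _ hb
      have : T b = false := by
        by_contra hcon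
        exact hb (hone b s (by simpa using hcon) hs)
      rw [this]
      simp [tstSg]
    · simp
  simp only [hTs] at hT
  exact hT

/-- a table whose values agree with the value at `x` on most functions is decoded to `x` -/
theorem tst_agree {A X : Type} [Fintype A] [Finite X]
    (π : X → A) (a : (A → Bool) → Bool) (p : (X → Bool) → Bool) (s : X)
    (hp : 40 * tstN (fun f => p f ≠ f s) < Nat.card (X → Bool))
    (h : 40 * tstN (fun r : TstR (X → Bool) (A → Bool) =>
        xor (p (tstXr (fun x => r.2.2.2 (π x)) r.2.2.1)) (p r.2.2.1) ≠ a r.2.2.2) <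
      Nat.card (TstR (X → Bool) (A → Bool))) :
    4 * tstN (fun t : A → Bool => a t ≠ t (π s)) < Nat.card (A → Bool) := by
  have mar : ∀ (Z : Type) [Finite Z] [Nonempty Z]
      (e : TstR (X → Bool) (A → Bool) ≃ (X → Bool) × Z),
      40 * tstN (fun r => p (e r).1 ≠ (e r).1 s) < Nat.card (TstR (X → Bool) (A → Bool)) := by
    intro Z _ _ e
    exact tst_bal e (fun f => p f ≠ f s) hp
  have m3 : 40 * tstN (fun r : TstR (X → Bool) (A → Bool) => p r.2.2.1 ≠ r.2.2.1 s) <
      Nat.card (TstR (X → Bool) (A → Bool)) := mar ((X → Bool) × (X → Bool) × (A → Bool))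
    ⟨fun r => (r.2.2.1, r.1, r.2.1, r.2.2.2), fun r => (r.2.1, r.2.2.1, r.1, r.2.2.2),
      fun _ => rfl, fun _ => rfl⟩
  have m4 : 40 * tstN (fun r : TstR (X → Bool) (A → Bool) =>
      p (tstXr (fun x => r.2.2.2 (π x)) r.2.2.1) ≠ tstXr (fun x => r.2.2.2 (π x)) r.2.2.1 s) <
      Nat.card (TstR (X → Bool) (A → Bool)) := mar ((X → Bool) × (X → Bool) × (A → Bool))
    ⟨fun r => (tstXr (fun x => r.2.2.2 (π x)) r.2.2.1, r.1, r.2.1, r.2.2.2),
      fun r => (r.2.1, r.2.2.1, tstXr (fun x => r.2.2.2 (π x)) r.1, r.2.2.2),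
      fun r => by simp [tst_xr_xr], fun r => by simp [tst_xr_xr]⟩
  have hu : tstN (fun r : TstR (X → Bool) (A → Bool) => a r.2.2.2 ≠ r.2.2.2 (π s)) ≤
      tstN (fun r : TstR (X → Bool) (A → Bool) =>
        xor (p (tstXr (fun x => r.2.2.2 (π x)) r.2.2.1)) (p r.2.2.1) ≠ a r.2.2.2) +
      (tstN (fun r : TstR (X → Bool) (A → Bool) => p r.2.2.1 ≠ r.2.2.1 s) +
      tstN (fun r : TstR (X → Bool) (A → Bool) =>
        p (tstXr (fun x => r.2.2.2 (π x)) r.2.2.1) ≠
          tstXr (fun x => r.2.2.2 (π x)) r.2.2.1 s)) := by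
    refine le_trans (tstN_mono ?_) (le_trans (tstN_or _ _) (Nat.add_le_add_left
        (tstN_or _ _) _))
    rintro ⟨f, g, h, t⟩ hr
    by_contra hcon
    push Not at hcon
    obtain ⟨c0, c1, c2⟩ := hcon
    simp only at hr c0 c1 c2
    rw [c1, c2] at c0
    apply hr
    rw [← c0]
    simp only [tstXr]
    cases t (π s) <;> cases h s <;> rfl
  let e0 : TstR (X → Bool) (A → Bool) ≃ (A → Bool) × ((X → Bool) × (X → Bool) × (X → Bool)) :=
    ⟨fun r => (r.2.2.2, (r.1, r.2.1, r.2.2.1)), fun r => (r.2.1, r.2.2.1, r.2.2.2, r.1),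
      fun _ => rfl, fun _ => rfl⟩
  have hpos : 0 < Nat.card (TstR (X → Bool) (A → Bool)) := Nat.card_pos
  have hb := tst_bal' e0 (fun t : A → Bool => a t ≠ t (π s)) 4 1 (by
    rw [one_mul]
    refine lt_of_le_of_lt (Nat.mul_le_mul_left 4 hu) ?_
    omega)
  rw [one_mul] at hb
  exact hb

theorem tester_sound {A : Type} [Finite A] [Nonempty A] : ∃ dec : ((A → Bool) → Bool) → A,
    ∀ (C : Con A) (a b : (A → Bool) → Bool) (p : (A × A → Bool) → Bool),
      (∀ k : Fin 6, 40 * Nat.card {r : Rnd A // prd k (fun i => tval a b p (qry C r k i)) = false}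
        < Nat.card (Rnd A)) → C (dec a) (dec b) = true := by
  classical
  have := Fintype.ofFinite A
  have hdec : ∀ a : (A → Bool) → Bool, ∃ y : A, ∀ x,
      4 * tstN (fun t : A → Bool => a t ≠ t x) < Nat.card (A → Bool) → y = x := by
    intro a
    by_cases h : ∃ x, 4 * tstN (fun t : A → Bool => a t ≠ t x) < Nat.card (A → Bool)
    · obtain ⟨y, hy⟩ := h
      exact ⟨y, fun x hx => tst_dec_unique a hy hx⟩
    · push Not at h
      exact ⟨Classical.arbitrary A, fun x hx => absurd hx (not_lt.2 (h x))⟩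
  choose dec hdec using hdec
  refine ⟨dec, fun C a b p hk => ?_⟩
  have q0 : 40 * tstN (fun r : TstR (A × A → Bool) (A → Bool) =>
      xor (p r.1) (p r.2.1) ≠ p (tstXr r.1 r.2.1)) <
      Nat.card (TstR (A × A → Bool) (A → Bool)) := by
    refine lt_of_eq_of_lt (congrArg (fun n => 40 * n) (tstN_congr fun r => ?_)) (hk 0)
    show _ ↔ (!(xor (xor (p r.1) (p r.2.1)) (p (tstXr r.1 r.2.1)))) = false
    generalize p r.1 = u
    generalize p r.2.1 = v
    generalize p (tstXr r.1 r.2.1) = w
    revert u v w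
    decide
  have q1 : 40 * tstN (fun r : TstR (A × A → Bool) (A → Bool) => (p r.1 && p r.2.1) ≠
        xor (p (tstXr (fun x => r.1 x && r.2.1 x) r.2.2.1)) (p r.2.2.1)) <
      Nat.card (TstR (A × A → Bool) (A → Bool)) := by
    refine lt_of_eq_of_lt (congrArg (fun n => 40 * n) (tstN_congr fun r => ?_)) (hk 1)
    show _ ↔ ((p r.1 && p r.2.1) ==
      xor (p (tstXr (fun x => r.1 x && r.2.1 x) r.2.2.1)) (p r.2.2.1)) = false
    rw [beq_eq_false_iff_ne]
  have q2 : 40 * tstN (fun r : TstR (A × A → Bool) (A → Bool) =>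
      xor (p r.1) (p (fun x => !(r.1 x))) ≠ true) <
      Nat.card (TstR (A × A → Bool) (A → Bool)) := by
    refine lt_of_eq_of_lt (congrArg (fun n => 40 * n) (tstN_congr fun r => ?_)) (hk 2)
    show _ ↔ xor (p r.1) (p (fun x => !(r.1 x))) = false
    rw [ne_eq, Bool.not_eq_true]
  have q3 : 40 * tstN (fun r : TstR (A × A → Bool) (A → Bool) =>
      p r.1 ≠ p (tstXr r.1 (fun x => !(C x.1 x.2)))) <
      Nat.card (TstR (A × A → Bool) (A → Bool)) := by
    refine lt_of_eq_of_lt (congrArg (fun n => 40 * n) (tstN_congr fun r => ?_)) (hk 3)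
    show _ ↔ (p r.1 == p (tstXr r.1 (fun x => !(C x.1 x.2)))) = false
    rw [beq_eq_false_iff_ne]
  have q4 : 40 * tstN (fun r : TstR (A × A → Bool) (A → Bool) =>
      xor (p (tstXr (fun x => r.2.2.2 x.1) r.2.2.1)) (p r.2.2.1) ≠ a r.2.2.2) <
      Nat.card (TstR (A × A → Bool) (A → Bool)) := by
    refine lt_of_eq_of_lt (congrArg (fun n => 40 * n) (tstN_congr fun r => ?_)) (hk 4)
    show _ ↔ (xor (p (tstXr (fun x => r.2.2.2 x.1) r.2.2.1)) (p r.2.2.1) == a r.2.2.2) = false
    rw [beq_eq_false_iff_ne]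
  have q5 : 40 * tstN (fun r : TstR (A × A → Bool) (A → Bool) =>
      xor (p (tstXr (fun x => r.2.2.2 x.2) r.2.2.1)) (p r.2.2.1) ≠ b r.2.2.2) <
      Nat.card (TstR (A × A → Bool) (A → Bool)) := by
    refine lt_of_eq_of_lt (congrArg (fun n => 40 * n) (tstN_congr fun r => ?_)) (hk 5)
    show _ ↔ (xor (p (tstXr (fun x => r.2.2.2 x.2) r.2.2.1)) (p r.2.2.1) == b r.2.2.2) = false
    rw [beq_eq_false_iff_ne]
  obtain ⟨s, hs⟩ := tst_core (X := A × A) (Y := A → Bool) p q0 q1 q2
  have hx : dec a = s.1 := hdec a s.1 (tst_agree Prod.fst a p s hs q4)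
  have hy : dec b = s.2 := hdec b s.2 (tst_agree Prod.snd b p s hs q5)
  rw [hx, hy]
  -- the constraint test
  have mar : ∀ (Z : Type) [Finite Z] [Nonempty Z]
      (e : TstR (A × A → Bool) (A → Bool) ≃ (A × A → Bool) × Z),
      40 * tstN (fun r => p (e r).1 ≠ (e r).1 s) < Nat.card (TstR (A × A → Bool) (A → Bool)) := by
    intro Z _ _ e
    exact tst_bal e (fun f => p f ≠ f s) hs
  have m1 : 40 * tstN (fun r : TstR (A × A → Bool) (A → Bool) => p r.1 ≠ r.1 s) <
      Nat.card (TstR (A × A → Bool) (A → Bool)) :=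
    mar ((A × A → Bool) × (A × A → Bool) × (A → Bool)) (Equiv.refl _)
  have m2 : 40 * tstN (fun r : TstR (A × A → Bool) (A → Bool) =>
      p (tstXr r.1 (fun x => !(C x.1 x.2))) ≠ tstXr r.1 (fun x => !(C x.1 x.2)) s) <
      Nat.card (TstR (A × A → Bool) (A → Bool)) :=
    mar ((A × A → Bool) × (A × A → Bool) × (A → Bool))
    ⟨fun r => (tstXr r.1 (fun x => !(C x.1 x.2)), r.2),
      fun r => (tstXr r.1 (fun x => !(C x.1 x.2)), r.2),
      fun r => by simp [tst_xr_xr'], fun r => by simp [tst_xr_xr']⟩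
  obtain ⟨f, d0, d1, d2⟩ : ∃ f : A × A → Bool, p f = p (tstXr f (fun x => !(C x.1 x.2))) ∧
      p f = f s ∧ p (tstXr f (fun x => !(C x.1 x.2))) = tstXr f (fun x => !(C x.1 x.2)) s := by
    by_contra hcon
    push Not at hcon
    have hpos : 0 < Nat.card (TstR (A × A → Bool) (A → Bool)) := Nat.card_pos
    have h3 : Nat.card (TstR (A × A → Bool) (A → Bool)) ≤
        tstN (fun r : TstR (A × A → Bool) (A → Bool) =>
          p r.1 ≠ p (tstXr r.1 (fun x => !(C x.1 x.2)))) +
        (tstN (fun r : TstR (A × A → Bool) (A → Bool) => p r.1 ≠ r.1 s) +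
        tstN (fun r : TstR (A × A → Bool) (A → Bool) =>
          p (tstXr r.1 (fun x => !(C x.1 x.2))) ≠ tstXr r.1 (fun x => !(C x.1 x.2)) s)) := by
      have e1 : Nat.card (TstR (A × A → Bool) (A → Bool)) =
          tstN (fun _ : TstR (A × A → Bool) (A → Bool) => True) := by
        unfold tstN
        exact Nat.card_congr (Equiv.subtypeUnivEquiv (fun _ => trivial)).symm
      rw [e1]
      refine le_trans (tstN_mono ?_) (le_trans (tstN_or _ _) (Nat.add_le_add_left
        (tstN_or _ _) _))
      intro r _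
      by_contra hc
      push Not at hc
      exact hcon r.1 hc.1 hc.2.1 hc.2.2
    omega
  rw [d1, d2] at d0
  simp only [tstXr] at d0
  revert d0
  cases f s <;> cases C s.1 s.2 <;> simp

end Pool.Agent.Lib.PCP
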